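import Mathlib

open Finset MeasureTheory Filter Topology

namespace Pool.Agent.Helper630.TwoSumming

/-- `IsAn a` : `a` is the sequence of Taylor coefficients of a function analytic in the open unit disc,
that is, the power series `∑ a_k z^k` converges absolutely for `|z| < 1`. -/
def IsAn (a : ℕ → ℂ) : Prop := ∀ r : ℝ, 0 ≤ r → r < 1 → Summable (fun k => ‖a k‖ * r ^ k)

/-- `ev a z = ∑ a_k z^k`, the function with Taylor coefficients `a`. -/
noncomputable def ev (a : ℕ → ℂ) (z : ℂ) : ℂ := ∑' k, a k * z ^ k

end Pool.Agent.Helper630.TwoSumming
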