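import Pool.Agent.Helper630.TwoSumming.Pairing

open Finset MeasureTheory Filter Topology

namespace Pool.Agent.Helper630.TwoSumming

lemma IsAn.shift {a : ℕ → ℂ} (ha : IsAn a) (n : ℕ) : IsAn (fun k => a (k + n)) := by
  have := ha.poly_shift n (fun _ => 1) 0 1 (fun k => by simp)
  simpa using this

lemma shift_ev {a : ℕ → ℂ} (ha : IsAn a) (n : ℕ) (h0 : ∀ l, l < n → a l = 0) {z : ℂ} (hz : ‖z‖ < 1) :
    ev a z = z ^ n * ev (fun k => a (k + n)) z := by
  have hs := ha.summable hz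
  have h1 := hs.sum_add_tsum_nat_add n
  unfold ev
  rw [← h1, Finset.sum_eq_zero, zero_add, ← tsum_mul_left]
  · refine tsum_congr fun k => ?_
    rw [pow_add]; ring
  · intro i hi
    rw [h0 i (Finset.mem_range.1 hi), zero_mul]

lemma shift_bound {a : ℕ → ℂ} (ha : IsAn a) (n : ℕ) (h0 : ∀ l, l < n → a l = 0) {α B : ℝ} (hα : 0 < α)
    (h : ∀ z : ℂ, ‖z‖ < 1 → ‖ev a z‖ ≤ B * (1 - ‖z‖) ^ (-α)) {z : ℂ} (hz : ‖z‖ < 1) :
    ‖ev (fun k => a (k + n)) z‖ ≤ (2 ^ n * 2 ^ α * B) * (1 - ‖z‖) ^ (-α) := by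
  have hB : 0 ≤ B := by
    have := (norm_nonneg _).trans (h 0 (by simp))
    simpa using this
  have h2α : (1:ℝ) ≤ 2 ^ α := Real.one_le_rpow (by norm_num) hα.le
  -- the case |z| ≥ 1/2
  have key : ∀ w : ℂ, ‖w‖ < 1 → 1 / 2 ≤ ‖w‖ → ‖ev (fun k => a (k + n)) w‖ ≤ 2 ^ n * B * (1 - ‖w‖) ^ (-α) := by
    intro w hw hw2
    have h1 := h w hw
    rw [shift_ev ha n h0 hw, norm_mul, norm_pow] at h1
    have h3 : (1 / 2 : ℝ) ^ n ≤ ‖w‖ ^ n := by gcongr
    have h4 : (1 / 2 : ℝ) ^ n * ‖ev (fun k => a (k + n)) w‖ ≤ B * (1 - ‖w‖) ^ (-α) :=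
      (mul_le_mul_of_nonneg_right h3 (norm_nonneg _)).trans h1
    calc ‖ev (fun k => a (k + n)) w‖ = 2 ^ n * ((1 / 2 : ℝ) ^ n * ‖ev (fun k => a (k + n)) w‖) := by
          rw [← mul_assoc, ← mul_pow]; norm_num
      _ ≤ 2 ^ n * (B * (1 - ‖w‖) ^ (-α)) := by gcongr
      _ = _ := by ring
  have hp : 0 < 1 - ‖z‖ := by linarith
  rcases le_total (1 / 2) ‖z‖ with hc | hc
  · refine (key z hz hc).trans ?_
    gcongr
    nlinarith [pow_pos (zero_lt_two (α := ℝ)) n]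
  · have hdiff : DifferentiableOn ℂ (ev (fun k => a (k + n))) (Metric.ball 0 1) := fun w hw =>
      (hasDerivAt_ev (ha.shift n) (mem_ball_zero_iff.1 hw)).differentiableAt.differentiableWithinAt
    have hcl : DiffContOnCl ℂ (ev (fun k => a (k + n))) (Metric.ball 0 (1 / 2)) :=
      hdiff.diffContOnCl_ball (Metric.closedBall_subset_ball (by norm_num))
    have hmax := Complex.norm_le_of_forall_mem_frontier_norm_le (C := 2 ^ n * 2 ^ α * B) Metric.isBounded_ball hcl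
      (by
        intro w hw
        rw [frontier_ball (0:ℂ) (by norm_num), mem_sphere_zero_iff_norm] at hw
        refine (key w (by rw [hw]; norm_num) hw.ge).trans ?_
        rw [hw]
        have : (1 - 1 / 2 : ℝ) ^ (-α) = 2 ^ α := by
          rw [show (1 - 1 / 2 : ℝ) = 2⁻¹ by norm_num, Real.inv_rpow (by norm_num), Real.rpow_neg (by norm_num), inv_inv]
        rw [this]
        exact le_of_eq (by ring)) (z := z) (by
        rw [closure_ball (0:ℂ) (by norm_num), mem_closedBall_zero_iff]; exact hc)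
    refine hmax.trans ?_
    refine le_mul_of_one_le_right (by positivity) ?_
    exact Real.one_le_rpow_of_pos_of_le_one_of_nonpos hp (by linarith [norm_nonneg z]) (by linarith)

variable {α : ℝ} {n : ℕ}

/-- the coefficients of the high part -/
noncomputable def Th (φ : ℕ → ℂ) (n m : ℕ) (k : ℕ) : ℂ := tail φ m (max (m + 1) n) (k + n)

lemma Th_isAn {φ : ℕ → ℂ} (hφ : IsAn φ) (n m : ℕ) : IsAn (Th φ n m) := (hφ.tail m _).shift n

lemma Th_bound {α : ℝ} (hα : 1 ≤ α) (n : ℕ) {ε : ℝ} (hε0 : 0 < ε) (hε1 : ε ≤ 1) :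
    ∃ K : ℝ, 0 < K ∧ ∀ (φ : ℕ → ℂ), IsAn φ → ∀ M : ℝ, (∀ z : ℂ, ‖z‖ < 1 → ‖ev φ z‖ ≤ M * (1 - ‖z‖) ^ (-α)) →
      ∀ m : ℕ, ∀ z : ℂ, ‖z‖ < 1 →
        ‖ev (Th φ n m) z‖ ≤ (K * M * ((m : ℝ) + 1) ^ (2 * ε)) * (1 - ‖z‖) ^ (-α) := by
  obtain ⟨K, hK0, hK⟩ := tail_bound hα n hε0 hε1
  refine ⟨2 ^ n * 2 ^ α * K, by positivity, ?_⟩
  intro φ hφ M hM m z hz
  have h := shift_bound (a := tail φ m (max (m + 1) n)) (hφ.tail m _) n (by
    intro l hl
    unfold tail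
    rw [if_neg, zero_mul]
    have := le_max_right (m + 1) n
    omega) (α := α) (B := K * M * ((m : ℝ) + 1) ^ (2 * ε)) (by linarith) (by
      intro w hw
      refine (hK φ hφ M hM m _ ?_ ?_ w hw).trans (le_of_eq (by ring))
      · have := le_max_left (m + 1) n
        omega
      · exact max_le (by omega) (by omega)) hz
  refine h.trans (le_of_eq (by ring))

/-- the functionals `ξ_m` -/
noncomputable def xi (φ : ℕ → ℂ) (m : ℕ) (x : B1 α n) : ℂ :=
  (∑ k ∈ Ico (m + 1) n, φ (m + k) * x.co k) + (Real.pi * (n - 1).factorial : ℂ)⁻¹ * AF (Th φ n m) x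

lemma xi_add (hα : 1 ≤ α) (hαn : α < n) {φ : ℕ → ℂ} (hφ : IsAn φ) {M : ℝ}
    (hM : ∀ z : ℂ, ‖z‖ < 1 → ‖ev φ z‖ ≤ M * (1 - ‖z‖) ^ (-α)) (m : ℕ) (x y : B1 α n) :
    xi φ m (x + y) = xi φ m x + xi φ m y := by
  have hn : 1 ≤ n := by
    have : (1:ℝ) < n := by linarith
    exact_mod_cast this.le
  obtain ⟨K, hK0, hK⟩ := Th_bound hα n (ε := 1) one_pos le_rfl
  unfold xi
  rw [AF_add hn (Th_isAn hφ n m) (by linarith) (hK φ hφ M hM m)]
  have : ∀ k, (x + y).co k = x.co k + y.co k := fun k => rfl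
  simp_rw [this, mul_add, Finset.sum_add_distrib]
  ring

lemma xi_smul (φ : ℕ → ℂ) (m : ℕ) (c : ℂ) (x : B1 α n) : xi φ m (c • x) = c * xi φ m x := by
  unfold xi
  rw [AF_smul, mul_add, Finset.mul_sum]
  congr 1
  · refine Finset.sum_congr rfl fun k _ => ?_
    rw [B1.co_smul, Pi.smul_apply, smul_eq_mul]; ring
  · ring

lemma xi_bound (hα : 1 ≤ α) (hαn : α < n) {ε : ℝ} (hε0 : 0 < ε) (hε1 : ε ≤ 1) :
    ∃ K : ℝ, 0 < K ∧ ∀ (φ : ℕ → ℂ), IsAn φ → ∀ M : ℝ, (∀ z : ℂ, ‖z‖ < 1 → ‖ev φ z‖ ≤ M * (1 - ‖z‖) ^ (-α)) →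
      ∀ (m : ℕ) (x : B1 α n), ‖xi φ m x‖ ≤ K * M * ((m : ℝ) + 1) ^ (2 * ε) * ‖x‖ := by
  have hn : 1 ≤ n := by
    have : (1:ℝ) < n := by linarith
    exact_mod_cast this.le
  have hα0 : 0 < α := by linarith
  obtain ⟨K, hK0, hK⟩ := Th_bound hα n hε0 hε1
  obtain ⟨C, hC0, hC⟩ := B1.co_bound (α := α) (n := n) (by linarith) hαn
  refine ⟨n * (2 * 2 ^ α * (2 * n) ^ α * C) + (Real.pi * (n - 1).factorial)⁻¹ * (K * 2 ^ (n - 1)), by positivity, ?_⟩
  intro φ hφ M hM m x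
  have hM0 : 0 ≤ M := by
    have := (norm_nonneg _).trans (hM 0 (by simp))
    simpa using this
  have hm1 : (1:ℝ) ≤ ((m : ℝ) + 1) ^ (2 * ε) :=
    Real.one_le_rpow (by linarith [Nat.cast_nonneg (α := ℝ) m]) (by positivity)
  have h1 : ‖∑ k ∈ Ico (m + 1) n, φ (m + k) * x.co k‖ ≤ n * (2 * 2 ^ α * (2 * n) ^ α * C) * M * ‖x‖ := by
    calc ‖∑ k ∈ Ico (m + 1) n, φ (m + k) * x.co k‖ ≤ ∑ k ∈ Ico (m + 1) n, (2 * 2 ^ α * M * (2 * n) ^ α) * (C * ‖x‖) := by
          refine (norm_sum_le _ _).trans (Finset.sum_le_sum fun k hk => ?_)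
          rw [Finset.mem_Ico] at hk
          rw [norm_mul]
          have e1 : ‖φ (m + k)‖ ≤ 2 * 2 ^ α * M * (2 * n) ^ α := by
            refine (co_le_of_growth hφ hα0 hM (m + k)).trans ?_
            gcongr
            have : (m + k) + 1 ≤ 2 * n := by omega
            exact_mod_cast this
          have e2 : ‖x.co k‖ ≤ C * ‖x‖ := by
            refine (hC x k).trans ?_
            have : ((k : ℝ) + 1) ^ (-α) ≤ 1 := by
              refine Real.rpow_le_one_of_one_le_of_nonpos (by linarith [Nat.cast_nonneg (α := ℝ) k]) (by linarith)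
            calc C * ((k : ℝ) + 1) ^ (-α) * ‖x‖ ≤ C * 1 * ‖x‖ := by gcongr
              _ = _ := by ring
          gcongr
      _ = ((Ico (m + 1) n).card : ℝ) * ((2 * 2 ^ α * M * (2 * n) ^ α) * (C * ‖x‖)) := by
          rw [Finset.sum_const, nsmul_eq_mul]
      _ ≤ n * ((2 * 2 ^ α * M * (2 * n) ^ α) * (C * ‖x‖)) := by
          gcongr
          rw [Nat.card_Ico]; omega
      _ = _ := by ring
  have h2 := AF_bound hn hα0 (hK φ hφ M hM m) x
  have h3 : ‖(Real.pi * (n - 1).factorial : ℂ)⁻¹ * AF (Th φ n m) x‖ ≤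
      (Real.pi * (n - 1).factorial)⁻¹ * (K * 2 ^ (n - 1)) * M * ((m : ℝ) + 1) ^ (2 * ε) * ‖x‖ := by
    rw [norm_mul, norm_inv, norm_mul, Complex.norm_natCast, Complex.norm_real, Real.norm_of_nonneg Real.pi_pos.le]
    calc (Real.pi * (n - 1).factorial)⁻¹ * ‖AF (Th φ n m) x‖ ≤
        (Real.pi * (n - 1).factorial)⁻¹ * ((K * M * ((m : ℝ) + 1) ^ (2 * ε)) * 2 ^ (n - 1) * ‖x‖) := by gcongr
      _ = _ := by ring
  unfold xi
  refine (norm_add_le _ _).trans ((add_le_add h1 h3).trans ?_)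
  have h4 : n * (2 * 2 ^ α * (2 * n) ^ α * C) * M * ‖x‖ ≤
      n * (2 * 2 ^ α * (2 * n) ^ α * C) * M * ((m : ℝ) + 1) ^ (2 * ε) * ‖x‖ := by
    refine mul_le_mul_of_nonneg_right ?_ (norm_nonneg _)
    exact le_mul_of_one_le_right (by positivity) hm1
  refine (add_le_add h4 le_rfl).trans (le_of_eq (by ring))

/-- coefficients of `u x` -/
noncomputable def uco (φ : ℕ → ℂ) (x : B1 α n) (m : ℕ) : ℂ :=
  (∑ k ∈ range (m + 1), φ (m + k) * x.co k) + xi φ m x

lemma uco_hankel (hα : 1 ≤ α) (hαn : α < n) {φ : ℕ → ℂ} (hφ : IsAn φ) {M : ℝ}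
    (hM : ∀ z : ℂ, ‖z‖ < 1 → ‖ev φ z‖ ≤ M * (1 - ‖z‖) ^ (-α)) (x : B1 α n) (m : ℕ) :
    Tendsto (fun s : ℝ => ∑' k, φ (m + k) * x.co k * (s : ℂ) ^ k) (𝓝[<] 1) (𝓝 (uco φ x m)) := by
  have hn : 1 ≤ n := by
    have : (1:ℝ) < n := by linarith
    exact_mod_cast this.le
  have hα0 : 0 < α := by linarith
  obtain ⟨K, hK0, hK⟩ := Th_bound hα n (ε := 1) one_pos le_rfl
  obtain ⟨C, hC0, hC⟩ := B1.co_bound (α := α) (n := n) (by linarith) hαn
  have hlim := AF_limit hαn hn (Th_isAn hφ n m) hα0 (hK φ hφ M hM m) x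
  set q := max (m + 1) n with hq
  have hcid : Tendsto (fun s : ℝ => (s : ℂ)) (𝓝[<] 1) (𝓝 1) := by
    have : Continuous (fun s : ℝ => (s : ℂ)) := by fun_prop
    have h := this.tendsto 1
    rw [Complex.ofReal_one] at h
    exact h.mono_left nhdsWithin_le_nhds
  have h1 : Tendsto (fun s : ℝ => ∑ k ∈ range q, φ (m + k) * x.co k * (s : ℂ) ^ k) (𝓝[<] 1)
      (𝓝 (∑ k ∈ range q, φ (m + k) * x.co k * 1 ^ k)) :=
    tendsto_finsetSum _ fun k _ => (hcid.pow k).const_mul _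
  have h2 := (hcid.pow n).mul hlim
  have h3 := h1.add h2
  have e1 : (∑ k ∈ range q, φ (m + k) * x.co k * 1 ^ k) +
      1 ^ n * ((Real.pi * (n - 1).factorial : ℂ)⁻¹ * AF (Th φ n m) x) = uco φ x m := by
    unfold uco xi
    simp only [one_pow, mul_one, one_mul]
    rw [← add_assoc]
    congr 1
    rcases le_total (m + 1) n with hc | hc
    · rw [hq, max_eq_right hc, Finset.range_eq_Ico, Finset.range_eq_Ico]
      exact (Finset.sum_Ico_consecutive _ (Nat.zero_le _) hc).symm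
    · rw [hq, max_eq_left hc, Finset.Ico_eq_empty_of_le hc, Finset.sum_empty, add_zero]
  rw [e1] at h3
  refine h3.congr' ?_
  have hev1 : ∀ᶠ s : ℝ in 𝓝[<] 1, s < 1 := self_mem_nhdsWithin
  have hev2 : ∀ᶠ s : ℝ in 𝓝[<] 1, 0 < s := mem_nhdsWithin_of_mem_nhds (lt_mem_nhds one_pos)
  filter_upwards [hev1, hev2] with s hs1 hs0
  have hxb : ∀ k, ‖x.co k‖ ≤ C * ‖x‖ := by
    intro k
    refine (hC x k).trans ?_
    have : ((k : ℝ) + 1) ^ (-α) ≤ 1 := by
      refine Real.rpow_le_one_of_one_le_of_nonpos (by linarith [Nat.cast_nonneg (α := ℝ) k]) (by linarith)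
    calc C * ((k : ℝ) + 1) ^ (-α) * ‖x‖ ≤ C * 1 * ‖x‖ := by gcongr
      _ = _ := by ring
  have hsum : Summable (fun k => φ (m + k) * x.co k * (s : ℂ) ^ k) := by
    have hsh := (hφ.shift m) s hs0.le hs1
    refine Summable.of_norm_bounded (hsh.mul_right (C * ‖x‖)) fun k => ?_
    rw [norm_mul, norm_mul, norm_pow, Complex.norm_real, Real.norm_of_nonneg hs0.le, add_comm m k]
    calc ‖φ (k + m)‖ * ‖x.co k‖ * s ^ k ≤ ‖φ (k + m)‖ * (C * ‖x‖) * s ^ k := by gcongr; exact hxb k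
      _ = _ := by ring
  have hsplit : ∑' k, φ (m + k) * x.co k * (s : ℂ) ^ k =
      (∑ k ∈ range q, φ (m + k) * x.co k * (s : ℂ) ^ k) + ∑' k, tail φ m q k * x.co k * (s : ℂ) ^ k := by
    have hsum2 : Summable (fun k => tail φ m q k * x.co k * (s : ℂ) ^ k) := by
      refine Summable.of_norm_bounded hsum.norm fun k => ?_
      unfold tail
      rw [norm_mul, norm_mul, norm_mul, norm_mul, norm_mul, add_comm m k]
      split_ifs
      · simp
      · simp; positivity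
    rw [← hsum.sum_add_tsum_nat_add q]
    congr 1
    rw [← hsum2.sum_add_tsum_nat_add q, Finset.sum_eq_zero, zero_add]
    · refine tsum_congr fun k => ?_
      unfold tail
      rw [if_pos (by omega), one_mul, add_comm m (k + q)]
    · intro i hi
      unfold tail
      rw [if_neg (by have := Finset.mem_range.1 hi; omega), zero_mul, zero_mul, zero_mul]
  rw [hsplit]
  congr 1
  have hsum3 : Summable (fun k => tail φ m q k * x.co k * (s : ℂ) ^ k) := by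
    refine Summable.of_norm_bounded hsum.norm fun k => ?_
    unfold tail
    rw [norm_mul, norm_mul, norm_mul, norm_mul, norm_mul, add_comm m k]
    split_ifs
    · simp
    · simp; positivity
  rw [← hsum3.sum_add_tsum_nat_add n, Finset.sum_eq_zero, zero_add, ← tsum_mul_left]
  · refine tsum_congr fun k => ?_
    unfold Th
    rw [← hq, pow_add]
    ring
  · intro i hi
    unfold tail
    have := le_max_right (m + 1) n
    have := Finset.mem_range.1 hi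
    rw [if_neg (by omega), zero_mul, zero_mul, zero_mul]

end Pool.Agent.Helper630.TwoSumming
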