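import Pool.Agent.Helper630.TwoSumming.SpaceB

open Finset MeasureTheory Filter Topology

namespace Pool.Agent.Helper630.TwoSumming

lemma rpow_one_sub_integrable {e : ℝ} (he : -1 < e) :
    IntegrableOn (fun r : ℝ => (1 - r) ^ e) (Set.Ioo 0 1) := by
  have h := (intervalIntegral.intervalIntegrable_rpow' (a := 0) (b := 1) he).comp_sub_left 1
  simp only [sub_zero, sub_self] at h
  rw [intervalIntegrable_iff, Set.uIoc_comm, Set.uIoc_of_le zero_le_one] at h
  exact h.mono_set Set.Ioo_subset_Ioc_self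

lemma radial_integrable {e : ℝ} (he : -1 < e) (m : ℕ) :
    IntegrableOn (fun r : ℝ => r ^ m * (1 - r) ^ e) (Set.Ioo 0 1) := by
  have h := rpow_one_sub_integrable he
  refine Integrable.mono h ?_ ?_
  · refine ContinuousOn.aestronglyMeasurable ?_ measurableSet_Ioo
    refine ContinuousOn.mul (by fun_prop) (ContinuousOn.rpow_const (by fun_prop) ?_)
    intro x hx; left; have := hx.2; linarith [hx.2]
  · refine (ae_restrict_iff' measurableSet_Ioo).2 (ae_of_all _ fun r hr => ?_)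
    rw [norm_mul]
    refine mul_le_of_le_one_left (norm_nonneg _) ?_
    rw [norm_pow, Real.norm_of_nonneg hr.1.le]
    exact pow_le_one₀ hr.1.le hr.2.le

lemma radial_lower {e : ℝ} (he : -1 < e) (k : ℕ) :
    (4 * ((k : ℝ) + 1)) ^ (-(e + 1)) / (2 * (e + 1)) ≤ ∫ r in Set.Ioo (0:ℝ) 1, r ^ (2 * k + 1) * (1 - r) ^ e := by
  set h : ℝ := 1 / (4 * ((k : ℝ) + 1)) with hh
  have hk : (0:ℝ) < (k : ℝ) + 1 := by positivity
  have hpos : 0 < h := by positivity
  have hle : h ≤ 1 / 4 := by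
    rw [hh]; gcongr; linarith
  have h1 : ∫ r in Set.Ioo (1 - h) 1, r ^ (2 * k + 1) * (1 - r) ^ e ≤ ∫ r in Set.Ioo (0:ℝ) 1, r ^ (2 * k + 1) * (1 - r) ^ e := by
    refine setIntegral_mono_set (radial_integrable he _) ?_ ?_
    · refine (ae_restrict_iff' measurableSet_Ioo).2 (ae_of_all _ fun r hr => ?_)
      have h1 := hr.1; have h2 : 0 < 1 - r := by linarith [hr.2]
      change 0 ≤ r ^ (2 * k + 1) * (1 - r) ^ e
      positivity
    · exact (Set.Ioo_subset_Ioo (by linarith) le_rfl).eventuallyLE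
  have hint : IntegrableOn (fun r : ℝ => (1 - r) ^ e) (Set.Ioo (1 - h) 1) :=
    (rpow_one_sub_integrable he).mono_set (Set.Ioo_subset_Ioo (by linarith) le_rfl)
  have h2 : ∫ r in Set.Ioo (1 - h) 1, (1 / 2 : ℝ) * (1 - r) ^ e ≤ ∫ r in Set.Ioo (1 - h) 1, r ^ (2 * k + 1) * (1 - r) ^ e := by
    refine setIntegral_mono_on (hint.const_mul _) ((radial_integrable he _).mono_set (Set.Ioo_subset_Ioo (by linarith) le_rfl))
      measurableSet_Ioo fun r hr => ?_
    have h2 : 0 < 1 - r := by linarith [hr.2]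
    gcongr
    have hb : (1 - h) ^ (2 * k + 1) ≤ r ^ (2 * k + 1) := by
      gcongr
      · linarith
      · exact hr.1.le
    have hbern := one_add_mul_le_pow (a := -h) (by linarith) (2 * k + 1)
    have : (1 / 2 : ℝ) ≤ 1 + ((2 * k + 1 : ℕ) : ℝ) * (-h) := by
      rw [hh]; push_cast
      have : (2 * (k : ℝ) + 1) * (1 / (4 * ((k : ℝ) + 1))) ≤ 1 / 2 := by
        rw [mul_one_div, div_le_div_iff₀ (by positivity) (by norm_num)]; linarith
      linarith
    calc (1 / 2 : ℝ) ≤ 1 + ((2 * k + 1 : ℕ) : ℝ) * (-h) := this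
      _ ≤ (1 + -h) ^ (2 * k + 1) := hbern
      _ = (1 - h) ^ (2 * k + 1) := by ring
      _ ≤ _ := hb
  have h3 : ∫ r in Set.Ioo (1 - h) 1, (1 / 2 : ℝ) * (1 - r) ^ e = (1 / 2) * (h ^ (e + 1) / (e + 1)) := by
    rw [integral_const_mul]
    congr 1
    rw [← integral_Ioc_eq_integral_Ioo, ← intervalIntegral.integral_of_le (by linarith)]
    rw [intervalIntegral.integral_comp_sub_left (fun x => x ^ e) 1]
    rw [integral_rpow (Or.inl he)]
    simp only [sub_self, sub_sub_cancel]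
    rw [Real.zero_rpow (by linarith), sub_zero]
  calc (4 * ((k : ℝ) + 1)) ^ (-(e + 1)) / (2 * (e + 1)) = (1 / 2) * (h ^ (e + 1) / (e + 1)) := by
        rw [hh, one_div (4 * ((k : ℝ) + 1)), Real.inv_rpow (by positivity), Real.rpow_neg (by positivity)]
        have : e + 1 ≠ 0 := by linarith
        field_simp
    _ ≤ _ := by rw [← h3]; exact h2.trans h1

variable {α : ℝ} {n : ℕ}

lemma wt_cont' (e : ℝ) : ContinuousOn (fun r : ℝ => (1 - r) ^ e) (Set.Ico 0 1) := by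
  refine ContinuousOn.rpow_const (by fun_prop) ?_
  intro z hz
  left
  linarith [hz.2]

lemma B1.evint (x : B1 α n) : IntegrableOn (fun z : ℂ => ev (dco n x.co) z * (((1 - ‖z‖) ^ ((n : ℝ) - α - 1) : ℝ) : ℂ))
    (Metric.ball 0 1) := by
  have hc : ContinuousOn (fun z : ℂ => ev (dco n x.co) z * (((1 - ‖z‖) ^ ((n : ℝ) - α - 1) : ℝ) : ℂ)) (Metric.ball (0:ℂ) 1) :=
    (continuousOn_ev (x.isAn.dco n)).mul (Complex.continuous_ofReal.comp_continuousOn (wt_cont _))
  refine Integrable.mono' x.integrable (hc.aestronglyMeasurable Metric.isOpen_ball.measurableSet) ?_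
  refine (ae_restrict_iff' Metric.isOpen_ball.measurableSet).2 (ae_of_all _ fun z hz => ?_)
  have hz' : ‖z‖ < 1 := mem_ball_zero_iff.1 hz
  rw [integrand_eq α n x.isAn hz, norm_mul, Complex.norm_real, Real.norm_of_nonneg (Real.rpow_nonneg (by linarith) _)]

lemma B1.co_high (hα : α < n) (x : B1 α n) (k : ℕ) :
    2 * Real.pi * ‖dco n x.co k‖ * ((4 * ((k : ℝ) + 1)) ^ (-((n : ℝ) - α)) / (2 * ((n : ℝ) - α))) ≤
      ∫ z in Metric.ball (0:ℂ) 1, integrand α n x.co z := by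
  have he : -1 < (n : ℝ) - α - 1 := by linarith
  have h1 := disc_orth (x.isAn.dco n) k (fun r => (1 - r) ^ ((n : ℝ) - α - 1)) (wt_cont' _) x.evint
  have h2 : ‖∫ z in Metric.ball (0:ℂ) 1, (starRingEnd ℂ z) ^ k * ev (dco n x.co) z * (((1 - ‖z‖) ^ ((n : ℝ) - α - 1) : ℝ) : ℂ)‖
      ≤ ∫ z in Metric.ball (0:ℂ) 1, integrand α n x.co z := by
    refine norm_integral_le_of_norm_le x.integrable ?_
    refine (ae_restrict_iff' Metric.isOpen_ball.measurableSet).2 (ae_of_all _ fun z hz => ?_)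
    have hz' : ‖z‖ < 1 := mem_ball_zero_iff.1 hz
    rw [integrand_eq α n x.isAn hz, norm_mul, norm_mul, Complex.norm_real,
      Real.norm_of_nonneg (Real.rpow_nonneg (by linarith) _), norm_pow, RCLike.norm_conj]
    have : 0 ≤ (1 - ‖z‖) ^ ((n : ℝ) - α - 1) := Real.rpow_nonneg (by linarith) _
    gcongr
    exact mul_le_of_le_one_left (norm_nonneg _) (pow_le_one₀ (norm_nonneg _) hz'.le)
  rw [h1, norm_mul, norm_mul] at h2
  have h3 : ‖(2 * Real.pi : ℂ)‖ = 2 * Real.pi := by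
    rw [norm_mul, Complex.norm_real, Real.norm_of_nonneg Real.pi_pos.le]; norm_num
  rw [h3, Complex.norm_real] at h2
  refine le_trans ?_ h2
  gcongr
  have h4 := radial_lower he k
  rw [show (n : ℝ) - α - 1 + 1 = n - α by ring] at h4
  exact h4.trans (le_abs_self _)

lemma descFactorial_ge (k n : ℕ) : ((k : ℝ) + 1) ^ n ≤ ((k + n).descFactorial n : ℝ) := by
  have : (k + 1) ^ n ≤ (k + n).descFactorial n := by
    rw [Nat.add_descFactorial_eq_ascFactorial]
    exact Nat.pow_succ_le_ascFactorial (k + 1) n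
  exact_mod_cast this

lemma B1.co_bound (hα0 : 0 < α) (hα : α < n) : ∃ C : ℝ, 0 < C ∧ ∀ (x : B1 α n) (k : ℕ),
    ‖x.co k‖ ≤ C * ((k : ℝ) + 1) ^ (-α) * ‖x‖ := by
  have hn : (0:ℝ) < n := hα0.trans hα
  set C1 : ℝ := (2 * ((n : ℝ) - α)) * 4 ^ ((n : ℝ) - α) / (2 * Real.pi) with hC1
  have hna : 0 < (n : ℝ) - α := by linarith
  have hC1pos : 0 < C1 := by have := Real.pi_pos; positivity
  refine ⟨C1 * (n + 1) ^ α + (n : ℝ) ^ α, by positivity, fun x k => ?_⟩
  have hnorm : ‖x‖ = (∫ z in Metric.ball (0:ℂ) 1, integrand α n x.co z) +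
    ∑ j ∈ range n, (j.factorial : ℝ) * ‖x.co j‖ := B1.norm_def x
  have hs0 : 0 ≤ ∑ j ∈ range n, (j.factorial : ℝ) * ‖x.co j‖ := Finset.sum_nonneg fun _ _ => by positivity
  have hi0 := x.integral_nonneg'
  by_cases hk : k < n
  · have h1 : ‖x.co k‖ ≤ ‖x‖ := by
      rw [hnorm]
      have := Finset.single_le_sum (f := fun j => (j.factorial : ℝ) * ‖x.co j‖) (fun j _ => by positivity) (Finset.mem_range.2 hk)
      have h2 : (1:ℝ) ≤ (k.factorial : ℝ) := by exact_mod_cast Nat.one_le_iff_ne_zero.2 (Nat.factorial_ne_zero k)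
      have h3 : ‖x.co k‖ ≤ (k.factorial : ℝ) * ‖x.co k‖ := le_mul_of_one_le_left (norm_nonneg _) h2
      linarith
    have h2 : (1:ℝ) ≤ (C1 * (n + 1) ^ α + (n : ℝ) ^ α) * ((k : ℝ) + 1) ^ (-α) := by
      have h3 : (1:ℝ) ≤ (n : ℝ) ^ α * ((k : ℝ) + 1) ^ (-α) := by
        rw [Real.rpow_neg (by positivity), ← div_eq_mul_inv, one_le_div (by positivity)]
        apply Real.rpow_le_rpow (by positivity) _ hα0.le
        exact_mod_cast hk
      have h4 : 0 ≤ C1 * ((n : ℝ) + 1) ^ α * ((k : ℝ) + 1) ^ (-α) := by positivity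
      nlinarith
    calc ‖x.co k‖ ≤ 1 * ‖x‖ := by rw [one_mul]; exact h1
      _ ≤ _ := by gcongr
  · obtain ⟨l, rfl⟩ := Nat.exists_eq_add_of_le' (not_lt.1 hk)
    have h1 := B1.co_high hα x l
    unfold dco at h1
    rw [norm_mul, Complex.norm_natCast] at h1
    have h2 := descFactorial_ge l n
    have hl : (0:ℝ) < (l : ℝ) + 1 := by positivity
    have h3 : 2 * Real.pi * (((l : ℝ) + 1) ^ n * ‖x.co (l + n)‖) * ((4 * ((l : ℝ) + 1)) ^ (-((n : ℝ) - α)) / (2 * ((n : ℝ) - α))) ≤ ‖x‖ := by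
      calc _ ≤ 2 * Real.pi * (((l + n).descFactorial n : ℝ) * ‖x.co (l + n)‖) * ((4 * ((l : ℝ) + 1)) ^ (-((n : ℝ) - α)) / (2 * ((n : ℝ) - α))) := by
            have := Real.pi_pos
            gcongr
        _ ≤ ‖x‖ := by rw [hnorm]; linarith
    have h4 : 2 * Real.pi * (((l : ℝ) + 1) ^ n * ‖x.co (l + n)‖) * ((4 * ((l : ℝ) + 1)) ^ (-((n : ℝ) - α)) / (2 * ((n : ℝ) - α)))
        = ‖x.co (l + n)‖ * (((l : ℝ) + 1) ^ α / C1) := by
      rw [Real.mul_rpow (by norm_num) hl.le, Real.rpow_neg (by norm_num), Real.rpow_neg hl.le, Real.rpow_sub hl, hC1,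
        Real.rpow_natCast]
      have := Real.pi_pos
      field_simp
    rw [h4] at h3
    have h5 : ‖x.co (l + n)‖ ≤ C1 * ((l : ℝ) + 1) ^ (-α) * ‖x‖ := by
      rw [Real.rpow_neg hl.le]
      have hp : 0 < ((l : ℝ) + 1) ^ α := by positivity
      calc ‖x.co (l + n)‖ = (C1 / ((l : ℝ) + 1) ^ α) * (‖x.co (l + n)‖ * (((l : ℝ) + 1) ^ α / C1)) := by
            field_simp
        _ ≤ (C1 / ((l : ℝ) + 1) ^ α) * ‖x‖ := by gcongr
        _ = _ := by ring
    have h6 : ((l : ℝ) + 1) ^ (-α) ≤ ((n : ℝ) + 1) ^ α * (((l + n : ℕ) : ℝ) + 1) ^ (-α) := by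
      rw [Real.rpow_neg hl.le, Real.rpow_neg (by positivity), ← div_eq_mul_inv, ← Real.div_rpow (by positivity) (by positivity),
        ← Real.inv_rpow hl.le]
      apply Real.rpow_le_rpow (by positivity) _ hα0.le
      rw [inv_eq_one_div, div_le_div_iff₀ hl (by positivity)]
      push_cast
      nlinarith [mul_nonneg (Nat.cast_nonneg (α := ℝ) l) hn.le]
    calc ‖x.co (l + n)‖ ≤ C1 * ((l : ℝ) + 1) ^ (-α) * ‖x‖ := h5
      _ ≤ C1 * (((n : ℝ) + 1) ^ α * (((l + n : ℕ) : ℝ) + 1) ^ (-α)) * ‖x‖ := by gcongr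
      _ ≤ _ := by
          have : 0 ≤ (n : ℝ) ^ α * (((l + n : ℕ) : ℝ) + 1) ^ (-α) * ‖x‖ := by positivity
          nlinarith

end Pool.Agent.Helper630.TwoSumming
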