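import Pool.Agent.Helper630.TwoSumming.SpaceBinf
import Pool.Agent.Helper630.TwoSumming.CoefB

open Finset MeasureTheory Filter Topology

namespace Pool.Agent.Helper630.TwoSumming

variable {α : ℝ}

/-- coefficient bound from growth -/
lemma co_le_of_growth {a : ℕ → ℂ} (ha : IsAn a) {M : ℝ} (hα : 0 < α)
    (h : ∀ z : ℂ, ‖z‖ < 1 → ‖ev a z‖ ≤ M * (1 - ‖z‖) ^ (-α)) (k : ℕ) :
    ‖a k‖ ≤ 2 * 2 ^ α * M * ((k : ℝ) + 1) ^ α := by
  have hk : (0:ℝ) < (k : ℝ) + 1 := by positivity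
  set r : ℝ := 1 - 1 / (2 * ((k : ℝ) + 1)) with hr
  have hh : 1 / (2 * ((k : ℝ) + 1)) ≤ 1 / 2 := by gcongr; linarith
  have hh0 : 0 < 1 / (2 * ((k : ℝ) + 1)) := by positivity
  have hr0 : 0 < r := by rw [hr]; linarith
  have hr1 : r < 1 := by rw [hr]; linarith
  have hM : 0 ≤ M := by
    have := (norm_nonneg _).trans (h 0 (by simp))
    simpa using this
  have h1 := circle_orth ha k hr0.le hr1
  have h2 : ‖∫ t in (-Real.pi)..Real.pi, (starRingEnd ℂ ((r : ℂ) * Complex.exp (t * Complex.I))) ^ k *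
      ev a ((r : ℂ) * Complex.exp (t * Complex.I))‖ ≤ (r ^ k * (M * (1 - r) ^ (-α))) * |Real.pi - -Real.pi| := by
    refine intervalIntegral.norm_integral_le_of_norm_le_const fun t _ => ?_
    have hn : ‖(r : ℂ) * Complex.exp (t * Complex.I)‖ = r := by
      rw [norm_mul, Complex.norm_real, Complex.norm_exp_ofReal_mul_I, mul_one, Real.norm_of_nonneg hr0.le]
    rw [norm_mul, norm_pow, RCLike.norm_conj, hn]
    gcongr
    have := h ((r : ℂ) * Complex.exp (t * Complex.I)) (by rw [hn]; exact hr1)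
    rwa [hn] at this
  have h3 : ‖(2 * Real.pi : ℂ)‖ = 2 * Real.pi := by
    rw [norm_mul, Complex.norm_real, Real.norm_of_nonneg Real.pi_pos.le]; norm_num
  rw [h1, norm_mul (2 * Real.pi : ℂ), h3, norm_mul (a k), norm_pow, Complex.norm_real, Real.norm_of_nonneg hr0.le, show Real.pi - -Real.pi = 2 * Real.pi by ring, abs_of_pos (by have := Real.pi_pos; positivity)] at h2
  have h4 : ‖a k‖ * r ^ (2 * k) ≤ r ^ k * (M * (1 - r) ^ (-α)) := by
    have hpi := Real.pi_pos
    nlinarith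
  have h5 : ‖a k‖ * r ^ k ≤ M * (1 - r) ^ (-α) := by
    have hp : 0 < r ^ k := by positivity
    rw [two_mul, pow_add] at h4
    nlinarith
  have h6 : (1 / 2 : ℝ) ≤ r ^ k := by
    have hbern := one_add_mul_le_pow (a := -(1 / (2 * ((k : ℝ) + 1)))) (by linarith) k
    have : (1 / 2 : ℝ) ≤ 1 + (k : ℝ) * (-(1 / (2 * ((k : ℝ) + 1)))) := by
      have : (k : ℝ) * (1 / (2 * ((k : ℝ) + 1))) ≤ 1 / 2 := by
        rw [mul_one_div, div_le_div_iff₀ (by positivity) (by norm_num)]; linarith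
      linarith
    rw [hr, sub_eq_add_neg]
    exact this.trans hbern
  have h7 : (1 - r) ^ (-α) = 2 ^ α * ((k : ℝ) + 1) ^ α := by
    rw [hr, sub_sub_cancel, one_div, Real.inv_rpow (by positivity), Real.rpow_neg (by positivity), inv_inv,
      Real.mul_rpow (by norm_num) hk.le]
  rw [h7] at h5
  have h8 := norm_nonneg (a k)
  nlinarith

end Pool.Agent.Helper630.TwoSumming
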