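import Pool.Agent.Helper630.TwoSumming.Weight

open Finset MeasureTheory Filter Topology

namespace Pool.Agent.Helper630.TwoSumming

variable {n : ℕ}

lemma rpow_wt (hn : 2 ≤ n) (r : ℝ) : r ^ ((n : ℝ) - 1 - 1) = r ^ (n - 2) := by
  rw [← Real.rpow_natCast, Nat.cast_sub hn]
  congr 1
  push_cast; ring

lemma dco_fin {a : ℕ → ℂ} {K : ℕ} (h : ∀ j, K ≤ j → a j = 0) : ∀ j, K ≤ j → dco n a j = 0 := by
  intro j hj
  unfold dco
  rw [h _ (by omega), mul_zero]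

lemma fin_mem (hn : 2 ≤ n) {a : ℕ → ℂ} {K : ℕ} (h : ∀ j, K ≤ j → a j = 0) : a ∈ B1sub 1 n := by
  refine ⟨IsAn.of_fin h, ?_⟩
  have hc := ev_fin_cont (dco_fin (n := n) h)
  have h1 : IntegrableOn (fun z : ℂ => ‖ev (dco n a) z‖ * (1 - ‖z‖) ^ (n - 2)) (Metric.ball 0 1) := cont_int (by fun_prop)
  refine h1.congr_fun (fun z hz => ?_) Metric.isOpen_ball.measurableSet
  rw [integrand_eq 1 n (IsAn.of_fin h) hz, rpow_wt hn]

/-- polynomials -/
noncomputable def poly (hn : 2 ≤ n) (a : ℕ → ℂ) (K : ℕ) (h : ∀ j, K ≤ j → a j = 0) : B1 1 n :=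
  (⟨a, fin_mem hn h⟩ : B1sub 1 n)

lemma poly_co (hn : 2 ≤ n) (a : ℕ → ℂ) (K : ℕ) (h : ∀ j, K ≤ j → a j = 0) : (poly hn a K h).co = a := rfl

/-- monomials -/
noncomputable def mono (hn : 2 ≤ n) (k : ℕ) : B1 1 n :=
  poly hn (Pi.single k 1) (k + 1) (fun j hj => by rw [Pi.single_apply, if_neg (by omega)])

lemma mono_co (hn : 2 ≤ n) (k : ℕ) : (mono hn k).co = Pi.single k 1 := rfl

/-- coefficient map as a linear map -/
noncomputable def coL {α : ℝ} {n : ℕ} : B1 α n →ₗ[ℂ] (ℕ → ℂ) where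
  toFun := B1.co
  map_add' _ _ := rfl
  map_smul' _ _ := rfl

lemma co_sum (hn : 2 ≤ n) (s : Finset ℕ) (c : ℕ → ℂ) (j : ℕ) :
    (∑ k ∈ s, c k • mono hn k).co j = if j ∈ s then c j else 0 := by
  have h1 : (∑ k ∈ s, c k • mono hn k).co = ∑ k ∈ s, c k • (Pi.single k 1 : ℕ → ℂ) := by
    change coL (∑ k ∈ s, c k • mono hn k) = _
    rw [map_sum]
    refine Finset.sum_congr rfl fun k _ => ?_
    rw [map_smul]; rfl
  rw [h1, Finset.sum_apply]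
  simp [Pi.single_apply]

lemma norm_poly_le (hn : 2 ≤ n) (q : ℕ) (hq : n ≤ 2 * q) (c : ℕ → ℂ) {t : ℝ} (ht : 0 < t) :
    ‖∑ k ∈ Ioo (4 * q) (8 * q), c k • mono hn k‖ ≤
      (t * (((8 * q : ℕ) : ℝ) ^ (2 * n) * ∑ k ∈ Ioo (4 * q) (8 * q), ‖c k‖ ^ 2) + t⁻¹) / 2 * mu q (n - 2) := by
  set P := ∑ k ∈ Ioo (4 * q) (8 * q), c k • mono hn k with hP
  have hco : ∀ j, P.co j = if j ∈ Ioo (4 * q) (8 * q) then c j else 0 := fun j => co_sum hn _ c j
  have hfin : ∀ j, 8 * q ≤ j → P.co j = 0 := by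
    intro j hj
    rw [hco, if_neg (by rw [Finset.mem_Ioo]; omega)]
  have hmu := mu_pos q (n - 2)
  rw [B1.norm_def]
  have h0 : ∑ j ∈ range n, (j.factorial : ℝ) * ‖P.co j‖ = 0 := by
    refine Finset.sum_eq_zero fun j hj => ?_
    rw [Finset.mem_range] at hj
    rw [hco, if_neg (by rw [Finset.mem_Ioo]; omega), norm_zero, mul_zero]
  rw [h0, add_zero]
  have h1 : ∫ z in Metric.ball (0:ℂ) 1, integrand 1 n P.co z =
      ∫ z in Metric.ball (0:ℂ) 1, ‖ev (dco n P.co) z‖ * (1 - ‖z‖) ^ (n - 2) := by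
    refine setIntegral_congr_fun Metric.isOpen_ball.measurableSet fun z hz => ?_
    rw [integrand_eq 1 n P.isAn hz, rpow_wt hn]
  rw [h1]
  have h2 := L1_bound (dco_fin (n := n) hfin) q (n - 2) (by
    intro j hj
    unfold dco
    rw [hco, if_neg (by rw [Finset.mem_Ioo]; omega), mul_zero]) ht
  refine h2.trans ?_
  have h3 : ∑ j ∈ range (8 * q), ‖dco n P.co j‖ ^ 2 ≤ ((8 * q : ℕ) : ℝ) ^ (2 * n) * ∑ k ∈ Ioo (4 * q) (8 * q), ‖c k‖ ^ 2 := by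
    have h4 : ∀ j ∈ range (8 * q), ‖dco n P.co j‖ ^ 2 ≤ ((8 * q : ℕ) : ℝ) ^ (2 * n) * ‖P.co (j + n)‖ ^ 2 := by
      intro j _
      by_cases hj : j + n < 8 * q
      · unfold dco
        rw [norm_mul, Complex.norm_natCast, mul_pow, mul_comm 2 n, pow_mul]
        have : ((j + n).descFactorial n : ℝ) ≤ ((8 * q : ℕ) : ℝ) ^ n := by
          have h5 : (j + n).descFactorial n ≤ (8 * q) ^ n :=
            (Nat.descFactorial_le_pow _ _).trans (Nat.pow_le_pow_left hj.le n)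
          exact_mod_cast h5
        gcongr
      · unfold dco
        rw [hfin (j + n) (by omega)]; simp
    refine (Finset.sum_le_sum h4).trans ?_
    rw [← Finset.mul_sum]
    gcongr
    have e1 : ∑ j ∈ range (8 * q), ‖P.co (j + n)‖ ^ 2 = ∑ j ∈ Ico n (8 * q + n), ‖P.co j‖ ^ 2 := by
      have := Finset.sum_Ico_add' (fun j => ‖P.co j‖ ^ 2) 0 (8 * q) n
      rw [zero_add] at this
      rw [← this, Finset.range_eq_Ico]
    rw [e1]
    have e2 : ∑ k ∈ Ioo (4 * q) (8 * q), ‖c k‖ ^ 2 = ∑ k ∈ Ioo (4 * q) (8 * q), ‖P.co k‖ ^ 2 := by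
      refine Finset.sum_congr rfl fun k hk => ?_
      rw [hco, if_pos hk]
    rw [e2]
    refine le_of_eq (Finset.sum_subset ?_ fun j _ hj => ?_).symm
    · intro j hj
      rw [Finset.mem_Ioo] at hj
      rw [Finset.mem_Ico]
      omega
    · rw [hco, if_neg hj]; simp
  gcongr

lemma mu_le (hn : 2 ≤ n) (q : ℕ) (hq : 0 < q) :
    mu q (n - 2) * ((8 * q : ℕ) : ℝ) ^ n ≤ (Real.pi * (n - 2).factorial * 8 ^ (n - 1)) * ((8 * q : ℕ) : ℝ) := by
  rw [mu_eq]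
  have h1 : q.factorial * (q + 1) ^ (n - 1) ≤ (q + (n - 2) + 1).factorial := by
    have := Nat.factorial_mul_pow_le_factorial (m := q) (n := n - 1)
    rwa [show q + (n - 2) + 1 = q + (n - 1) by omega]
  have h2 : q.factorial * q ^ (n - 1) ≤ (q + (n - 2) + 1).factorial :=
    (Nat.mul_le_mul_left _ (Nat.pow_le_pow_left (Nat.le_succ q) _)).trans h1
  have h3 : (q.factorial : ℝ) * (q : ℝ) ^ (n - 1) ≤ ((q + (n - 2) + 1).factorial : ℝ) := by exact_mod_cast h2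
  have hq0 : (0:ℝ) < q := by exact_mod_cast hq
  have h4 : (q.factorial : ℝ) * (n - 2).factorial / (q + (n - 2) + 1).factorial ≤ (n - 2).factorial / (q : ℝ) ^ (n - 1) := by
    rw [div_le_div_iff₀ (by positivity) (by positivity)]
    calc (q.factorial : ℝ) * (n - 2).factorial * (q : ℝ) ^ (n - 1) = (n - 2).factorial * ((q.factorial : ℝ) * (q : ℝ) ^ (n - 1)) := by ring
      _ ≤ (n - 2).factorial * ((q + (n - 2) + 1).factorial : ℝ) := by gcongr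
  have h5 : ((8 * q : ℕ) : ℝ) ^ n = 8 ^ (n - 1) * (q : ℝ) ^ (n - 1) * ((8 * q : ℕ) : ℝ) := by
    rw [← mul_pow]
    push_cast
    rw [← pow_succ]
    congr 1; omega
  calc Real.pi * ((q.factorial : ℝ) * (n - 2).factorial / (q + (n - 2) + 1).factorial) * ((8 * q : ℕ) : ℝ) ^ n
      ≤ Real.pi * ((n - 2).factorial / (q : ℝ) ^ (n - 1)) * ((8 * q : ℕ) : ℝ) ^ n := by gcongr
    _ = _ := by
        rw [h5]
        field_simp

lemma dual_bound (hn : 2 ≤ n) (q : ℕ) (hq : n ≤ 2 * q) (ξ : B1 1 n →L[ℂ] ℂ) (hξ : ‖ξ‖ ≤ 1) :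
    ∑ k ∈ Ioo (4 * q) (8 * q), ‖ξ (mono hn k)‖ ^ 2 ≤
      (Real.pi * (n - 2).factorial * 8 ^ (n - 1)) ^ 2 * ((8 * q : ℕ) : ℝ) ^ 2 := by
  have hq0 : 0 < q := by omega
  set S := ∑ k ∈ Ioo (4 * q) (8 * q), ‖ξ (mono hn k)‖ ^ 2 with hS
  set N : ℝ := ((8 * q : ℕ) : ℝ) with hN
  have hN0 : 0 < N := by rw [hN]; exact_mod_cast (by omega : 0 < 8 * q)
  have hmu := mu_pos q (n - 2)
  set μ := mu q (n - 2) with hμ
  have hS0 : 0 ≤ S := Finset.sum_nonneg fun _ _ => by positivity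
  set c : ℕ → ℂ := fun k => starRingEnd ℂ (ξ (mono hn k)) with hc
  have h1 : ξ (∑ k ∈ Ioo (4 * q) (8 * q), c k • mono hn k) = ((S : ℝ) : ℂ) := by
    rw [map_sum, hS]
    push_cast
    refine Finset.sum_congr rfl fun k _ => ?_
    rw [map_smul, smul_eq_mul, hc, Complex.conj_mul']
  have h2 : S ≤ ‖∑ k ∈ Ioo (4 * q) (8 * q), c k • mono hn k‖ := by
    calc S = ‖ξ (∑ k ∈ Ioo (4 * q) (8 * q), c k • mono hn k)‖ := by
          rw [h1, Complex.norm_real, Real.norm_of_nonneg hS0]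
      _ ≤ ‖ξ‖ * ‖∑ k ∈ Ioo (4 * q) (8 * q), c k • mono hn k‖ := ξ.le_opNorm _
      _ ≤ 1 * ‖∑ k ∈ Ioo (4 * q) (8 * q), c k • mono hn k‖ := by gcongr
      _ = _ := one_mul _
  have ht : 0 < (μ * N ^ (2 * n))⁻¹ := by positivity
  have h3 := norm_poly_le hn q hq c ht
  have h4 : ∑ k ∈ Ioo (4 * q) (8 * q), ‖c k‖ ^ 2 = S := by
    refine Finset.sum_congr rfl fun k _ => ?_
    rw [hc, RCLike.norm_conj]
  rw [h4] at h3
  have h5 := h2.trans h3
  rw [inv_inv] at h5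
  have h6 : ((μ * N ^ (2 * n))⁻¹ * (N ^ (2 * n) * S) + μ * N ^ (2 * n)) / 2 * μ = (S + (μ * N ^ n) ^ 2) / 2 := by
    have : N ^ (2 * n) ≠ 0 := by positivity
    rw [mul_comm 2 n, pow_mul] at *
    field_simp
  rw [h6] at h5
  have h7 : S ≤ (μ * N ^ n) ^ 2 := by linarith
  refine h7.trans ?_
  rw [← mul_pow]
  have := mu_le hn q hq0
  gcongr

end Pool.Agent.Helper630.TwoSumming
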