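import Pool.Agent.Helper630.TwoSumming.Negative

open Finset MeasureTheory Filter Topology

namespace Pool.Agent.Helper630.TwoSumming

variable {n : ℕ}

lemma hardy_int (hn : 2 ≤ n) (x : B1 1 n) :
    IntegrableOn (fun z : ℂ => ev (dco n x.co) z * (((1 - ‖z‖ ^ 2) ^ (n - 1) : ℝ) : ℂ)) (Metric.ball (0:ℂ) 1) := by
  refine Integrable.mono' (x.integrable.const_mul (2 ^ (n - 1))) ?_ ?_
  · refine ContinuousOn.aestronglyMeasurable ?_ Metric.isOpen_ball.measurableSet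
    refine (continuousOn_ev (x.isAn.dco n)).mul ?_
    exact (by fun_prop : Continuous (fun z : ℂ => (((1 - ‖z‖ ^ 2) ^ (n - 1) : ℝ) : ℂ))).continuousOn
  · refine (ae_restrict_iff' Metric.isOpen_ball.measurableSet).2 (ae_of_all _ fun z hz => ?_)
    have hz1 := mem_ball_zero_iff.1 hz
    have hz0 := norm_nonneg z
    have hp : 0 ≤ 1 - ‖z‖ := by linarith
    have hp1 : 1 - ‖z‖ ≤ 1 := by linarith
    have hp2 : 0 ≤ 1 - ‖z‖ ^ 2 := by nlinarith
    rw [integrand_eq 1 n x.isAn hz, rpow_wt hn, norm_mul, Complex.norm_real, Real.norm_of_nonneg (by positivity)]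
    have h1 : (1 - ‖z‖ ^ 2) ^ (n - 1) ≤ 2 ^ (n - 1) * (1 - ‖z‖) ^ (n - 2) := by
      calc (1 - ‖z‖ ^ 2) ^ (n - 1) ≤ (2 * (1 - ‖z‖)) ^ (n - 1) := by
            gcongr; nlinarith
        _ = 2 ^ (n - 1) * (1 - ‖z‖) ^ (n - 1) := mul_pow _ _ _
        _ ≤ 2 ^ (n - 1) * (1 - ‖z‖) ^ (n - 2) := by
            gcongr ?_ * ?_
            exact pow_le_pow_of_le_one hp hp1 (by omega)
    calc ‖ev (dco n x.co) z‖ * (1 - ‖z‖ ^ 2) ^ (n - 1) ≤ ‖ev (dco n x.co) z‖ * (2 ^ (n - 1) * (1 - ‖z‖) ^ (n - 2)) := by gcongr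
      _ = _ := by ring

lemma hardy_coef (hn : 2 ≤ n) (x : B1 1 n) (k : ℕ) :
    ‖x.co (k + n)‖ ≤ ∫ z in Metric.ball (0:ℂ) 1, ‖z‖ ^ k * ‖ev (dco n x.co) z * (((1 - ‖z‖ ^ 2) ^ (n - 1) : ℝ) : ℂ)‖ := by
  have hint := hardy_int hn x
  have h := disc_orth (x.isAn.dco n) k (fun r => (1 - r ^ 2) ^ (n - 1)) (by fun_prop) hint
  rw [radial_beta] at h
  unfold dco at h
  have h2 : (k + n).factorial = k.factorial * (k + n).descFactorial n := by
    have := Nat.factorial_mul_descFactorial (n := k + n) (k := n) (by omega)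
    rw [Nat.add_sub_cancel] at this
    exact this.symm
  have h3 : k + (n - 1) + 1 = k + n := by omega
  rw [h3, h2] at h
  have h4 : (k.factorial : ℂ) ≠ 0 := by exact_mod_cast Nat.factorial_ne_zero _
  have h5 : ((k + n).descFactorial n : ℂ) ≠ 0 := by
    have : (k + n).descFactorial n ≠ 0 := by rw [Ne, Nat.descFactorial_eq_zero_iff_lt]; omega
    exact_mod_cast this
  have h6 : 2 * (Real.pi : ℂ) * (((k + n).descFactorial n : ℂ) * x.co (k + n)) *
      (((k.factorial : ℝ) * (n - 1).factorial / (2 * (k.factorial * (k + n).descFactorial n : ℕ)) : ℝ) : ℂ) =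
      ((Real.pi * (n - 1).factorial : ℝ) : ℂ) * x.co (k + n) := by
    push_cast
    field_simp
  rw [h6] at h
  have h7 : (1:ℝ) ≤ Real.pi * (n - 1).factorial := by
    have h8 : (1:ℝ) ≤ (n - 1).factorial := by exact_mod_cast Nat.one_le_iff_ne_zero.2 (Nat.factorial_ne_zero _)
    nlinarith [Real.pi_gt_three]
  calc ‖x.co (k + n)‖ ≤ (Real.pi * (n - 1).factorial) * ‖x.co (k + n)‖ := le_mul_of_one_le_left (norm_nonneg _) h7
    _ = ‖((Real.pi * (n - 1).factorial : ℝ) : ℂ) * x.co (k + n)‖ := by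
        rw [norm_mul, Complex.norm_real, Real.norm_of_nonneg (by positivity)]
    _ ≤ ∫ z in Metric.ball (0:ℂ) 1, ‖(starRingEnd ℂ z) ^ k * ev (fun k => ((k + n).descFactorial n : ℂ) * x.co (k + n)) z *
          (((1 - ‖z‖ ^ 2) ^ (n - 1) : ℝ) : ℂ)‖ := by
        rw [← h]
        exact norm_integral_le_integral_norm _
    _ = _ := by
        refine setIntegral_congr_fun Metric.isOpen_ball.measurableSet fun z _ => ?_
        rw [mul_assoc, norm_mul, norm_pow, RCLike.norm_conj]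
        rfl

lemma hardy_finite (hn : 2 ≤ n) (x : B1 1 n) (K : ℕ) :
    ∑ k ∈ range K, ‖x.co (k + n)‖ ≤ 2 ^ (n - 1) * ‖x‖ := by
  have hint := hardy_int hn x
  have hik : ∀ k : ℕ, IntegrableOn (fun z : ℂ => ‖z‖ ^ k * ‖ev (dco n x.co) z * (((1 - ‖z‖ ^ 2) ^ (n - 1) : ℝ) : ℂ)‖)
      (Metric.ball (0:ℂ) 1) := by
    intro k
    refine Integrable.mono' hint.norm ?_ ?_
    · exact ((by fun_prop : Continuous (fun z : ℂ => ‖z‖ ^ k)).aestronglyMeasurable).mul hint.norm.aestronglyMeasurable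
    · refine (ae_restrict_iff' Metric.isOpen_ball.measurableSet).2 (ae_of_all _ fun z hz => ?_)
      have hz1 := mem_ball_zero_iff.1 hz
      rw [norm_mul, norm_norm, Real.norm_of_nonneg (by positivity)]
      exact mul_le_of_le_one_left (norm_nonneg _) (pow_le_one₀ (norm_nonneg _) hz1.le)
  calc ∑ k ∈ range K, ‖x.co (k + n)‖ ≤ ∑ k ∈ range K, ∫ z in Metric.ball (0:ℂ) 1,
        ‖z‖ ^ k * ‖ev (dco n x.co) z * (((1 - ‖z‖ ^ 2) ^ (n - 1) : ℝ) : ℂ)‖ :=
        Finset.sum_le_sum fun k _ => hardy_coef hn x k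
    _ = ∫ z in Metric.ball (0:ℂ) 1, ∑ k ∈ range K,
        ‖z‖ ^ k * ‖ev (dco n x.co) z * (((1 - ‖z‖ ^ 2) ^ (n - 1) : ℝ) : ℂ)‖ :=
        (integral_finsetSum _ fun k _ => hik k).symm
    _ ≤ ∫ z in Metric.ball (0:ℂ) 1, 2 ^ (n - 1) * integrand 1 n x.co z := by
        refine setIntegral_mono_on (integrable_finsetSum _ fun k _ => hik k) (x.integrable.const_mul _)
          Metric.isOpen_ball.measurableSet fun z hz => ?_
        have hz1 := mem_ball_zero_iff.1 hz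
        have hz0 := norm_nonneg z
        have hp : 0 < 1 - ‖z‖ := by linarith
        have hp2 : 0 ≤ 1 - ‖z‖ ^ 2 := by nlinarith
        rw [← Finset.sum_mul, integrand_eq 1 n x.isAn hz, rpow_wt hn, norm_mul, Complex.norm_real,
          Real.norm_of_nonneg (by positivity)]
        have h1 : ∑ k ∈ range K, ‖z‖ ^ k ≤ (1 - ‖z‖)⁻¹ := by
          rw [← tsum_geometric_of_lt_one hz0 hz1]
          exact (summable_geometric_of_lt_one hz0 hz1).sum_le_tsum _ fun _ _ => by positivity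
        have h2 : (1 - ‖z‖ ^ 2) ^ (n - 1) ≤ 2 ^ (n - 1) * ((1 - ‖z‖) ^ (n - 2) * (1 - ‖z‖)) := by
          rw [← pow_succ, show n - 2 + 1 = n - 1 by omega, ← mul_pow]
          gcongr
          nlinarith
        calc (∑ k ∈ range K, ‖z‖ ^ k) * (‖ev (dco n x.co) z‖ * (1 - ‖z‖ ^ 2) ^ (n - 1))
            ≤ (1 - ‖z‖)⁻¹ * (‖ev (dco n x.co) z‖ * (2 ^ (n - 1) * ((1 - ‖z‖) ^ (n - 2) * (1 - ‖z‖)))) := by gcongr
          _ = _ := by field_simp
    _ = 2 ^ (n - 1) * ∫ z in Metric.ball (0:ℂ) 1, integrand 1 n x.co z := integral_const_mul _ _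
    _ ≤ 2 ^ (n - 1) * ‖x‖ := by
        gcongr
        rw [B1.norm_def]
        exact le_add_of_nonneg_right (Finset.sum_nonneg fun _ _ => by positivity)

lemma hardy (hn : 2 ≤ n) (x : B1 1 n) : Summable (fun k => ‖x.co k‖) ∧ ∑' k, ‖x.co k‖ ≤ (1 + 2 ^ (n - 1)) * ‖x‖ := by
  have hs : Summable (fun k => ‖x.co (k + n)‖) :=
    summable_of_sum_range_le (fun _ => norm_nonneg _) (hardy_finite hn x)
  have hs2 : Summable (fun k => ‖x.co k‖) := (summable_nat_add_iff n).1 hs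
  refine ⟨hs2, ?_⟩
  rw [← hs2.sum_add_tsum_nat_add n, add_mul, one_mul]
  refine add_le_add ?_ (hs.tsum_le_of_sum_range_le (hardy_finite hn x))
  rw [B1.norm_def]
  refine le_trans ?_ (le_add_of_nonneg_left x.integral_nonneg')
  refine Finset.sum_le_sum fun j _ => ?_
  have : (1:ℝ) ≤ j.factorial := by exact_mod_cast Nat.one_le_iff_ne_zero.2 (Nat.factorial_ne_zero _)
  exact le_mul_of_one_le_left (norm_nonneg _) this

lemma lac_tail {p q : ℕ} (hpq : p ≤ q) {z : ℂ} (hz : ‖z‖ < 1) :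
    ‖ev (tail phi0.co p q) z‖ ≤ 4 * (1 - ‖z‖) ^ (-(1:ℝ)) := by
  set t := Real.sqrt ‖z‖ with ht
  have ht0 : 0 ≤ t := Real.sqrt_nonneg _
  have htt : t * t = ‖z‖ := Real.mul_self_sqrt (norm_nonneg z)
  have ht1 : t < 1 := by
    rw [ht, Real.sqrt_lt' one_pos]; simpa using hz
  obtain ⟨h1, h2⟩ := lac_growth ht0 ht1
  have h3 : Summable (fun l => lac (l + p) * t ^ (l + p)) := (summable_nat_add_iff p).2 h1
  have h4 : ∑' l, lac (l + p) * t ^ (l + p) ≤ ∑' l, lac l * t ^ l := by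
    rw [← h1.sum_add_tsum_nat_add p]
    exact le_add_of_nonneg_left (Finset.sum_nonneg fun l _ => mul_nonneg (lac_nonneg l) (by positivity))
  have h5 : ‖ev (tail phi0.co p q) z‖ ≤ ∑' l, lac (l + p) * t ^ (l + p) := by
    refine tsum_of_norm_bounded h3.hasSum fun l => ?_
    unfold tail
    rw [phi0_co]
    split_ifs with hl
    · rw [one_mul, norm_mul, norm_pow, Complex.norm_real, Real.norm_of_nonneg (lac_nonneg _)]
      refine mul_le_mul_of_nonneg_left ?_ (lac_nonneg _)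
      rw [← htt, ← sq, ← pow_mul]
      exact pow_le_pow_of_le_one ht0 ht1.le (by omega)
    · rw [zero_mul, zero_mul, norm_zero]
      exact mul_nonneg (lac_nonneg _) (by positivity)
  refine h5.trans (h4.trans (h2.trans ?_))
  rw [Real.rpow_neg_one]
  have hδ : 0 < 1 - ‖z‖ := by linarith
  have hδt : 0 < 1 - t := by linarith
  rw [← div_eq_mul_inv, ← div_eq_mul_inv, div_le_div_iff₀ hδt hδ]
  nlinarith

lemma lac_Th (n m : ℕ) {z : ℂ} (hz : ‖z‖ < 1) :
    ‖ev (Th phi0.co n m) z‖ ≤ (2 ^ n * 2 ^ (1:ℝ) * 4) * (1 - ‖z‖) ^ (-(1:ℝ)) := by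
  refine shift_bound (a := tail phi0.co m (max (m + 1) n)) (phi0.isAn.tail m _) n (fun l hl => ?_) one_pos
    (fun w hw => lac_tail (by have := le_max_left (m + 1) n; omega) hw) hz
  unfold tail
  rw [if_neg, zero_mul]
  have := le_max_right (m + 1) n
  omega

lemma lac_xi (hn : 2 ≤ n) : ∃ K : ℝ, 0 ≤ K ∧ ∀ (m : ℕ) (x : B1 1 n), ‖xi phi0.co m x‖ ≤ K * ‖x‖ := by
  refine ⟨2 * n * (1 + 2 ^ (n - 1)) + (2 ^ n * 2 ^ (1:ℝ) * 4) * 2 ^ (n - 1), by positivity, fun m x => ?_⟩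
  obtain ⟨hs, hh⟩ := hardy hn x
  have h1 : ‖∑ k ∈ Ico (m + 1) n, phi0.co (m + k) * x.co k‖ ≤ 2 * n * ((1 + 2 ^ (n - 1)) * ‖x‖) := by
    calc ‖∑ k ∈ Ico (m + 1) n, phi0.co (m + k) * x.co k‖ ≤ ∑ k ∈ Ico (m + 1) n, 2 * n * ‖x.co k‖ := by
          refine (norm_sum_le _ _).trans (Finset.sum_le_sum fun k hk => ?_)
          rw [Finset.mem_Ico] at hk
          rw [norm_mul]
          gcongr
          rw [phi0_co, Complex.norm_real, Real.norm_of_nonneg (lac_nonneg _)]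
          refine (lac_le _).trans ?_
          have : m + k ≤ 2 * n := by omega
          exact_mod_cast this
      _ = 2 * n * ∑ k ∈ Ico (m + 1) n, ‖x.co k‖ := by rw [Finset.mul_sum]
      _ ≤ 2 * n * ((1 + 2 ^ (n - 1)) * ‖x‖) := by
          gcongr
          exact (hs.sum_le_tsum _ fun _ _ => norm_nonneg _).trans hh
  have h2 := AF_bound (α := 1) (n := n) (by omega) (Θ := Th phi0.co n m) one_pos (fun z hz => lac_Th n m hz) x
  have h7 : (1:ℝ) ≤ Real.pi * (n - 1).factorial := by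
    have h8 : (1:ℝ) ≤ (n - 1).factorial := by exact_mod_cast Nat.one_le_iff_ne_zero.2 (Nat.factorial_ne_zero _)
    nlinarith [Real.pi_gt_three]
  have h3 : ‖(Real.pi * (n - 1).factorial : ℂ)⁻¹ * AF (Th phi0.co n m) x‖ ≤ ‖AF (Th phi0.co n m) x‖ := by
    rw [norm_mul]
    refine mul_le_of_le_one_left (norm_nonneg _) ?_
    rw [norm_inv, norm_mul, Complex.norm_natCast, Complex.norm_real, Real.norm_of_nonneg Real.pi_pos.le]
    exact inv_le_one_of_one_le₀ h7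
  unfold xi
  refine (norm_add_le _ _).trans ((add_le_add h1 (h3.trans h2)).trans (le_of_eq ?_))
  ring

theorem phi0_bounded (hn : 2 ≤ n) : ∃ u : B1 1 n →L[ℂ] Binf 1, IsHankel phi0 u := by
  have hn1 : (1:ℝ) < n := by exact_mod_cast (by omega : 1 < n)
  have hM := phi0.ev_le
  obtain ⟨K, hK0, hK⟩ := lac_xi hn
  have hcob : ∀ (x : B1 1 n) (k : ℕ), ‖x.co k‖ ≤ (1 + 2 ^ (n - 1)) * ‖x‖ := by
    intro x k
    obtain ⟨hs, hh⟩ := hardy hn x
    exact (hs.le_tsum k fun _ _ => norm_nonneg _).trans hh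
  have hxiAn : ∀ x : B1 1 n, IsAn (fun m => xi phi0.co m x) := by
    intro x
    refine IsAn.of_poly (K * ‖x‖) 0 fun k => ?_
    simpa using hK k x
  have hlowAn : ∀ x : B1 1 n, IsAn (low phi0.co x.co) := fun x => low_isAn one_pos hn1 phi0.isAn hM (hcob x)
  have hz' : ∀ (x : B1 1 n) (z : ℂ), ‖z‖ < 1 → ‖ev (uco phi0.co x) z‖ ≤
      ((4 * (1 + 2 ^ (n - 1)) + K) * ‖x‖) * (1 - ‖z‖) ^ (-(1:ℝ)) := by
    intro x z hz
    obtain ⟨hs, hh⟩ := hardy hn x
    rw [uco_eq, ev_add (hlowAn x) (hxiAn x) hz]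
    have hδ : 0 < 1 - ‖z‖ := by linarith
    have h1 : ‖ev (low phi0.co x.co) z‖ ≤ 4 * (1 - ‖z‖) ^ (-(1:ℝ)) * ((1 + 2 ^ (n - 1)) * ‖x‖) := by
      rw [low_ev one_pos hn1 phi0.isAn hM (hcob x) hz]
      have h2 : ‖∑' k, x.co k * ev (tail phi0.co k k) z‖ ≤ 4 * (1 - ‖z‖) ^ (-(1:ℝ)) * ∑' k, ‖x.co k‖ := by
        rw [← tsum_mul_left]
        refine tsum_of_norm_bounded (hs.mul_left (4 * (1 - ‖z‖) ^ (-(1:ℝ)))).hasSum fun k => ?_
        rw [norm_mul, mul_comm]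
        gcongr
        exact lac_tail le_rfl hz
      refine h2.trans ?_
      gcongr
    have h3 : ‖ev (fun m => xi phi0.co m x) z‖ ≤ (K * ‖x‖) * (1 - ‖z‖) ^ (-(1:ℝ)) := by
      rw [Real.rpow_neg_one, ← tsum_geometric_of_lt_one (norm_nonneg z) hz, ← tsum_mul_left]
      refine tsum_of_norm_bounded ((summable_geometric_of_lt_one (norm_nonneg z) hz).mul_left (K * ‖x‖)).hasSum fun k => ?_
      rw [norm_mul, norm_pow]
      gcongr
      exact hK k x
    refine (norm_add_le _ _).trans ((add_le_add h1 h3).trans (le_of_eq ?_))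
    ring
  have hmem : ∀ x : B1 1 n, uco phi0.co x ∈ Binfsub 1 := by
    intro x
    refine ⟨?_, (4 * (1 + 2 ^ (n - 1)) + K) * ‖x‖, fun z hz => hz' x z hz⟩
    rw [uco_eq]; exact (hlowAn x).add (hxiAn x)
  set U : B1 1 n →ₗ[ℂ] Binf 1 :=
    { toFun := fun x => (⟨uco phi0.co x, hmem x⟩ : Binfsub 1)
      map_add' := by
        intro x y
        apply Binf.ext_co
        funext m
        change uco phi0.co (x + y) m = uco phi0.co x m + uco phi0.co y m
        unfold uco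
        rw [xi_add le_rfl hn1 phi0.isAn hM]
        have : ∀ k, (x + y).co k = x.co k + y.co k := fun k => rfl
        simp_rw [this, mul_add, Finset.sum_add_distrib]
        ring
      map_smul' := by
        intro c x
        apply Binf.ext_co
        funext m
        change uco phi0.co (c • x) m = c * uco phi0.co x m
        unfold uco
        rw [xi_smul, mul_add, Finset.mul_sum]
        congr 1
        refine Finset.sum_congr rfl fun k _ => ?_
        rw [B1.co_smul, Pi.smul_apply, smul_eq_mul]; ring } with hU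
  have hUco : ∀ x, (U x).co = uco phi0.co x := fun x => rfl
  have hbound : ∀ x, ‖U x‖ ≤ (4 * (1 + 2 ^ (n - 1)) + K) * ‖x‖ := by
    intro x
    refine Binf.norm_le _ _ fun z hz => ?_
    rw [hUco]
    have h := hz' x z hz
    have hδ : 0 < 1 - ‖z‖ := by linarith
    calc (1 - ‖z‖) ^ (1:ℝ) * ‖ev (uco phi0.co x) z‖ ≤ (1 - ‖z‖) ^ (1:ℝ) * (((4 * (1 + 2 ^ (n - 1)) + K) * ‖x‖) * (1 - ‖z‖) ^ (-(1:ℝ))) := by
          gcongr
      _ = (4 * (1 + 2 ^ (n - 1)) + K) * ‖x‖ := by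
          rw [Real.rpow_neg_one, Real.rpow_one]; field_simp
  exact ⟨LinearMap.mkContinuous U _ hbound, fun x m => uco_hankel le_rfl hn1 phi0.isAn hM x m⟩

lemma hankel_unique {α : ℝ} {n : ℕ} (φ : Binf α) (u v : B1 α n →L[ℂ] Binf α) (hu : IsHankel φ u) (hv : IsHankel φ v) :
    u = v := by
  ext x
  apply Binf.ext_co
  funext m
  exact tendsto_nhds_unique (hu x m) (hv x m)

theorem main (α : ℝ) (n : ℕ) (hα : 1 ≤ α) (hn : α < n) :
    (∀ (φ : Binf α) (u v : B1 α n →L[ℂ] Binf α), IsHankel φ u → IsHankel φ v → u = v) ∧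
    (1 < α → ∀ φ : Binf α, ∃ u : B1 α n →L[ℂ] Binf α, IsHankel φ u ∧ IsTwoSumming u) ∧
    (α = 1 → ∃ (φ : Binf α) (u : B1 α n →L[ℂ] Binf α), IsHankel φ u ∧ ¬ IsTwoSumming u) := by
  refine ⟨hankel_unique, fun h φ => positive h hn φ, ?_⟩
  rintro rfl
  have hn2 : 2 ≤ n := by
    have : 1 < n := by exact_mod_cast hn
    omega
  obtain ⟨u, hu⟩ := phi0_bounded hn2
  exact ⟨phi0, u, hu, fun h => negative hn2 ⟨u, hu, h⟩⟩

end Pool.Agent.Helper630.TwoSumming
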