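import Pool.Agent.Helper630.TwoSumming.CoefBinf

open Finset MeasureTheory Filter Topology

namespace Pool.Agent.Helper630.TwoSumming

lemma norm_one_sub_sq (R t : ℝ) : ‖1 - (R : ℂ) * Complex.exp (t * Complex.I)‖ ^ 2 = 1 - 2 * R * Real.cos t + R ^ 2 := by
  rw [Complex.exp_mul_I, ← Complex.normSq_eq_norm_sq, Complex.normSq_apply]
  have h1 : (1 - (R : ℂ) * (Complex.cos t + Complex.sin t * Complex.I)).re = 1 - R * Real.cos t := by
    simp [Complex.cos_ofReal_re, Complex.sin_ofReal_im]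
  have h2 : (1 - (R : ℂ) * (Complex.cos t + Complex.sin t * Complex.I)).im = - (R * Real.sin t) := by
    simp [Complex.cos_ofReal_im, Complex.sin_ofReal_re]
  rw [h1, h2]
  nlinarith [Real.sin_sq_add_cos_sq t]

lemma norm_one_sub_ge (R t : ℝ) (hR0 : 0 ≤ R) (ht0 : 0 ≤ t) (ht : t ≤ Real.pi) :
    t / Real.pi ≤ ‖1 - (R : ℂ) * Complex.exp (t * Complex.I)‖ := by
  have hpi := Real.pi_pos
  rw [← Real.sqrt_sq (norm_nonneg (1 - (R : ℂ) * Complex.exp (t * Complex.I))), norm_one_sub_sq]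
  apply Real.le_sqrt_of_sq_le
  have ht1 : t / Real.pi ≤ 1 := by rw [div_le_one hpi]; exact ht
  have ht2 : 0 ≤ t / Real.pi := by positivity
  rcases le_total t (Real.pi / 2) with h | h
  · have h1 := Real.mul_le_sin ht0 h
    have h2 : t / Real.pi ≤ Real.sin t := by
      have : t / Real.pi ≤ 2 / Real.pi * t := by
        rw [div_mul_eq_mul_div]; gcongr; linarith
      linarith
    have h3 : (t / Real.pi) ^ 2 ≤ Real.sin t ^ 2 := by gcongr
    nlinarith [Real.sin_sq_add_cos_sq t, sq_nonneg (R - Real.cos t)]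
  · have h1 : Real.cos t ≤ 0 := Real.cos_nonpos_of_pi_div_two_le_of_le h (by linarith)
    have h2 : (t / Real.pi) ^ 2 ≤ 1 := pow_le_one₀ ht2 ht1
    nlinarith [mul_nonneg hR0 (neg_nonneg.2 h1), sq_nonneg R]

lemma one_sub_le_norm (R t : ℝ) (hR0 : 0 ≤ R) : 1 - R ≤ ‖1 - (R : ℂ) * Complex.exp (t * Complex.I)‖ := by
  have := norm_sub_norm_le (1 : ℂ) ((R : ℂ) * Complex.exp (t * Complex.I))
  rw [norm_one, norm_mul, Complex.norm_real, Complex.norm_exp_ofReal_mul_I, mul_one, Real.norm_of_nonneg hR0] at this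
  exact this

lemma cont_kernel (R : ℝ) (hR0 : 0 ≤ R) (hR1 : R < 1) :
    Continuous (fun t : ℝ => ‖1 - (R : ℂ) * Complex.exp (t * Complex.I)‖⁻¹) := by
  refine Continuous.inv₀ (by fun_prop) fun t => ?_
  have := one_sub_le_norm R t hR0
  have : 0 < ‖1 - (R : ℂ) * Complex.exp (t * Complex.I)‖ := by linarith
  exact this.ne'

lemma kernel_half (R ε : ℝ) (hR0 : 0 ≤ R) (hR1 : R < 1) (hε0 : 0 < ε) (hε1 : ε ≤ 1) :
    ∫ t in (0:ℝ)..Real.pi, ‖1 - (R : ℂ) * Complex.exp (t * Complex.I)‖⁻¹ ≤ Real.pi * ((1 - R) ^ (-ε) / ε) := by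
  have hpi := Real.pi_pos
  have hint : IntervalIntegrable (fun t : ℝ => (t / Real.pi) ^ (ε - 1)) volume 0 Real.pi := by
    have h := intervalIntegral.intervalIntegrable_rpow' (a := 0) (b := 1) (r := ε - 1) (by linarith)
    have h2 := IntervalIntegrable.comp_mul_right (c := Real.pi⁻¹) h
    simpa [div_eq_mul_inv] using h2
  have h1 : ∫ t in (0:ℝ)..Real.pi, ‖1 - (R : ℂ) * Complex.exp (t * Complex.I)‖⁻¹ ≤
      ∫ t in (0:ℝ)..Real.pi, (1 - R) ^ (-ε) * (t / Real.pi) ^ (ε - 1) := by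
    refine intervalIntegral.integral_mono_on_of_le_Ioo hpi.le ((cont_kernel R hR0 hR1).intervalIntegrable _ _)
      (hint.const_mul _) fun t ht => ?_
    have ha := one_sub_le_norm R t hR0
    have hb := norm_one_sub_ge R t hR0 ht.1.le ht.2.le
    set N := ‖1 - (R : ℂ) * Complex.exp (t * Complex.I)‖ with hN
    have h1R : 0 < 1 - R := by linarith
    have hNpos : 0 < N := by linarith
    have ht1 : 0 < t / Real.pi := div_pos ht.1 hpi
    have hsplit : N⁻¹ = N ^ (-ε) * N ^ (ε - 1) := by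
      rw [← Real.rpow_add hNpos, show -ε + (ε - 1) = -1 by ring, Real.rpow_neg_one]
    rw [hsplit]
    gcongr ?_ * ?_
    · exact Real.rpow_le_rpow_of_nonpos h1R ha (by linarith)
    · exact Real.rpow_le_rpow_of_nonpos ht1 hb (by linarith)
  refine h1.trans (le_of_eq ?_)
  rw [intervalIntegral.integral_const_mul, intervalIntegral.integral_comp_div (fun s => s ^ (ε - 1)) hpi.ne',
    zero_div, div_self hpi.ne', integral_rpow (Or.inl (by linarith)), smul_eq_mul]
  simp only [sub_add_cancel, Real.one_rpow]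
  rw [Real.zero_rpow hε0.ne']
  ring

lemma kernel_full (R ε : ℝ) (hR0 : 0 ≤ R) (hR1 : R < 1) (hε0 : 0 < ε) (hε1 : ε ≤ 1) (θ : ℝ) :
    ∫ t in (-Real.pi)..Real.pi, ‖1 - (R : ℂ) * Complex.exp (((θ - t : ℝ) : ℂ) * Complex.I)‖⁻¹ ≤
      2 * Real.pi * ((1 - R) ^ (-ε) / ε) := by
  have hpi := Real.pi_pos
  set g : ℝ → ℝ := fun t => ‖1 - (R : ℂ) * Complex.exp (t * Complex.I)‖⁻¹ with hg
  have hper : Function.Periodic g (2 * Real.pi) := by
    intro t
    simp only [hg]
    congr 4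
    push_cast
    rw [add_mul, Complex.exp_add, Complex.exp_two_pi_mul_I, mul_one]
  have hcont := cont_kernel R hR0 hR1
  have e1 : ∫ t in (-Real.pi)..Real.pi, ‖1 - (R : ℂ) * Complex.exp (((θ - t : ℝ) : ℂ) * Complex.I)‖⁻¹ =
      ∫ t in (-Real.pi)..Real.pi, g t := by
    change ∫ t in (-Real.pi)..Real.pi, g (θ - t) = _
    rw [intervalIntegral.integral_comp_sub_left g θ]
    have := hper.intervalIntegral_add_eq (θ - Real.pi) (-Real.pi)
    rw [show θ - Real.pi + 2 * Real.pi = θ - -Real.pi by ring, show -Real.pi + 2 * Real.pi = Real.pi by ring] at this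
    exact this
  rw [e1]
  have e2 : ∫ t in (-Real.pi)..Real.pi, g t = (∫ t in (-Real.pi)..0, g t) + ∫ t in (0:ℝ)..Real.pi, g t :=
    (intervalIntegral.integral_add_adjacent_intervals (hcont.intervalIntegrable _ _) (hcont.intervalIntegrable _ _)).symm
  have e3 : ∫ t in (-Real.pi)..0, g t = ∫ t in (0:ℝ)..Real.pi, g t := by
    have h := intervalIntegral.integral_comp_neg (a := 0) (b := Real.pi) g
    rw [neg_zero] at h
    rw [← h]
    congr 1
    funext t
    simp only [hg]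
    congr 1
    rw [← Complex.norm_conj]
    congr 1
    simp only [map_sub, map_one, map_mul, Complex.conj_ofReal, ← Complex.exp_conj, Complex.conj_I]
    congr 3
    push_cast
    ring
  rw [e2, e3]
  have := kernel_half R ε hR0 hR1 hε0 hε1
  linarith

end Pool.Agent.Helper630.TwoSumming
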