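import Pool.Agent.Helper630.TwoSumming.Dual

open Finset MeasureTheory Filter Topology

namespace Pool.Agent.Helper630.TwoSumming

/-- lacunary coefficients -/
def lac (l : ℕ) : ℝ := if 2 ^ Nat.log 2 l = l then (l : ℝ) else 0

lemma lac_nonneg (l : ℕ) : 0 ≤ lac l := by unfold lac; split_ifs <;> positivity

lemma lac_pow (i : ℕ) : lac (2 ^ i) = 2 ^ i := by
  unfold lac
  rw [Nat.log_pow (by norm_num), if_pos rfl]
  push_cast; rfl

lemma lac_le (l : ℕ) : lac l ≤ l := by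
  unfold lac; split_ifs
  · exact le_rfl
  · positivity

lemma lac_ne {l : ℕ} (h : lac l ≠ 0) : ∃ i, l = 2 ^ i := by
  unfold lac at h
  by_cases hl : 2 ^ Nat.log 2 l = l
  · exact ⟨_, hl.symm⟩
  · rw [if_neg hl] at h; exact absurd rfl h

lemma lac_sum_pow (i : ℕ) : ∑ j ∈ range (2 ^ i), lac j ≤ 2 ^ i := by
  induction i with
  | zero => simp [lac]
  | succ i ih =>
    have h1 : ∑ j ∈ range (2 ^ (i + 1)), lac j = ∑ j ∈ range (2 ^ i), lac j + ∑ j ∈ Ico (2 ^ i) (2 ^ (i + 1)), lac j := by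
      rw [Finset.sum_range_add_sum_Ico]
      exact Nat.pow_le_pow_right (by norm_num) (Nat.le_succ i)
    have h2 : ∑ j ∈ Ico (2 ^ i) (2 ^ (i + 1)), lac j = 2 ^ i := by
      rw [Finset.sum_eq_single (2 ^ i), lac_pow]
      · intro j hj hne
        rw [Finset.mem_Ico] at hj
        unfold lac
        rw [if_neg]
        intro h
        have : Nat.log 2 j = i := (Nat.log_eq_iff (Or.inr ⟨by norm_num, by
          have := Nat.one_le_two_pow (n := i); omega⟩)).2 hj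
        rw [this] at h
        exact hne h.symm
      · intro h
        exfalso
        apply h
        rw [Finset.mem_Ico]
        exact ⟨le_rfl, Nat.pow_lt_pow_right (by norm_num) (Nat.lt_succ_self i)⟩
    rw [h1, h2, pow_succ]
    linarith

lemma lac_sum (K : ℕ) : ∑ j ∈ range K, lac j ≤ 2 * K := by
  rcases Nat.eq_zero_or_pos K with rfl | hK
  · simp
  have h1 : K < 2 ^ (Nat.log 2 K + 1) := Nat.lt_pow_succ_log_self (by norm_num) K
  have h2 : 2 ^ Nat.log 2 K ≤ K := Nat.pow_log_le_self 2 hK.ne'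
  calc ∑ j ∈ range K, lac j ≤ ∑ j ∈ range (2 ^ (Nat.log 2 K + 1)), lac j :=
        Finset.sum_le_sum_of_subset_of_nonneg (Finset.range_mono h1.le) fun _ _ _ => lac_nonneg _
    _ ≤ 2 ^ (Nat.log 2 K + 1) := lac_sum_pow _
    _ = 2 * ((2 ^ Nat.log 2 K : ℕ) : ℝ) := by push_cast; ring
    _ ≤ 2 * K := by gcongr

lemma abel_ident (a : ℕ → ℝ) (r : ℝ) (K : ℕ) : ∑ l ∈ range K, a l * r ^ l =
    (∑ j ∈ range K, a j) * r ^ K + (1 - r) * ∑ l ∈ range K, (∑ j ∈ range (l + 1), a j) * r ^ l := by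
  induction K with
  | zero => simp
  | succ K ih =>
    rw [Finset.sum_range_succ, ih, Finset.sum_range_succ (fun l => (∑ j ∈ range (l + 1), a j) * r ^ l),
      Finset.sum_range_succ a K]
    ring

lemma lac_growth {r : ℝ} (hr0 : 0 ≤ r) (hr1 : r < 1) : Summable (fun l => lac l * r ^ l) ∧
    ∑' l, lac l * r ^ l ≤ 2 * (1 - r)⁻¹ := by
  have hb : ∀ K, ∑ l ∈ range K, lac l * r ^ l ≤ 2 * (1 - r)⁻¹ := by
    intro K
    have h1 := abel_ident lac r K
    have h2 := abel_ident (fun _ => (1:ℝ)) r K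
    have h3 : ∑ l ∈ range K, (1:ℝ) * r ^ l ≤ (1 - r)⁻¹ := by
      simp_rw [one_mul]
      rw [← tsum_geometric_of_lt_one hr0 hr1]
      exact (summable_geometric_of_lt_one hr0 hr1).sum_le_tsum _ fun _ _ => by positivity
    have h4 : (∑ j ∈ range K, lac j) * r ^ K ≤ 2 * ((∑ j ∈ range K, (1:ℝ)) * r ^ K) := by
      rw [← mul_assoc]
      gcongr
      simpa using lac_sum K
    have h5 : ∑ l ∈ range K, (∑ j ∈ range (l + 1), lac j) * r ^ l ≤
        2 * ∑ l ∈ range K, (∑ j ∈ range (l + 1), (1:ℝ)) * r ^ l := by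
      rw [Finset.mul_sum]
      refine Finset.sum_le_sum fun l _ => ?_
      rw [← mul_assoc]
      gcongr
      simpa using lac_sum (l + 1)
    have h6 : 0 ≤ 1 - r := by linarith
    calc ∑ l ∈ range K, lac l * r ^ l ≤ 2 * ((∑ j ∈ range K, (1:ℝ)) * r ^ K) + (1 - r) *
          (2 * ∑ l ∈ range K, (∑ j ∈ range (l + 1), (1:ℝ)) * r ^ l) := by
            rw [h1]; gcongr
      _ = 2 * ∑ l ∈ range K, (1:ℝ) * r ^ l := by rw [h2]; ring
      _ ≤ 2 * (1 - r)⁻¹ := by gcongr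
  have hs : Summable (fun l => lac l * r ^ l) :=
    summable_of_sum_range_le (fun l => mul_nonneg (lac_nonneg l) (by positivity)) hb
  exact ⟨hs, hs.tsum_le_of_sum_range_le hb⟩

/-- the lacunary symbol -/
noncomputable def phi0 : Binf 1 := (⟨fun l => ((lac l : ℝ) : ℂ), by
  have hn : ∀ (r : ℝ) (l : ℕ), ‖((lac l : ℝ) : ℂ)‖ * r ^ l = lac l * r ^ l := by
    intro r l
    rw [Complex.norm_real, Real.norm_of_nonneg (lac_nonneg l)]
  refine ⟨fun r hr0 hr1 => ?_, 2, fun z hz => ?_⟩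
  · simp_rw [hn]
    exact (lac_growth hr0 hr1).1
  · obtain ⟨h1, h2⟩ := lac_growth (norm_nonneg z) hz
    rw [Real.rpow_neg_one]
    refine le_trans ?_ h2
    refine tsum_of_norm_bounded h1.hasSum fun l => ?_
    rw [norm_mul, norm_pow, hn]⟩ : Binfsub 1)

lemma phi0_co (l : ℕ) : phi0.co l = ((lac l : ℝ) : ℂ) := rfl

lemma parseval {q : ℕ} (hq : 0 < q) (a : ℕ → ℂ) :
    ∑ t ∈ range q, ‖∑ j ∈ Ico q (2 * q), (Complex.exp (2 * Real.pi * Complex.I / q))⁻¹ ^ (j * t) * a j‖ ^ 2 =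
      q * ∑ j ∈ Ico q (2 * q), ‖a j‖ ^ 2 := by
  set ω := Complex.exp (2 * Real.pi * Complex.I / q) with hω
  have hprim : IsPrimitiveRoot ω q := Complex.isPrimitiveRoot_exp q hq.ne'
  have hω0 : ω ≠ 0 := Complex.exp_ne_zero _
  have hnorm : ‖ω‖ = 1 := hprim.norm'_eq_one hq.ne'
  have hconj : starRingEnd ℂ ω = ω⁻¹ := by
    rw [Complex.inv_def, Complex.normSq_eq_norm_sq, hnorm]; simp
  have hpow : ω ^ q = 1 := hprim.pow_eq_one
  have key : ∀ j ∈ Ico q (2 * q), ∀ j' ∈ Ico q (2 * q), ∑ t ∈ range q, (ω⁻¹ ^ j * ω ^ j') ^ t = if j = j' then (q : ℂ) else 0 := by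
    intro j hj j' hj'
    rw [Finset.mem_Ico] at hj hj'
    split_ifs with h
    · subst h
      rw [← mul_pow, inv_mul_cancel₀ hω0, one_pow]
      simp
    · have hne : ω⁻¹ ^ j * ω ^ j' ≠ 1 := by
        intro h1
        have h2 : ω ^ j' = ω ^ j := by
          rw [inv_pow, inv_mul_eq_one₀ (pow_ne_zero _ hω0)] at h1
          exact h1.symm
        have e1 : ω ^ j' = ω ^ (j' - q) := by
          conv_lhs => rw [show j' = (j' - q) + q by omega, pow_add, hpow, mul_one]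
        have e2 : ω ^ j = ω ^ (j - q) := by
          conv_lhs => rw [show j = (j - q) + q by omega, pow_add, hpow, mul_one]
        rw [e1, e2] at h2
        have h4 := hprim.pow_inj (by omega) (by omega) h2
        omega
      have h5 : (ω⁻¹ ^ j * ω ^ j') ^ q = 1 := by
        rw [mul_pow, ← pow_mul, ← pow_mul, mul_comm j q, mul_comm j' q, pow_mul, pow_mul, inv_pow, hpow]
        simp
      rw [geom_sum_eq hne, h5, sub_self, zero_div]
  have e : ((∑ t ∈ range q, ‖∑ j ∈ Ico q (2 * q), ω⁻¹ ^ (j * t) * a j‖ ^ 2 : ℝ) : ℂ) =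
      ((q * ∑ j ∈ Ico q (2 * q), ‖a j‖ ^ 2 : ℝ) : ℂ) := by
    push_cast
    have h1 : ∀ t : ℕ, ((‖∑ j ∈ Ico q (2 * q), ω⁻¹ ^ (j * t) * a j‖ : ℝ) : ℂ) ^ 2 =
        ∑ j ∈ Ico q (2 * q), ∑ j' ∈ Ico q (2 * q), (ω⁻¹ ^ j * ω ^ j') ^ t * (a j * starRingEnd ℂ (a j')) := by
      intro t
      rw [← Complex.mul_conj', map_sum, Finset.sum_mul_sum]
      refine Finset.sum_congr rfl fun j _ => Finset.sum_congr rfl fun j' _ => ?_
      rw [map_mul, map_pow, map_inv₀, hconj, inv_inv, mul_pow, ← pow_mul, ← pow_mul]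
      ring
    simp_rw [h1]
    rw [Finset.sum_comm, Finset.mul_sum]
    refine Finset.sum_congr rfl fun j hj => ?_
    rw [Finset.sum_comm]
    simp_rw [← Finset.sum_mul]
    rw [Finset.sum_congr rfl fun j' hj' => by rw [key j hj j' hj']]
    rw [Finset.sum_eq_single j]
    · rw [if_pos rfl, Complex.mul_conj']
    · intro j' _ hne
      rw [if_neg (Ne.symm hne), zero_mul]
    · intro h; exact absurd hj h
  exact_mod_cast e

end Pool.Agent.Helper630.TwoSumming
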