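import Pool.Agent.Helper630.TwoSumming.Summing

open Finset MeasureTheory Filter Topology

namespace Pool.Agent.Helper630.TwoSumming

variable {α : ℝ} {n : ℕ}

/-- low part -/
noncomputable def low (φ : ℕ → ℂ) (x : ℕ → ℂ) (m : ℕ) : ℂ := ∑ k ∈ range (m + 1), φ (m + k) * x k

lemma low_poly (hα : 0 < α) (hαn : α < n) {φ : ℕ → ℂ} (hφ : IsAn φ) {M : ℝ}
    (hM : ∀ z : ℂ, ‖z‖ < 1 → ‖ev φ z‖ ≤ M * (1 - ‖z‖) ^ (-α)) {x : ℕ → ℂ} {B : ℝ}
    (hx : ∀ k, ‖x k‖ ≤ B) (m k : ℕ) (hk : k ≤ m) :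
    ‖φ (m + k) * x k‖ ≤ (2 * 2 ^ α * M * 2 ^ α * B) * ((m : ℝ) + 1) ^ n := by
  have hM0 : 0 ≤ M := by
    have := (norm_nonneg _).trans (hM 0 (by simp))
    simpa using this
  have hB : 0 ≤ B := (norm_nonneg _).trans (hx 0)
  have hm1 : (1:ℝ) ≤ (m : ℝ) + 1 := by linarith [Nat.cast_nonneg (α := ℝ) m]
  rw [norm_mul]
  calc ‖φ (m + k)‖ * ‖x k‖ ≤ (2 * 2 ^ α * M * (((m + k : ℕ) : ℝ) + 1) ^ α) * B := by
        gcongr
        · exact co_le_of_growth hφ hα hM (m + k)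
        · exact hx k
    _ ≤ (2 * 2 ^ α * M * (2 * ((m : ℝ) + 1)) ^ α) * B := by
        gcongr
        have : ((k : ℕ) : ℝ) ≤ m := by exact_mod_cast hk
        push_cast; linarith
    _ = (2 * 2 ^ α * M * 2 ^ α * B) * ((m : ℝ) + 1) ^ α := by
        rw [Real.mul_rpow (by norm_num) (by positivity)]; ring
    _ ≤ (2 * 2 ^ α * M * 2 ^ α * B) * ((m : ℝ) + 1) ^ n := by
        gcongr
        rw [← Real.rpow_natCast]
        exact Real.rpow_le_rpow_of_exponent_le hm1 hαn.le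

lemma low_isAn (hα : 0 < α) (hαn : α < n) {φ : ℕ → ℂ} (hφ : IsAn φ) {M : ℝ}
    (hM : ∀ z : ℂ, ‖z‖ < 1 → ‖ev φ z‖ ≤ M * (1 - ‖z‖) ^ (-α)) {x : ℕ → ℂ} {B : ℝ}
    (hx : ∀ k, ‖x k‖ ≤ B) : IsAn (low φ x) := by
  refine IsAn.of_poly (2 * 2 ^ α * M * 2 ^ α * B) (n + 1) fun m => ?_
  unfold low
  calc ‖∑ k ∈ range (m + 1), φ (m + k) * x k‖ ≤ ∑ k ∈ range (m + 1), (2 * 2 ^ α * M * 2 ^ α * B) * ((m : ℝ) + 1) ^ n := by
        refine (norm_sum_le _ _).trans (Finset.sum_le_sum fun k hk => ?_)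
        exact low_poly hα hαn hφ hM hx m k (by have := Finset.mem_range.1 hk; omega)
    _ = _ := by
        rw [Finset.sum_const, Finset.card_range, nsmul_eq_mul, pow_succ]
        push_cast; ring

lemma low_ev (hα : 0 < α) (hαn : α < n) {φ : ℕ → ℂ} (hφ : IsAn φ) {M : ℝ}
    (hM : ∀ z : ℂ, ‖z‖ < 1 → ‖ev φ z‖ ≤ M * (1 - ‖z‖) ^ (-α)) {x : ℕ → ℂ} {B : ℝ}
    (hx : ∀ k, ‖x k‖ ≤ B) {z : ℂ} (hz : ‖z‖ < 1) :
    ev (low φ x) z = ∑' k, x k * ev (tail φ k k) z := by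
  have hM0 : 0 ≤ M := by
    have := (norm_nonneg _).trans (hM 0 (by simp))
    simpa using this
  have hB : 0 ≤ B := (norm_nonneg _).trans (hx 0)
  set t := Real.sqrt ‖z‖ with ht
  have ht0 : 0 ≤ t := Real.sqrt_nonneg _
  have htt : t * t = ‖z‖ := Real.mul_self_sqrt (norm_nonneg z)
  have ht1 : t < 1 := by
    rw [ht, Real.sqrt_lt' one_pos]; simpa using hz
  set D := 2 * 2 ^ α * M * 2 ^ α * B with hD
  have hD0 : 0 ≤ D := by positivity
  set a : ℕ → ℕ → ℂ := fun m k => (if k ≤ m then (1:ℂ) else 0) * (φ (m + k) * x k) * z ^ m with ha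
  have hle : ∀ m k, ‖a m k‖ ≤ (D * ((m : ℝ) + 1) ^ n * t ^ m) * t ^ k := by
    intro m k
    simp only [ha]
    split_ifs with hk
    · rw [one_mul, norm_mul, norm_pow]
      have h1 := low_poly hα hαn hφ hM hx m k hk
      have h2 : ‖z‖ ^ m ≤ t ^ m * t ^ k := by
        rw [← htt, mul_pow]
        exact mul_le_mul_of_nonneg_left (pow_le_pow_of_le_one ht0 ht1.le hk) (by positivity)
      calc ‖φ (m + k) * x k‖ * ‖z‖ ^ m ≤ (D * ((m : ℝ) + 1) ^ n) * (t ^ m * t ^ k) := by gcongr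
        _ = _ := by ring
    · rw [zero_mul, zero_mul, norm_zero]; positivity
  have hs1 : Summable (fun m : ℕ => D * ((m : ℝ) + 1) ^ n * t ^ m) := by
    have h1 : IsAn (fun m : ℕ => ((((m : ℝ) + 1) ^ n : ℝ) : ℂ)) := by
      refine IsAn.of_poly 1 n fun k => ?_
      rw [Complex.norm_real, Real.norm_of_nonneg (by positivity), one_mul]
    have h2 := (h1 t ht0 ht1).mul_left D
    refine h2.congr fun m => ?_
    rw [Complex.norm_real, Real.norm_of_nonneg (by positivity)]; ring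
  have hs2 : Summable (fun k : ℕ => t ^ k) := summable_geometric_of_lt_one ht0 ht1
  have hs : Summable (Function.uncurry a) := by
    refine Summable.of_norm_bounded (hs1.mul_of_nonneg hs2 (fun m => by positivity) (fun k => by positivity)) ?_
    rintro ⟨m, k⟩
    exact hle m k
  have hcomm := hs.tsum_comm
  have e1 : ev (low φ x) z = ∑' m, ∑' k, a m k := by
    unfold ev low
    refine tsum_congr fun m => ?_
    rw [tsum_eq_sum (s := range (m + 1)) (f := fun k => a m k), Finset.sum_mul]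
    · refine Finset.sum_congr rfl fun k hk => ?_
      simp only [ha]
      rw [if_pos (by have := Finset.mem_range.1 hk; omega), one_mul]
    · intro k hk
      simp only [ha]
      rw [if_neg (by rw [Finset.mem_range] at hk; omega), zero_mul, zero_mul]
  have e2 : ∑' k, x k * ev (tail φ k k) z = ∑' k, ∑' m, a m k := by
    refine tsum_congr fun k => ?_
    unfold ev tail
    rw [← tsum_mul_left]
    refine tsum_congr fun m => ?_
    simp only [ha]
    ring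
  rw [e1, e2]
  exact hcomm.symm

end Pool.Agent.Helper630.TwoSumming
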