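import Pool.Agent.Helper630.TwoSumming.Lacunary

open Finset MeasureTheory Filter Topology

namespace Pool.Agent.Helper630.TwoSumming

variable {n : ℕ}

lemma hankel_mono (hn : 2 ≤ n) (u : B1 1 n →L[ℂ] Binf 1) (hu : IsHankel phi0 u) (k m : ℕ) :
    (u (mono hn k)).co m = ((lac (m + k) : ℝ) : ℂ) := by
  have h := hu (mono hn k) m
  have h1 : ∀ s : ℝ, ∑' k', phi0.co (m + k') * (mono hn k).co k' * (s : ℂ) ^ k' = ((lac (m + k) : ℝ) : ℂ) * (s : ℂ) ^ k := by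
    intro s
    rw [tsum_eq_single k]
    · rw [phi0_co, mono_co, Pi.single_eq_same, mul_one]
    · intro k' hk'
      rw [mono_co, Pi.single_eq_of_ne hk']; simp
  simp_rw [h1] at h
  have hc : Continuous (fun s : ℝ => ((lac (m + k) : ℝ) : ℂ) * (s : ℂ) ^ k) := by fun_prop
  have h2 := (hc.tendsto 1).mono_left (nhdsWithin_le_nhds (s := Set.Iio (1:ℝ)))
  have h3 := tendsto_nhds_unique h h2
  rw [h3]; simp

/-- coefficient map as a linear map -/
noncomputable def coLB {α : ℝ} : Binf α →ₗ[ℂ] (ℕ → ℂ) where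
  toFun := Binf.co
  map_add' _ _ := rfl
  map_smul' _ _ := rfl

lemma u_sum_co (hn : 2 ≤ n) (u : B1 1 n →L[ℂ] Binf 1) (hu : IsHankel phi0 u) (s : Finset ℕ) (c : ℕ → ℂ) (f : ℕ → ℕ) (m : ℕ) :
    (u (∑ j ∈ s, c j • mono hn (f j))).co m = ∑ j ∈ s, c j * ((lac (m + f j) : ℝ) : ℂ) := by
  change coLB (u (∑ j ∈ s, c j • mono hn (f j))) m = _
  rw [map_sum, map_sum, Finset.sum_apply]
  refine Finset.sum_congr rfl fun j _ => ?_
  rw [map_smul, map_smul, Pi.smul_apply, smul_eq_mul]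
  congr 1
  exact hankel_mono hn u hu (f j) m

/-- the test vectors -/
noncomputable def tv (hn : 2 ≤ n) (i s t : ℕ) : B1 1 n :=
  ∑ j ∈ Ico (2 ^ s) (2 * 2 ^ s), (Complex.exp (2 * Real.pi * Complex.I / ((2 ^ s : ℕ) : ℂ)))⁻¹ ^ (j * t) • mono hn (2 ^ i - j)

lemma lower (hn : 2 ≤ n) (u : B1 1 n →L[ℂ] Binf 1) (hu : IsHankel phi0 u) (i s t : ℕ) (hs : s + 2 ≤ i) :
    (2:ℝ) ^ i / 8 ≤ ‖u (tv hn i s t)‖ := by
  set ω := Complex.exp (2 * Real.pi * Complex.I / ((2 ^ s : ℕ) : ℂ)) with hω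
  set q := 2 ^ s with hq
  have hq0 : 0 < q := by positivity
  have hprim : IsPrimitiveRoot ω q := Complex.isPrimitiveRoot_exp q hq0.ne'
  have hω0 : ω ≠ 0 := Complex.exp_ne_zero _
  have hnorm : ‖ω‖ = 1 := hprim.norm'_eq_one hq0.ne'
  have hpow : ω ^ q = 1 := hprim.pow_eq_one
  have hq2 : 4 * q ≤ 2 ^ i := by
    calc 4 * q = 2 ^ (s + 2) := by rw [hq, pow_add]; ring
      _ ≤ 2 ^ i := Nat.pow_le_pow_right (by norm_num) hs
  have hpk : ∀ k, s ≤ k → ω ^ (2 ^ k) = 1 := by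
    intro k hk
    rw [show 2 ^ k = q * 2 ^ (k - s) by rw [hq, ← pow_add]; congr 1; omega, pow_mul, hpow, one_pow]
  have hq0' : (0:ℝ) < q := by exact_mod_cast hq0
  set r : ℝ := 1 - 1 / (4 * q) with hr
  have hq1 : (1:ℝ) ≤ q := by exact_mod_cast hq0
  have hd : 1 / (4 * (q:ℝ)) ≤ 1 / 4 := by
    gcongr; linarith
  have hd0 : 0 < 1 / (4 * (q:ℝ)) := by positivity
  have hr0 : 0 < r := by rw [hr]; linarith
  have hr1 : r < 1 := by rw [hr]; linarith
  set z : ℂ := (r : ℂ) * ω ^ t with hz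
  have hzn : ‖z‖ = r := by
    rw [hz, norm_mul, norm_pow, hnorm, one_pow, mul_one, Complex.norm_real, Real.norm_of_nonneg hr0.le]
  have hz1 : ‖z‖ < 1 := by rw [hzn]; exact hr1
  have hnl := (u (tv hn i s t)).le_norm z hz1
  rw [Real.rpow_one, hzn] at hnl
  set v : ℕ → ℝ := fun m => r ^ m * ∑ j ∈ Ico q (2 * q), lac (m + (2 ^ i - j)) with hv
  have htv : tv hn i s t = ∑ j ∈ Ico q (2 * q), ω⁻¹ ^ (j * t) • mono hn (2 ^ i - j) := rfl
  have hterm : ∀ m, (u (tv hn i s t)).co m * z ^ m = ((v m : ℝ) : ℂ) := by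
    intro m
    rw [htv]
    rw [u_sum_co hn u hu, hv, Finset.sum_mul]
    push_cast
    rw [Finset.mul_sum]
    refine Finset.sum_congr rfl fun j hj => ?_
    rw [Finset.mem_Ico] at hj
    by_cases hl : lac (m + (2 ^ i - j)) = 0
    · rw [hl]; simp
    · obtain ⟨k, hk⟩ := lac_ne hl
      have hki : i ≤ k := by
        by_contra hcon
        have h1 : 2 * 2 ^ k ≤ 2 ^ i := by
          calc 2 * 2 ^ k = 2 ^ (k + 1) := by rw [pow_succ]; ring
            _ ≤ 2 ^ i := Nat.pow_le_pow_right (by norm_num) (by omega)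
        omega
      have h2 : m + 2 ^ i = 2 ^ k + j := by omega
      have h3 : ω ^ m = ω ^ j := by
        have h4 : ω ^ (m + 2 ^ i) = ω ^ (2 ^ k + j) := by rw [h2]
        rwa [pow_add, pow_add, hpk i (by omega), hpk k (by omega), mul_one, one_mul] at h4
      have h5 : ω⁻¹ ^ (j * t) * (ω ^ t) ^ m = 1 := by
        rw [← pow_mul, mul_comm t m, pow_mul ω m t, h3, ← pow_mul, ← mul_pow, inv_mul_cancel₀ hω0, one_pow]
      rw [hz, mul_pow]
      calc ω⁻¹ ^ (j * t) * ((lac (m + (2 ^ i - j)) : ℝ) : ℂ) * ((r : ℂ) ^ m * (ω ^ t) ^ m) =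
          (ω⁻¹ ^ (j * t) * (ω ^ t) ^ m) * ((r : ℂ) ^ m * ((lac (m + (2 ^ i - j)) : ℝ) : ℂ)) := by ring
        _ = _ := by rw [h5, one_mul]
  have hv0 : ∀ m, 0 ≤ v m := fun m => mul_nonneg (by positivity) (Finset.sum_nonneg fun _ _ => lac_nonneg _)
  have hsum : Summable v := by
    have h1 := (u (tv hn i s t)).isAn.summable hz1
    simp_rw [hterm] at h1
    exact_mod_cast h1
  have hev : ‖ev (u (tv hn i s t)).co z‖ = ∑' m, v m := by
    unfold ev
    simp_rw [hterm]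
    rw [← Complex.ofReal_tsum, Complex.norm_real, Real.norm_of_nonneg (tsum_nonneg hv0)]
  have hlow : (q : ℝ) * 2 ^ i / 2 ≤ ∑' m, v m := by
    calc (q : ℝ) * 2 ^ i / 2 = ∑ m ∈ Ico q (2 * q), (2 : ℝ) ^ i / 2 := by
          rw [Finset.sum_const, Nat.card_Ico, nsmul_eq_mul]
          have : 2 * q - q = q := by omega
          rw [this]; ring
      _ ≤ ∑ m ∈ Ico q (2 * q), v m := by
          refine Finset.sum_le_sum fun m hm => ?_
          have h1 : lac (m + (2 ^ i - m)) = 2 ^ i := by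
            rw [Finset.mem_Ico] at hm
            rw [show m + (2 ^ i - m) = 2 ^ i by omega]
            exact lac_pow i
          have h2 : (2:ℝ) ^ i ≤ ∑ j ∈ Ico q (2 * q), lac (m + (2 ^ i - j)) := by
            rw [← h1]
            exact Finset.single_le_sum (f := fun j => lac (m + (2 ^ i - j))) (fun _ _ => lac_nonneg _) hm
          have h3 : (1 / 2 : ℝ) ≤ r ^ m := by
            have hb := one_add_mul_le_pow (a := -(1 / (4 * (q:ℝ)))) (by linarith) m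
            have e : 1 + -(1 / (4 * (q:ℝ))) = r := by rw [hr]; ring
            rw [e] at hb
            refine le_trans ?_ hb
            rw [Finset.mem_Ico] at hm
            have hm2 : (m : ℝ) ≤ 2 * q := by exact_mod_cast hm.2.le
            have : (m : ℝ) * (1 / (4 * (q:ℝ))) ≤ 1 / 2 := by
              calc (m : ℝ) * (1 / (4 * (q:ℝ))) ≤ (2 * q) * (1 / (4 * (q:ℝ))) := by gcongr
                _ = 1 / 2 := by field_simp; norm_num
            linarith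
          calc (2:ℝ) ^ i / 2 = (1 / 2) * 2 ^ i := by ring
            _ ≤ r ^ m * ∑ j ∈ Ico q (2 * q), lac (m + (2 ^ i - j)) := by gcongr
      _ ≤ ∑' m, v m := hsum.sum_le_tsum _ fun m _ => hv0 m
  rw [hev] at hnl
  refine le_trans ?_ hnl
  calc (2:ℝ) ^ i / 8 = (1 - r) * ((q : ℝ) * 2 ^ i / 2) := by
        rw [hr]; field_simp; ring
    _ ≤ (1 - r) * ∑' m, v m := by
        have : 0 ≤ 1 - r := by linarith
        gcongr

lemma two_weighted_aux {X E : Type*} [NormedAddCommGroup X] [NormedSpace ℂ X] [NormedAddCommGroup E] [NormedSpace ℂ E]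
    (g : X →L[ℂ] E) {ι : Type*} (S : Finset ι) (x : ι → X) (w : ι → ℝ) (hw : ∀ i ∈ S, 0 ≤ w i) :
    ∑ k, ‖g (((Real.sqrt (w (S.equivFin.symm k)) : ℝ) : ℂ) • x (S.equivFin.symm k))‖ ^ 2 = ∑ i ∈ S, w i * ‖g (x i)‖ ^ 2 := by
  have h3 : ∀ k : Fin S.card, ‖g (((Real.sqrt (w (S.equivFin.symm k)) : ℝ) : ℂ) • x (S.equivFin.symm k))‖ ^ 2 =
      w (S.equivFin.symm k) * ‖g (x (S.equivFin.symm k))‖ ^ 2 := by
    intro k
    rw [map_smul, norm_smul, mul_pow, Complex.norm_real, Real.norm_of_nonneg (Real.sqrt_nonneg _),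
      Real.sq_sqrt (hw _ (S.equivFin.symm k).2)]
  simp_rw [h3]
  rw [Equiv.sum_comp S.equivFin.symm (fun i : S => w i * ‖g (x i)‖ ^ 2)]
  exact Finset.sum_coe_sort S (fun i => w i * ‖g (x i)‖ ^ 2)

lemma two_weighted {X Y : Type*} [NormedAddCommGroup X] [NormedSpace ℂ X] [NormedAddCommGroup Y] [NormedSpace ℂ Y]
    (u : X →L[ℂ] Y) {C : ℝ} (h : ∀ (N : ℕ) (x : Fin N → X),
    ∑ i, ‖u (x i)‖ ^ 2 ≤ C ^ 2 * ⨆ ξ : {ξ : X →L[ℂ] ℂ // ‖ξ‖ ≤ 1}, ∑ i, ‖ξ.1 (x i)‖ ^ 2)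
    {ι : Type*} (S : Finset ι) (x : ι → X) (w : ι → ℝ) (hw : ∀ i ∈ S, 0 ≤ w i) (W : ℝ)
    (hW : ∀ ξ : X →L[ℂ] ℂ, ‖ξ‖ ≤ 1 → ∑ i ∈ S, w i * ‖ξ (x i)‖ ^ 2 ≤ W) :
    ∑ i ∈ S, w i * ‖u (x i)‖ ^ 2 ≤ C ^ 2 * W := by
  have h1 := h S.card (fun k => ((Real.sqrt (w (S.equivFin.symm k)) : ℝ) : ℂ) • x (S.equivFin.symm k))
  rw [two_weighted_aux u S x w hw] at h1
  refine h1.trans ?_
  gcongr
  have : Nonempty {ξ : X →L[ℂ] ℂ // ‖ξ‖ ≤ 1} := ⟨⟨0, by simp⟩⟩
  refine ciSup_le fun ξ => ?_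
  rw [two_weighted_aux ξ.1 S x w hw]
  exact hW ξ.1 ξ.2

lemma ico_union (g : ℕ → ℝ) (p : ℕ) : ∑ s ∈ range p, ∑ j ∈ Ico (2 ^ s) (2 * 2 ^ s), g j = ∑ j ∈ Ico 1 (2 ^ p), g j := by
  induction p with
  | zero => simp
  | succ p ih =>
    rw [Finset.sum_range_succ, ih, show 2 * 2 ^ p = 2 ^ (p + 1) by rw [pow_succ]; ring]
    exact Finset.sum_Ico_consecutive _ Nat.one_le_two_pow (Nat.pow_le_pow_right (by norm_num) (Nat.le_succ p))

theorem negative (hn : 2 ≤ n) : ¬ ∃ u : B1 1 n →L[ℂ] Binf 1, IsHankel phi0 u ∧ IsTwoSumming u := by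
  rintro ⟨u, hu, C, hC⟩
  set D : ℝ := (Real.pi * (n - 2).factorial * 8 ^ (n - 1)) ^ 2 with hD
  -- key inequality
  have key : ∀ p : ℕ, n ≤ 2 * 2 ^ p → ((p : ℝ) + 2) / 64 ≤ C ^ 2 * D := by
    intro p hp
    have h := two_weighted u hC ((range (p + 2)).sigma (fun s => range (2 ^ s)))
      (fun a : (_ : ℕ) × ℕ => tv hn (p + 3) a.1 a.2) (fun a => ((2 : ℝ) ^ a.1)⁻¹) (fun _ _ => by positivity)
      (D * ((8 * 2 ^ p : ℕ) : ℝ) ^ 2) (by
        intro ξ hξ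
        rw [Finset.sum_sigma]
        have h1 : ∀ s ∈ range (p + 2), ∑ t ∈ range (2 ^ s), ((2 : ℝ) ^ s)⁻¹ * ‖ξ (tv hn (p + 3) s t)‖ ^ 2 =
            ∑ j ∈ Ico (2 ^ s) (2 * 2 ^ s), ‖ξ (mono hn (2 ^ (p + 3) - j))‖ ^ 2 := by
          intro s _
          rw [← Finset.mul_sum]
          have h2 := parseval (q := 2 ^ s) (by positivity) (fun j => ξ (mono hn (2 ^ (p + 3) - j)))
          have h3 : ∀ t, ξ (tv hn (p + 3) s t) = ∑ j ∈ Ico (2 ^ s) (2 * 2 ^ s),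
              (Complex.exp (2 * Real.pi * Complex.I / ((2 ^ s : ℕ) : ℂ)))⁻¹ ^ (j * t) * ξ (mono hn (2 ^ (p + 3) - j)) := by
            intro t
            unfold tv
            rw [map_sum]
            refine Finset.sum_congr rfl fun j _ => ?_
            rw [map_smul, smul_eq_mul]
          simp_rw [h3]
          rw [h2]
          push_cast
          rw [← mul_assoc, inv_mul_cancel₀ (by positivity), one_mul]
        rw [Finset.sum_congr rfl h1, ico_union (fun j => ‖ξ (mono hn (2 ^ (p + 3) - j))‖ ^ 2)]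
        have h4 := dual_bound hn (2 ^ p) hp ξ hξ
        refine le_trans (le_of_eq ?_) h4
        have e1 : 2 ^ (p + 2) = 4 * 2 ^ p := by rw [pow_add]; ring
        have e2 : 2 ^ (p + 3) = 8 * 2 ^ p := by rw [pow_add]; ring
        refine Finset.sum_nbij' (fun j => 2 ^ (p + 3) - j) (fun k => 2 ^ (p + 3) - k) ?_ ?_ ?_ ?_ ?_
        · intro j hj
          rw [Finset.mem_Ico] at hj
          rw [Finset.mem_Ioo]
          omega
        · intro k hk
          rw [Finset.mem_Ioo] at hk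
          rw [Finset.mem_Ico]
          omega
        · intro j hj
          rw [Finset.mem_Ico] at hj
          omega
        · intro k hk
          rw [Finset.mem_Ioo] at hk
          omega
        · intro j _
          rfl)
    rw [Finset.sum_sigma] at h
    have hlow : ((p : ℝ) + 2) / 64 * (((8 * 2 ^ p : ℕ) : ℝ) ^ 2) ≤
        ∑ s ∈ range (p + 2), ∑ t ∈ range (2 ^ s), ((2 : ℝ) ^ s)⁻¹ * ‖u (tv hn (p + 3) s t)‖ ^ 2 := by
      have h5 : ∀ s ∈ range (p + 2), (((8 * 2 ^ p : ℕ) : ℝ) ^ 2) / 64 ≤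
          ∑ t ∈ range (2 ^ s), ((2 : ℝ) ^ s)⁻¹ * ‖u (tv hn (p + 3) s t)‖ ^ 2 := by
        intro s hs
        rw [Finset.mem_range] at hs
        have h6 : ∀ t ∈ range (2 ^ s), ((2 : ℝ) ^ s)⁻¹ * ((2:ℝ) ^ (p + 3) / 8) ^ 2 ≤
            ((2 : ℝ) ^ s)⁻¹ * ‖u (tv hn (p + 3) s t)‖ ^ 2 := by
          intro t _
          have := lower hn u hu (p + 3) s t (by omega)
          gcongr
        refine le_trans (le_of_eq ?_) (Finset.sum_le_sum h6)
        rw [Finset.sum_const, Finset.card_range, nsmul_eq_mul]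
        push_cast
        rw [← mul_assoc, mul_inv_cancel₀ (by positivity), one_mul, pow_add]
        ring
      refine le_trans (le_of_eq ?_) (Finset.sum_le_sum h5)
      rw [Finset.sum_const, Finset.card_range, nsmul_eq_mul]
      push_cast
      ring
    have h7 := hlow.trans h
    have h8 : (0:ℝ) < ((8 * 2 ^ p : ℕ) : ℝ) ^ 2 := by positivity
    rw [← mul_assoc] at h7
    exact le_of_mul_le_mul_right h7 h8
  obtain ⟨p0, hp0⟩ := exists_nat_gt (64 * (C ^ 2 * D))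
  have h1 : n ≤ 2 * 2 ^ (max p0 n) := by
    have h2 : n < 2 ^ n := Nat.lt_two_pow_self
    have h3 : 2 ^ n ≤ 2 ^ (max p0 n) := Nat.pow_le_pow_right (by norm_num) (le_max_right _ _)
    omega
  have h4 := key _ h1
  have h5 : (p0 : ℝ) ≤ ((max p0 n : ℕ) : ℝ) := by exact_mod_cast le_max_left _ _
  linarith

end Pool.Agent.Helper630.TwoSumming
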