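import Pool.Agent.Helper630.TwoSumming.SpaceBinf

open Finset MeasureTheory Filter Topology

namespace Pool.Agent.Helper630.TwoSumming

/-- `IsHankel φ u` : the bounded operator `u : B₁^α → B_∞^{-α}` is the Hankel type operator `H_φ`.
The `m`-th Taylor coefficient of `u x` is the sum over `k` of `φ_{m+k} x_k`, in the sense of Abel
(for a polynomial `x` this is the finite sum). -/
def IsHankel {α : ℝ} {n : ℕ} (φ : Binf α) (u : B1 α n →L[ℂ] Binf α) : Prop :=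
  ∀ (x : B1 α n) (m : ℕ),
    Tendsto (fun s : ℝ => ∑' k, φ.co (m + k) * x.co k * (s : ℂ) ^ k) (𝓝[<] 1) (𝓝 ((u x).co m))

/-- `IsTwoSumming u` : the bounded operator `u` is 2-absolutely summing. -/
def IsTwoSumming {X Y : Type*} [NormedAddCommGroup X] [NormedSpace ℂ X] [NormedAddCommGroup Y] [NormedSpace ℂ Y]
    (u : X →L[ℂ] Y) : Prop :=
  ∃ C : ℝ, ∀ (N : ℕ) (x : Fin N → X),
    ∑ i, ‖u (x i)‖ ^ 2 ≤ C ^ 2 * ⨆ ξ : {ξ : X →L[ℂ] ℂ // ‖ξ‖ ≤ 1}, ∑ i, ‖ξ.1 (x i)‖ ^ 2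

end Pool.Agent.Helper630.TwoSumming
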