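import Pool.Agent.Helper630.TwoSumming.TailB

open Finset MeasureTheory Filter Topology

namespace Pool.Agent.Helper630.TwoSumming

lemma radial_beta (b : ℕ) : ∀ k : ℕ, ∫ r in Set.Ioo (0:ℝ) 1, r ^ (2 * k + 1) * (1 - r ^ 2) ^ b =
    (k.factorial : ℝ) * b.factorial / (2 * (k + b + 1).factorial) := by
  induction b with
  | zero =>
    intro k
    simp only [pow_zero, mul_one, Nat.factorial_zero, Nat.cast_one, add_zero]
    rw [← integral_Ioc_eq_integral_Ioo, ← intervalIntegral.integral_of_le zero_le_one, integral_pow]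
    rw [Nat.factorial_succ]
    push_cast
    have : (k.factorial : ℝ) ≠ 0 := by exact_mod_cast Nat.factorial_ne_zero k
    field_simp
    simp
    ring
  | succ b ih =>
    intro k
    have hint : ∀ m : ℕ, IntegrableOn (fun r : ℝ => r ^ (2 * m + 1) * (1 - r ^ 2) ^ b) (Set.Ioo 0 1) := by
      intro m
      exact ((by fun_prop : Continuous (fun r : ℝ => r ^ (2 * m + 1) * (1 - r ^ 2) ^ b)).integrableOn_Icc (a := 0) (b := 1)).mono_set
        Set.Ioo_subset_Icc_self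
    have h1 : ∫ r in Set.Ioo (0:ℝ) 1, r ^ (2 * k + 1) * (1 - r ^ 2) ^ (b + 1) =
        (∫ r in Set.Ioo (0:ℝ) 1, r ^ (2 * k + 1) * (1 - r ^ 2) ^ b) -
        ∫ r in Set.Ioo (0:ℝ) 1, r ^ (2 * (k + 1) + 1) * (1 - r ^ 2) ^ b := by
      rw [← integral_sub (hint k) (hint (k + 1))]
      refine setIntegral_congr_fun measurableSet_Ioo fun r _ => ?_
      ring
    rw [h1, ih k, ih (k + 1)]
    have e1 : (k + 1 + b + 1).factorial = (k + b + 2) * (k + b + 1).factorial := by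
      rw [show k + 1 + b + 1 = (k + b + 1) + 1 by ring, Nat.factorial_succ]
    have e2 : (k + (b + 1) + 1).factorial = (k + b + 2) * (k + b + 1).factorial := by
      rw [show k + (b + 1) + 1 = (k + b + 1) + 1 by ring, Nat.factorial_succ]
    rw [e1, e2, Nat.factorial_succ k, Nat.factorial_succ b]
    have : ((k + b + 1).factorial : ℝ) ≠ 0 := by exact_mod_cast Nat.factorial_ne_zero _
    push_cast
    field_simp
    ring

variable {α : ℝ} {n : ℕ}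

/-- area pairing -/
noncomputable def AF (Θ : ℕ → ℂ) (x : B1 α n) : ℂ :=
  ∫ z in Metric.ball (0:ℂ) 1, ev Θ (starRingEnd ℂ z) * ev (dco n x.co) z * (((1 - ‖z‖ ^ 2) ^ (n - 1) : ℝ) : ℂ)

lemma AF_ptwise (hn : 1 ≤ n) {Θ : ℕ → ℂ} {B : ℝ} (hα0 : 0 < α)
    (hB : ∀ z : ℂ, ‖z‖ < 1 → ‖ev Θ z‖ ≤ B * (1 - ‖z‖) ^ (-α)) (x : B1 α n) {s : ℝ} (hs0 : 0 ≤ s) (hs1 : s ≤ 1) {z : ℂ}
    (hz : z ∈ Metric.ball (0:ℂ) 1) :
    ‖ev Θ ((s : ℂ) * starRingEnd ℂ z) * ev (dco n x.co) z * (((1 - ‖z‖ ^ 2) ^ (n - 1) : ℝ) : ℂ)‖ ≤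
      B * 2 ^ (n - 1) * integrand α n x.co z := by
  have hB0 : 0 ≤ B := by
    have := (norm_nonneg _).trans (hB 0 (by simp))
    simpa using this
  have hz' : ‖z‖ < 1 := mem_ball_zero_iff.1 hz
  have hp : 0 < 1 - ‖z‖ := by linarith
  rw [integrand_eq α n x.isAn hz, norm_mul, norm_mul, Complex.norm_real]
  have hsz : ‖(s : ℂ) * starRingEnd ℂ z‖ = s * ‖z‖ := by
    rw [norm_mul, Complex.norm_real, RCLike.norm_conj, Real.norm_of_nonneg hs0]
  have hsz2 : s * ‖z‖ ≤ ‖z‖ := mul_le_of_le_one_left (norm_nonneg _) hs1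
  have h1 : ‖ev Θ ((s : ℂ) * starRingEnd ℂ z)‖ ≤ B * (1 - ‖z‖) ^ (-α) := by
    refine (hB _ (by rw [hsz]; linarith)).trans ?_
    rw [hsz]
    gcongr ?_ * ?_
    exact Real.rpow_le_rpow_of_nonpos hp (by linarith) (by linarith)
  have h2 : ‖(1 - ‖z‖ ^ 2) ^ (n - 1)‖ ≤ 2 ^ (n - 1) * (1 - ‖z‖) ^ (n - 1) := by
    have : 0 ≤ 1 - ‖z‖ ^ 2 := by nlinarith [norm_nonneg z]
    rw [Real.norm_of_nonneg (by positivity), ← mul_pow]
    gcongr
    nlinarith [norm_nonneg z]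
  have h3 : (1 - ‖z‖) ^ ((n : ℝ) - α - 1) = (1 - ‖z‖) ^ (-α) * (1 - ‖z‖) ^ (n - 1) := by
    rw [← Real.rpow_natCast, ← Real.rpow_add hp]
    congr 1
    rw [Nat.cast_sub hn]; push_cast; ring
  calc ‖ev Θ ((s : ℂ) * starRingEnd ℂ z)‖ * ‖ev (dco n x.co) z‖ * ‖(1 - ‖z‖ ^ 2) ^ (n - 1)‖
      ≤ (B * (1 - ‖z‖) ^ (-α)) * ‖ev (dco n x.co) z‖ * (2 ^ (n - 1) * (1 - ‖z‖) ^ (n - 1)) := by gcongr
    _ = _ := by rw [h3]; ring

lemma AF_cont {Θ : ℕ → ℂ} (hΘ : IsAn Θ) (x : B1 α n) {s : ℝ} (hs0 : 0 ≤ s) (hs1 : s ≤ 1) :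
    ContinuousOn (fun z : ℂ => ev Θ ((s : ℂ) * starRingEnd ℂ z) * ev (dco n x.co) z * (((1 - ‖z‖ ^ 2) ^ (n - 1) : ℝ) : ℂ))
      (Metric.ball (0:ℂ) 1) := by
  refine ContinuousOn.mul (ContinuousOn.mul ?_ (continuousOn_ev (x.isAn.dco n))) ?_
  · have h1 : Continuous (fun z : ℂ => (s : ℂ) * starRingEnd ℂ z) := continuous_const.mul Complex.continuous_conj
    refine (continuousOn_ev hΘ).comp h1.continuousOn fun z hz => ?_
    rw [mem_ball_zero_iff] at hz ⊢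
    rw [norm_mul, Complex.norm_real, RCLike.norm_conj, Real.norm_of_nonneg hs0]
    exact lt_of_le_of_lt (mul_le_of_le_one_left (norm_nonneg _) hs1) hz
  · exact (by fun_prop : Continuous (fun z : ℂ => (((1 - ‖z‖ ^ 2) ^ (n - 1) : ℝ) : ℂ))).continuousOn

lemma AF_integrable (hn : 1 ≤ n) {Θ : ℕ → ℂ} (hΘ : IsAn Θ) {B : ℝ} (hα0 : 0 < α)
    (hB : ∀ z : ℂ, ‖z‖ < 1 → ‖ev Θ z‖ ≤ B * (1 - ‖z‖) ^ (-α)) (x : B1 α n) {s : ℝ} (hs0 : 0 ≤ s) (hs1 : s ≤ 1) :
    IntegrableOn (fun z : ℂ => ev Θ ((s : ℂ) * starRingEnd ℂ z) * ev (dco n x.co) z * (((1 - ‖z‖ ^ 2) ^ (n - 1) : ℝ) : ℂ))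
      (Metric.ball (0:ℂ) 1) := by
  refine Integrable.mono' (x.integrable.const_mul (B * 2 ^ (n - 1)))
    ((AF_cont hΘ x hs0 hs1).aestronglyMeasurable Metric.isOpen_ball.measurableSet) ?_
  exact (ae_restrict_iff' Metric.isOpen_ball.measurableSet).2 (ae_of_all _ fun z hz => AF_ptwise hn hα0 hB x hs0 hs1 hz)

lemma AF_eq (Θ : ℕ → ℂ) (x : B1 α n) : AF Θ x =
    ∫ z in Metric.ball (0:ℂ) 1, ev Θ (((1:ℝ) : ℂ) * starRingEnd ℂ z) * ev (dco n x.co) z * (((1 - ‖z‖ ^ 2) ^ (n - 1) : ℝ) : ℂ) := by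
  simp [AF]

lemma AF_bound (hn : 1 ≤ n) {Θ : ℕ → ℂ} {B : ℝ} (hα0 : 0 < α)
    (hB : ∀ z : ℂ, ‖z‖ < 1 → ‖ev Θ z‖ ≤ B * (1 - ‖z‖) ^ (-α)) (x : B1 α n) :
    ‖AF Θ x‖ ≤ B * 2 ^ (n - 1) * ‖x‖ := by
  have hB0 : 0 ≤ B := by
    have := (norm_nonneg _).trans (hB 0 (by simp))
    simpa using this
  have h1 : ‖AF Θ x‖ ≤ ∫ z in Metric.ball (0:ℂ) 1, B * 2 ^ (n - 1) * integrand α n x.co z := by
    rw [AF_eq]
    refine norm_integral_le_of_norm_le (x.integrable.const_mul _) ?_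
    exact (ae_restrict_iff' Metric.isOpen_ball.measurableSet).2 (ae_of_all _ fun z hz =>
      AF_ptwise hn hα0 hB x zero_le_one le_rfl hz)
  rw [integral_const_mul] at h1
  refine h1.trans ?_
  gcongr
  rw [B1.norm_def]
  exact le_add_of_nonneg_right (Finset.sum_nonneg fun _ _ => by positivity)

lemma AF_add (hn : 1 ≤ n) {Θ : ℕ → ℂ} (hΘ : IsAn Θ) {B : ℝ} (hα0 : 0 < α)
    (hB : ∀ z : ℂ, ‖z‖ < 1 → ‖ev Θ z‖ ≤ B * (1 - ‖z‖) ^ (-α)) (x y : B1 α n) :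
    AF Θ (x + y) = AF Θ x + AF Θ y := by
  rw [AF_eq, AF_eq, AF_eq, ← integral_add (AF_integrable hn hΘ hα0 hB x zero_le_one le_rfl)
    (AF_integrable hn hΘ hα0 hB y zero_le_one le_rfl)]
  refine setIntegral_congr_fun Metric.isOpen_ball.measurableSet fun z hz => ?_
  rw [B1.co_add, dco_add, ev_add (x.isAn.dco n) (y.isAn.dco n) (mem_ball_zero_iff.1 hz)]
  ring

lemma AF_smul (Θ : ℕ → ℂ) (c : ℂ) (x : B1 α n) : AF Θ (c • x) = c * AF Θ x := by
  unfold AF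
  rw [← integral_const_mul]
  refine setIntegral_congr_fun Metric.isOpen_ball.measurableSet fun z hz => ?_
  rw [B1.co_smul, dco_smul, ev_smul]
  ring

lemma AF_series (hα : α < n) (hn : 1 ≤ n) {Θ : ℕ → ℂ} (hΘ : IsAn Θ) (hα0 : 0 < α)
    (x : B1 α n) {s : ℝ} (hs0 : 0 ≤ s) (hs1 : s < 1) :
    ∫ z in Metric.ball (0:ℂ) 1, ev Θ ((s : ℂ) * starRingEnd ℂ z) * ev (dco n x.co) z * (((1 - ‖z‖ ^ 2) ^ (n - 1) : ℝ) : ℂ)
      = Real.pi * (n - 1).factorial * ∑' k, Θ k * x.co (k + n) * (s : ℂ) ^ k := by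
  have hint : IntegrableOn (fun z : ℂ => ev (dco n x.co) z * (((1 - ‖z‖ ^ 2) ^ (n - 1) : ℝ) : ℂ)) (Metric.ball (0:ℂ) 1) := by
    have h1 : IsAn (fun k => if k = 0 then (1:ℂ) else 0) := by
      apply IsAn.of_bdd
      intro r hr0 hr1
      refine ⟨1, fun k => ?_⟩
      by_cases hk : k = 0
      · subst hk; simp
      · simp [hk]
    have hev1 : ∀ z, ev (fun k => if k = 0 then (1:ℂ) else 0) z = 1 := by
      intro z
      unfold ev
      rw [tsum_eq_single 0]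
      · simp
      · intro k hk; simp [hk]
    have h2 := AF_integrable hn h1 (B := 1) hα0 (by
      intro z hz
      rw [hev1, norm_one, one_mul]
      have hp : 0 < 1 - ‖z‖ := by linarith
      exact Real.one_le_rpow_of_pos_of_le_one_of_nonpos hp (by linarith [norm_nonneg z]) (by linarith)) x zero_le_one le_rfl
    simpa only [hev1, one_mul] using h2
  have hΘs := hΘ s hs0 hs1
  have hF : ∀ k : ℕ, Integrable (fun z : ℂ => Θ k * (s : ℂ) ^ k * ((starRingEnd ℂ z) ^ k * ev (dco n x.co) z * (((1 - ‖z‖ ^ 2) ^ (n - 1) : ℝ) : ℂ)))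
      (volume.restrict (Metric.ball (0:ℂ) 1)) := by
    intro k
    refine Integrable.const_mul ?_ _
    refine Integrable.mono hint ?_ ?_
    · refine ContinuousOn.aestronglyMeasurable ?_ Metric.isOpen_ball.measurableSet
      refine ContinuousOn.mul (ContinuousOn.mul ?_ (continuousOn_ev (x.isAn.dco n))) ?_
      · exact (Complex.continuous_conj.pow k).continuousOn
      · exact (by fun_prop : Continuous (fun z : ℂ => (((1 - ‖z‖ ^ 2) ^ (n - 1) : ℝ) : ℂ))).continuousOn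
    · refine (ae_restrict_iff' Metric.isOpen_ball.measurableSet).2 (ae_of_all _ fun z hz => ?_)
      rw [mul_assoc, norm_mul]
      refine mul_le_of_le_one_left (norm_nonneg _) ?_
      rw [norm_pow, RCLike.norm_conj]
      exact pow_le_one₀ (norm_nonneg _) (mem_ball_zero_iff.1 hz).le
  have hsum := hasSum_integral_of_summable_integral_norm hF (by
    refine Summable.of_nonneg_of_le (fun k => integral_nonneg fun _ => norm_nonneg _) (fun k => ?_)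
      (hΘs.mul_right (∫ z in Metric.ball (0:ℂ) 1, ‖ev (dco n x.co) z * (((1 - ‖z‖ ^ 2) ^ (n - 1) : ℝ) : ℂ)‖))
    rw [← integral_const_mul]
    refine setIntegral_mono_on (hF k).norm (hint.norm.const_mul _) Metric.isOpen_ball.measurableSet fun z hz => ?_
    rw [norm_mul, norm_mul, norm_pow, Complex.norm_real, Real.norm_of_nonneg hs0]
    gcongr
    rw [mul_assoc, norm_mul]
    refine mul_le_of_le_one_left (norm_nonneg _) ?_
    rw [norm_pow, RCLike.norm_conj]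
    exact pow_le_one₀ (norm_nonneg _) (mem_ball_zero_iff.1 hz).le)
  have e1 : ∫ z in Metric.ball (0:ℂ) 1, ev Θ ((s : ℂ) * starRingEnd ℂ z) * ev (dco n x.co) z * (((1 - ‖z‖ ^ 2) ^ (n - 1) : ℝ) : ℂ)
      = ∫ z in Metric.ball (0:ℂ) 1, ∑' k : ℕ, Θ k * (s : ℂ) ^ k * ((starRingEnd ℂ z) ^ k * ev (dco n x.co) z * (((1 - ‖z‖ ^ 2) ^ (n - 1) : ℝ) : ℂ)) := by
    refine setIntegral_congr_fun Metric.isOpen_ball.measurableSet fun z hz => ?_
    rw [show ev Θ ((s : ℂ) * starRingEnd ℂ z) = ∑' k, Θ k * ((s : ℂ) * starRingEnd ℂ z) ^ k from rfl, mul_assoc,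
      ← tsum_mul_right]
    refine tsum_congr fun k => ?_
    rw [mul_pow]; ring
  rw [e1, ← hsum.tsum_eq, ← tsum_mul_left]
  refine tsum_congr fun k => ?_
  rw [integral_const_mul, disc_orth (x.isAn.dco n) k (fun r => (1 - r ^ 2) ^ (n - 1)) (by fun_prop) hint, radial_beta]
  unfold dco
  have h2 : (k + n).factorial = k.factorial * (k + n).descFactorial n := by
    have := Nat.factorial_mul_descFactorial (n := k + n) (k := n) (by omega)
    rw [Nat.add_sub_cancel] at this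
    exact this.symm
  have h3 : k + (n - 1) + 1 = k + n := by omega
  rw [h3, h2]
  have h4 : (k.factorial : ℂ) ≠ 0 := by exact_mod_cast Nat.factorial_ne_zero _
  have h5 : ((k + n).descFactorial n : ℂ) ≠ 0 := by
    have : (k + n).descFactorial n ≠ 0 := by rw [Ne, Nat.descFactorial_eq_zero_iff_lt]; omega
    exact_mod_cast this
  push_cast
  field_simp

lemma AF_limit (hα : α < n) (hn : 1 ≤ n) {Θ : ℕ → ℂ} (hΘ : IsAn Θ) {B : ℝ} (hα0 : 0 < α)
    (hB : ∀ z : ℂ, ‖z‖ < 1 → ‖ev Θ z‖ ≤ B * (1 - ‖z‖) ^ (-α)) (x : B1 α n) :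
    Tendsto (fun s : ℝ => ∑' k, Θ k * x.co (k + n) * (s : ℂ) ^ k) (𝓝[<] 1)
      (𝓝 ((Real.pi * (n - 1).factorial : ℂ)⁻¹ * AF Θ x)) := by
  have hlim : Tendsto (fun s : ℝ => ∫ z in Metric.ball (0:ℂ) 1, ev Θ ((s : ℂ) * starRingEnd ℂ z) * ev (dco n x.co) z *
      (((1 - ‖z‖ ^ 2) ^ (n - 1) : ℝ) : ℂ)) (𝓝[<] 1) (𝓝 (AF Θ x)) := by
    rw [AF_eq]
    have hev : ∀ᶠ s : ℝ in 𝓝[<] 1, 0 < s ∧ s < 1 := by
      have h1 : ∀ᶠ s : ℝ in 𝓝[<] 1, s < 1 := self_mem_nhdsWithin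
      have h2 : ∀ᶠ s : ℝ in 𝓝[<] 1, 0 < s := mem_nhdsWithin_of_mem_nhds (lt_mem_nhds one_pos)
      exact h2.and h1
    refine tendsto_integral_filter_of_dominated_convergence (fun z => B * 2 ^ (n - 1) * integrand α n x.co z) ?_ ?_
      (x.integrable.const_mul _) ?_
    · filter_upwards [hev] with s hs
      exact (AF_cont hΘ x hs.1.le hs.2.le).aestronglyMeasurable Metric.isOpen_ball.measurableSet
    · filter_upwards [hev] with s hs
      exact (ae_restrict_iff' Metric.isOpen_ball.measurableSet).2 (ae_of_all _ fun z hz =>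
        AF_ptwise hn hα0 hB x hs.1.le hs.2.le hz)
    · refine (ae_restrict_iff' Metric.isOpen_ball.measurableSet).2 (ae_of_all _ fun z hz => ?_)
      refine Tendsto.mul_const _ (Tendsto.mul_const _ ?_)
      have hz' : ‖((1:ℝ) : ℂ) * starRingEnd ℂ z‖ < 1 := by
        rw [norm_mul, RCLike.norm_conj]; simpa using mem_ball_zero_iff.1 hz
      have hc := (hasDerivAt_ev hΘ hz').continuousAt
      refine (hc.tendsto.comp ?_)
      have : Continuous (fun s : ℝ => (s : ℂ) * starRingEnd ℂ z) := by fun_prop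
      exact (this.tendsto 1).mono_left nhdsWithin_le_nhds
  have h0 : (Real.pi * (n - 1).factorial : ℂ) ≠ 0 := by
    refine mul_ne_zero (by exact_mod_cast Real.pi_ne_zero) (by exact_mod_cast Nat.factorial_ne_zero _)
  have h3 := hlim.const_mul (Real.pi * (n - 1).factorial : ℂ)⁻¹
  refine h3.congr' ?_
  have h1 : ∀ᶠ s : ℝ in 𝓝[<] 1, s < 1 := self_mem_nhdsWithin
  have h2 : ∀ᶠ s : ℝ in 𝓝[<] 1, 0 < s := mem_nhdsWithin_of_mem_nhds (lt_mem_nhds one_pos)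
  filter_upwards [h1, h2] with s hs1 hs0
  rw [AF_series hα hn hΘ hα0 x hs0.le hs1, ← mul_assoc, inv_mul_cancel₀ h0, one_mul]

end Pool.Agent.Helper630.TwoSumming
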