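import Pool.Agent.Helper630.TwoSumming.Low

open Finset MeasureTheory Filter Topology

namespace Pool.Agent.Helper630.TwoSumming

variable {α : ℝ} {n : ℕ}

lemma uco_eq (φ : ℕ → ℂ) (x : B1 α n) : uco φ x = low φ x.co + fun m => xi φ m x := rfl

/-- main estimate -/
lemma uco_bound (hα : 1 < α) (hαn : α < n) (φ : ℕ → ℂ) (hφ : IsAn φ) (M : ℝ)
    (hM : ∀ z : ℂ, ‖z‖ < 1 → ‖ev φ z‖ ≤ M * (1 - ‖z‖) ^ (-α)) :
    ∃ b c p q : ℕ → ℝ, (∀ k, 0 ≤ b k) ∧ (∀ k, 0 ≤ c k) ∧ (∀ k (x : B1 α n), ‖x.co k‖ ≤ b k * ‖x‖) ∧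
      (∀ k (x : B1 α n), ‖xi φ k x‖ ≤ c k * ‖x‖) ∧ (∀ k, 0 ≤ p k) ∧ (∀ k, 0 ≤ q k) ∧
      (Summable fun k => p k * b k ^ 2) ∧ (Summable fun k => q k * c k ^ 2) ∧
      (∀ x : B1 α n, IsAn (uco φ x)) ∧
      ∀ (x : B1 α n) (z : ℂ), ‖z‖ < 1 → ((1 - ‖z‖) ^ α * ‖ev (uco φ x) z‖) ^ 2 ≤
        (∑' k, p k * ‖x.co k‖ ^ 2) + ∑' k, q k * ‖xi φ k x‖ ^ 2 := by
  have hα0 : 0 < α := by linarith
  have hM0 : 0 ≤ M := by
    have := (norm_nonneg _).trans (hM 0 (by simp))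
    simpa using this
  obtain ⟨ε, hε0, hε1, hε3⟩ : ∃ ε : ℝ, 0 < ε ∧ ε ≤ 1 ∧ 3 * ε ≤ α - 1 := by
    refine ⟨min ((α - 1) / 3) 1, lt_min (by linarith) one_pos, min_le_right _ _, ?_⟩
    have := min_le_left ((α - 1) / 3) 1
    linarith
  obtain ⟨K1, hK10, hK1⟩ := tail_bound hα.le n hε0 hε1
  obtain ⟨K2, hK20, hK2⟩ := xi_bound (α := α) (n := n) hα.le hαn hε0 hε1
  obtain ⟨C, hC0, hC⟩ := B1.co_bound (α := α) (n := n) hα0 hαn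
  obtain ⟨C3, hC30, hC3⟩ := geo_rpow_sum (t := 1 + 6 * ε) (by linarith)
  have hA1 : Summable (fun k : ℕ => ((k:ℝ) + 1) ^ (-α + 2 * ε)) := wsum (by linarith)
  have hA2 : Summable (fun k : ℕ => ((k:ℝ) + 1) ^ (-1 - 2 * ε)) := wsum (by linarith)
  set A1 := ∑' k : ℕ, ((k:ℝ) + 1) ^ (-α + 2 * ε) with hA1d
  have hA10 : 0 ≤ A1 := tsum_nonneg fun _ => by positivity
  have hk0 : ∀ k : ℕ, (0:ℝ) < (k:ℝ) + 1 := fun k => by positivity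
  have hcob : ∀ (x : B1 α n) (k : ℕ), ‖x.co k‖ ≤ C * ‖x‖ := by
    intro x k
    refine (hC x k).trans ?_
    have : ((k : ℝ) + 1) ^ (-α) ≤ 1 := by
      refine Real.rpow_le_one_of_one_le_of_nonpos (by linarith [Nat.cast_nonneg (α := ℝ) k]) (by linarith)
    calc C * ((k : ℝ) + 1) ^ (-α) * ‖x‖ ≤ C * 1 * ‖x‖ := by gcongr
      _ = _ := by ring
  have hxiAn : ∀ x : B1 α n, IsAn (fun m => xi φ m x) := by
    intro x
    refine IsAn.of_poly (K2 * M * ‖x‖) 2 fun k => ?_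
    refine (hK2 φ hφ M hM k x).trans ?_
    have : ((k : ℝ) + 1) ^ (2 * ε) ≤ ((k : ℝ) + 1) ^ 2 := by
      rw [← Real.rpow_natCast]
      refine Real.rpow_le_rpow_of_exponent_le (by linarith [Nat.cast_nonneg (α := ℝ) k]) ?_
      push_cast; linarith
    calc K2 * M * ((k : ℝ) + 1) ^ (2 * ε) * ‖x‖ ≤ K2 * M * ((k : ℝ) + 1) ^ 2 * ‖x‖ := by gcongr
      _ = _ := by ring
  have hlowAn : ∀ x : B1 α n, IsAn (low φ x.co) := fun x => low_isAn hα0 hαn hφ hM (hcob x)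
  have hsb : ∀ (D : ℝ), Summable (fun k : ℕ => (D * ((k:ℝ) + 1) ^ (α + 2 * ε)) * (C * ((k:ℝ) + 1) ^ (-α)) ^ 2) := by
    intro D
    refine (hA1.mul_left (D * C ^ 2)).congr fun k => ?_
    rw [mul_pow, ← Real.rpow_natCast (((k:ℝ) + 1) ^ (-α)), ← Real.rpow_mul (hk0 k).le]
    have : ((k:ℝ) + 1) ^ (-α + 2 * ε) = ((k:ℝ) + 1) ^ (α + 2 * ε) * ((k:ℝ) + 1) ^ (-α * ((2:ℕ) : ℝ)) := by
      rw [← Real.rpow_add (hk0 k)]; congr 1; push_cast; ring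
    rw [this]; ring
  have hsc : ∀ (D : ℝ), Summable (fun k : ℕ => (D * ((k:ℝ) + 1) ^ (-1 - 6 * ε)) * (K2 * M * ((k:ℝ) + 1) ^ (2 * ε)) ^ 2) := by
    intro D
    refine (hA2.mul_left (D * (K2 * M) ^ 2)).congr fun k => ?_
    rw [mul_pow (K2 * M) (((k:ℝ) + 1) ^ (2 * ε)) 2, ← Real.rpow_natCast (((k:ℝ) + 1) ^ (2 * ε)), ← Real.rpow_mul (hk0 k).le]
    have : ((k:ℝ) + 1) ^ (-1 - 2 * ε) = ((k:ℝ) + 1) ^ (-1 - 6 * ε) * ((k:ℝ) + 1) ^ (2 * ε * ((2:ℕ) : ℝ)) := by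
      rw [← Real.rpow_add (hk0 k)]; congr 1; push_cast; ring
    rw [this]; ring
  refine ⟨fun k => C * ((k:ℝ) + 1) ^ (-α), fun k => K2 * M * ((k:ℝ) + 1) ^ (2 * ε),
    fun k => (2 * (K1 * M) ^ 2 * A1) * ((k:ℝ) + 1) ^ (α + 2 * ε), fun k => (2 * C3) * ((k:ℝ) + 1) ^ (-1 - 6 * ε),
    fun k => by positivity, fun k => by positivity, fun k x => hC x k, fun k x => hK2 φ hφ M hM k x,
    fun k => by positivity, fun k => by positivity, hsb _, hsc _, fun x => ?_, ?_⟩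
  · rw [uco_eq]; exact (hlowAn x).add (hxiAn x)
  intro x z hz
  have hδ : 0 < 1 - ‖z‖ := by linarith
  have hδ1 : 1 - ‖z‖ ≤ 1 := by linarith [norm_nonneg z]
  set δ := 1 - ‖z‖ with hδd
  -- summability of the P-series
  have hPs : ∀ D : ℝ, 0 ≤ D → Summable (fun k : ℕ => (D * ((k:ℝ) + 1) ^ (α + 2 * ε)) * ‖x.co k‖ ^ 2) := by
    intro D hD
    refine Summable.of_nonneg_of_le (fun k => by positivity) (fun k => ?_) ((hsb D).mul_right (‖x‖ ^ 2))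
    rw [mul_assoc (D * ((k:ℝ) + 1) ^ (α + 2 * ε)), ← mul_pow]
    gcongr
    exact hC x k
  have hQs : ∀ D : ℝ, 0 ≤ D → Summable (fun k : ℕ => (D * ((k:ℝ) + 1) ^ (-1 - 6 * ε)) * ‖xi φ k x‖ ^ 2) := by
    intro D hD
    refine Summable.of_nonneg_of_le (fun k => by positivity) (fun k => ?_) ((hsc D).mul_right (‖x‖ ^ 2))
    rw [mul_assoc (D * ((k:ℝ) + 1) ^ (-1 - 6 * ε)), ← mul_pow]
    gcongr
    exact hK2 φ hφ M hM k x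
  -- low part
  have hlow : (δ ^ α * ‖ev (low φ x.co) z‖) ^ 2 ≤ (K1 * M) ^ 2 * A1 * ∑' k : ℕ, ((k:ℝ) + 1) ^ (α + 2 * ε) * ‖x.co k‖ ^ 2 := by
    have hcs := cs_tsum (f := fun k : ℕ => ((k:ℝ) + 1) ^ ((-α + 2 * ε) / 2))
      (g := fun k : ℕ => ((k:ℝ) + 1) ^ ((α + 2 * ε) / 2) * ‖x.co k‖) (fun k => by positivity) (fun k => by positivity)
      (by
        refine hA1.congr fun k => ?_
        rw [← Real.rpow_natCast (((k:ℝ) + 1) ^ ((-α + 2 * ε) / 2)), ← Real.rpow_mul (hk0 k).le]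
        congr 1; push_cast; ring)
      (by
        refine (hPs 1 zero_le_one).congr fun k => ?_
        rw [mul_pow, ← Real.rpow_natCast (((k:ℝ) + 1) ^ ((α + 2 * ε) / 2)), ← Real.rpow_mul (hk0 k).le, one_mul]
        congr 2; push_cast; ring)
    have e1 : ∀ k : ℕ, (((k:ℝ) + 1) ^ ((-α + 2 * ε) / 2)) ^ 2 = ((k:ℝ) + 1) ^ (-α + 2 * ε) := by
      intro k
      rw [← Real.rpow_natCast (((k:ℝ) + 1) ^ ((-α + 2 * ε) / 2)), ← Real.rpow_mul (hk0 k).le]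
      congr 1; push_cast; ring
    have e2 : ∀ k : ℕ, (((k:ℝ) + 1) ^ ((α + 2 * ε) / 2) * ‖x.co k‖) ^ 2 = ((k:ℝ) + 1) ^ (α + 2 * ε) * ‖x.co k‖ ^ 2 := by
      intro k
      rw [mul_pow, ← Real.rpow_natCast (((k:ℝ) + 1) ^ ((α + 2 * ε) / 2)), ← Real.rpow_mul (hk0 k).le]
      congr 2; push_cast; ring
    have e3 : ∀ k : ℕ, ((k:ℝ) + 1) ^ ((-α + 2 * ε) / 2) * (((k:ℝ) + 1) ^ ((α + 2 * ε) / 2) * ‖x.co k‖) =
        ((k:ℝ) + 1) ^ (2 * ε) * ‖x.co k‖ := by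
      intro k
      rw [← mul_assoc, ← Real.rpow_add (hk0 k)]
      congr 2; ring
    simp_rw [e1, e2, e3] at hcs
    obtain ⟨hcs1, hcs2⟩ := hcs
    have h1 : ‖ev (low φ x.co) z‖ ≤ K1 * M * δ ^ (-α) * ∑' k : ℕ, ((k:ℝ) + 1) ^ (2 * ε) * ‖x.co k‖ := by
      rw [low_ev hα0 hαn hφ hM (hcob x) hz, ← tsum_mul_left]
      refine tsum_of_norm_bounded (hcs1.mul_left (K1 * M * δ ^ (-α))).hasSum fun k => ?_
      rw [norm_mul]
      calc ‖x.co k‖ * ‖ev (tail φ k k) z‖ ≤ ‖x.co k‖ * (K1 * M * δ ^ (-α) * ((k : ℝ) + 1) ^ (2 * ε)) := by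
            gcongr
            exact hK1 φ hφ M hM k k le_rfl (by omega) z hz
        _ = _ := by ring
    have h2 : δ ^ α * ‖ev (low φ x.co) z‖ ≤ K1 * M * ∑' k : ℕ, ((k:ℝ) + 1) ^ (2 * ε) * ‖x.co k‖ := by
      calc δ ^ α * ‖ev (low φ x.co) z‖ ≤ δ ^ α * (K1 * M * δ ^ (-α) * ∑' k : ℕ, ((k:ℝ) + 1) ^ (2 * ε) * ‖x.co k‖) := by
            gcongr
        _ = (δ ^ α * δ ^ (-α)) * (K1 * M * ∑' k : ℕ, ((k:ℝ) + 1) ^ (2 * ε) * ‖x.co k‖) := by ring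
        _ = _ := by rw [← Real.rpow_add hδ]; simp
    calc (δ ^ α * ‖ev (low φ x.co) z‖) ^ 2 ≤ (K1 * M * ∑' k : ℕ, ((k:ℝ) + 1) ^ (2 * ε) * ‖x.co k‖) ^ 2 := by gcongr
      _ = (K1 * M) ^ 2 * (∑' k : ℕ, ((k:ℝ) + 1) ^ (2 * ε) * ‖x.co k‖) ^ 2 := by ring
      _ ≤ (K1 * M) ^ 2 * (A1 * ∑' k : ℕ, ((k:ℝ) + 1) ^ (α + 2 * ε) * ‖x.co k‖ ^ 2) := by gcongr
      _ = _ := by ring
  -- high part
  have hhigh : (δ ^ α * ‖ev (fun m => xi φ m x) z‖) ^ 2 ≤ C3 * ∑' k : ℕ, ((k:ℝ) + 1) ^ (-1 - 6 * ε) * ‖xi φ k x‖ ^ 2 := by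
    obtain ⟨hg1, hg2⟩ := hC3 ‖z‖ (norm_nonneg z) hz
    have e1 : ∀ k : ℕ, (((k:ℝ) + 1) ^ ((1 + 6 * ε) / 2) * ‖z‖ ^ k) ^ 2 = ((k:ℝ) + 1) ^ (1 + 6 * ε) * (‖z‖ ^ k) ^ 2 := by
      intro k
      rw [mul_pow, ← Real.rpow_natCast (((k:ℝ) + 1) ^ ((1 + 6 * ε) / 2)), ← Real.rpow_mul (hk0 k).le]
      congr 2; push_cast; ring
    have e2 : ∀ k : ℕ, (((k:ℝ) + 1) ^ ((-1 - 6 * ε) / 2) * ‖xi φ k x‖) ^ 2 = ((k:ℝ) + 1) ^ (-1 - 6 * ε) * ‖xi φ k x‖ ^ 2 := by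
      intro k
      rw [mul_pow, ← Real.rpow_natCast (((k:ℝ) + 1) ^ ((-1 - 6 * ε) / 2)), ← Real.rpow_mul (hk0 k).le]
      congr 2; push_cast; ring
    have e3 : ∀ k : ℕ, (((k:ℝ) + 1) ^ ((1 + 6 * ε) / 2) * ‖z‖ ^ k) * (((k:ℝ) + 1) ^ ((-1 - 6 * ε) / 2) * ‖xi φ k x‖) =
        ‖xi φ k x‖ * ‖z‖ ^ k := by
      intro k
      have : ((k:ℝ) + 1) ^ ((1 + 6 * ε) / 2) * ((k:ℝ) + 1) ^ ((-1 - 6 * ε) / 2) = 1 := by
        rw [← Real.rpow_add (hk0 k), show (1 + 6 * ε) / 2 + (-1 - 6 * ε) / 2 = 0 by ring, Real.rpow_zero]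
      calc _ = (((k:ℝ) + 1) ^ ((1 + 6 * ε) / 2) * ((k:ℝ) + 1) ^ ((-1 - 6 * ε) / 2)) * (‖xi φ k x‖ * ‖z‖ ^ k) := by ring
        _ = _ := by rw [this, one_mul]
    have hcs := cs_tsum (f := fun k : ℕ => ((k:ℝ) + 1) ^ ((1 + 6 * ε) / 2) * ‖z‖ ^ k)
      (g := fun k : ℕ => ((k:ℝ) + 1) ^ ((-1 - 6 * ε) / 2) * ‖xi φ k x‖) (fun k => by positivity) (fun k => by positivity)
      (by simp_rw [e1]; exact hg1)
      (by simp_rw [e2]; simpa using hQs 1 zero_le_one)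
    simp_rw [e1, e2, e3] at hcs
    obtain ⟨hcs1, hcs2⟩ := hcs
    have h1 : ‖ev (fun m => xi φ m x) z‖ ≤ ∑' k : ℕ, ‖xi φ k x‖ * ‖z‖ ^ k := by
      refine tsum_of_norm_bounded hcs1.hasSum fun k => ?_
      rw [norm_mul, norm_pow]
    have h3 : (δ ^ α) ^ 2 * δ ^ (-(1 + 6 * ε) - 1) ≤ 1 := by
      rw [← Real.rpow_natCast (δ ^ α), ← Real.rpow_mul hδ.le, ← Real.rpow_add hδ]
      refine Real.rpow_le_one hδ.le hδ1 ?_
      push_cast; linarith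
    have hQ0 : 0 ≤ ∑' k : ℕ, ((k:ℝ) + 1) ^ (-1 - 6 * ε) * ‖xi φ k x‖ ^ 2 := tsum_nonneg fun _ => by positivity
    calc (δ ^ α * ‖ev (fun m => xi φ m x) z‖) ^ 2 = (δ ^ α) ^ 2 * ‖ev (fun m => xi φ m x) z‖ ^ 2 := by ring
      _ ≤ (δ ^ α) ^ 2 * (∑' k : ℕ, ‖xi φ k x‖ * ‖z‖ ^ k) ^ 2 := by gcongr
      _ ≤ (δ ^ α) ^ 2 * ((C3 * δ ^ (-(1 + 6 * ε) - 1)) * ∑' k : ℕ, ((k:ℝ) + 1) ^ (-1 - 6 * ε) * ‖xi φ k x‖ ^ 2) := by
          gcongr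
          refine hcs2.trans ?_
          gcongr
      _ = ((δ ^ α) ^ 2 * δ ^ (-(1 + 6 * ε) - 1)) * (C3 * ∑' k : ℕ, ((k:ℝ) + 1) ^ (-1 - 6 * ε) * ‖xi φ k x‖ ^ 2) := by ring
      _ ≤ 1 * (C3 * ∑' k : ℕ, ((k:ℝ) + 1) ^ (-1 - 6 * ε) * ‖xi φ k x‖ ^ 2) := by gcongr
      _ = _ := one_mul _
  rw [uco_eq, ev_add (hlowAn x) (hxiAn x) hz]
  have h5 : (δ ^ α * ‖ev (low φ x.co) z + ev (fun m => xi φ m x) z‖) ^ 2 ≤
      2 * (δ ^ α * ‖ev (low φ x.co) z‖) ^ 2 + 2 * (δ ^ α * ‖ev (fun m => xi φ m x) z‖) ^ 2 := by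
    have h6 : δ ^ α * ‖ev (low φ x.co) z + ev (fun m => xi φ m x) z‖ ≤
        δ ^ α * ‖ev (low φ x.co) z‖ + δ ^ α * ‖ev (fun m => xi φ m x) z‖ := by
      rw [← mul_add]
      gcongr
      exact norm_add_le _ _
    have h7 : 0 ≤ δ ^ α * ‖ev (low φ x.co) z + ev (fun m => xi φ m x) z‖ := by positivity
    nlinarith [sq_nonneg (δ ^ α * ‖ev (low φ x.co) z‖ - δ ^ α * ‖ev (fun m => xi φ m x) z‖)]
  refine h5.trans ?_
  clear_value A1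
  have e4 : ∑' k : ℕ, (2 * (K1 * M) ^ 2 * A1) * ((k:ℝ) + 1) ^ (α + 2 * ε) * ‖x.co k‖ ^ 2 =
      2 * ((K1 * M) ^ 2 * A1 * ∑' k : ℕ, ((k:ℝ) + 1) ^ (α + 2 * ε) * ‖x.co k‖ ^ 2) := by
    rw [← tsum_mul_left, ← tsum_mul_left]
    exact tsum_congr fun k => by ring
  have e5 : ∑' k : ℕ, (2 * C3) * ((k:ℝ) + 1) ^ (-1 - 6 * ε) * ‖xi φ k x‖ ^ 2 =
      2 * (C3 * ∑' k : ℕ, ((k:ℝ) + 1) ^ (-1 - 6 * ε) * ‖xi φ k x‖ ^ 2) := by
    rw [← tsum_mul_left, ← tsum_mul_left]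
    exact tsum_congr fun k => by ring
  rw [e4, e5]
  linarith

theorem positive (hα : 1 < α) (hαn : α < n) (φ : Binf α) :
    ∃ u : B1 α n →L[ℂ] Binf α, IsHankel φ u ∧ IsTwoSumming u := by
  have hM := φ.ev_le
  obtain ⟨b, c, p, q, hb, hc, hf, hg, hp, hq, hs, ht, hAn, hest⟩ := uco_bound hα hαn φ.co φ.isAn ‖φ‖ hM
  have hPs : ∀ x : B1 α n, Summable (fun k => p k * ‖x.co k‖ ^ 2) := by
    intro x
    refine Summable.of_nonneg_of_le (fun k => mul_nonneg (hp k) (by positivity)) (fun k => ?_) (hs.mul_right (‖x‖ ^ 2))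
    rw [mul_assoc, ← mul_pow]
    exact mul_le_mul_of_nonneg_left (pow_le_pow_left₀ (norm_nonneg _) (hf k x) 2) (hp k)
  have hQs : ∀ x : B1 α n, Summable (fun k => q k * ‖xi φ.co k x‖ ^ 2) := by
    intro x
    refine Summable.of_nonneg_of_le (fun k => mul_nonneg (hq k) (by positivity)) (fun k => ?_) (ht.mul_right (‖x‖ ^ 2))
    rw [mul_assoc, ← mul_pow]
    exact mul_le_mul_of_nonneg_left (pow_le_pow_left₀ (norm_nonneg _) (hg k x) 2) (hq k)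
  have hR0 : ∀ x : B1 α n, 0 ≤ (∑' k, p k * ‖x.co k‖ ^ 2) + ∑' k, q k * ‖xi φ.co k x‖ ^ 2 := fun x =>
    add_nonneg (tsum_nonneg fun k => mul_nonneg (hp k) (by positivity)) (tsum_nonneg fun k => mul_nonneg (hq k) (by positivity))
  have hz' : ∀ (x : B1 α n) (z : ℂ), ‖z‖ < 1 → (1 - ‖z‖) ^ α * ‖ev (uco φ.co x) z‖ ≤
      Real.sqrt ((∑' k, p k * ‖x.co k‖ ^ 2) + ∑' k, q k * ‖xi φ.co k x‖ ^ 2) := fun x z hz =>
    Real.le_sqrt_of_sq_le (hest x z hz)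
  have hmem : ∀ x : B1 α n, uco φ.co x ∈ Binfsub α := by
    intro x
    refine ⟨hAn x, Real.sqrt ((∑' k, p k * ‖x.co k‖ ^ 2) + ∑' k, q k * ‖xi φ.co k x‖ ^ 2), fun z hz => ?_⟩
    have h := hz' x z hz
    have hδ : 0 < 1 - ‖z‖ := by linarith
    have hδ' : 0 < (1 - ‖z‖) ^ α := by positivity
    rw [Real.rpow_neg hδ.le, ← div_eq_mul_inv, le_div_iff₀ hδ', mul_comm]
    exact h
  set U : B1 α n →ₗ[ℂ] Binf α :=
    { toFun := fun x => (⟨uco φ.co x, hmem x⟩ : Binfsub α)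
      map_add' := by
        intro x y
        apply Binf.ext_co
        funext m
        change uco φ.co (x + y) m = uco φ.co x m + uco φ.co y m
        unfold uco
        rw [xi_add hα.le hαn φ.isAn hM]
        have : ∀ k, (x + y).co k = x.co k + y.co k := fun k => rfl
        simp_rw [this, mul_add, Finset.sum_add_distrib]
        ring
      map_smul' := by
        intro c x
        apply Binf.ext_co
        funext m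
        change uco φ.co (c • x) m = c * uco φ.co x m
        unfold uco
        rw [xi_smul, mul_add, Finset.mul_sum]
        congr 1
        refine Finset.sum_congr rfl fun k _ => ?_
        rw [B1.co_smul, Pi.smul_apply, smul_eq_mul]; ring } with hU
  have hUco : ∀ x, (U x).co = uco φ.co x := fun x => rfl
  have hUn : ∀ x, ‖U x‖ ^ 2 ≤ (∑' k, p k * ‖x.co k‖ ^ 2) + ∑' k, q k * ‖xi φ.co k x‖ ^ 2 := by
    intro x
    have h1 : ‖U x‖ ≤ Real.sqrt ((∑' k, p k * ‖x.co k‖ ^ 2) + ∑' k, q k * ‖xi φ.co k x‖ ^ 2) := by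
      refine Binf.norm_le _ _ fun z hz => ?_
      rw [hUco]
      exact hz' x z hz
    calc ‖U x‖ ^ 2 ≤ (Real.sqrt ((∑' k, p k * ‖x.co k‖ ^ 2) + ∑' k, q k * ‖xi φ.co k x‖ ^ 2)) ^ 2 := by
          exact pow_le_pow_left₀ (norm_nonneg _) h1 2
      _ = _ := Real.sq_sqrt (hR0 x)
  have hAB0 : 0 ≤ (∑' k, p k * b k ^ 2) + ∑' k, q k * c k ^ 2 :=
    add_nonneg (tsum_nonneg fun k => mul_nonneg (hp k) (by positivity)) (tsum_nonneg fun k => mul_nonneg (hq k) (by positivity))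
  have hbound : ∀ x, ‖U x‖ ≤ Real.sqrt ((∑' k, p k * b k ^ 2) + ∑' k, q k * c k ^ 2) * ‖x‖ := by
    intro x
    have h1 : ‖U x‖ ^ 2 ≤ (Real.sqrt ((∑' k, p k * b k ^ 2) + ∑' k, q k * c k ^ 2) * ‖x‖) ^ 2 := by
      rw [mul_pow, Real.sq_sqrt hAB0, add_mul, ← tsum_mul_right, ← tsum_mul_right]
      refine (hUn x).trans (add_le_add ?_ ?_)
      · refine (hPs x).tsum_le_tsum (fun k => ?_) (hs.mul_right _)
        rw [mul_assoc, ← mul_pow]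
        exact mul_le_mul_of_nonneg_left (pow_le_pow_left₀ (norm_nonneg _) (hf k x) 2) (hp k)
      · refine (hQs x).tsum_le_tsum (fun k => ?_) (ht.mul_right _)
        rw [mul_assoc, ← mul_pow]
        exact mul_le_mul_of_nonneg_left (pow_le_pow_left₀ (norm_nonneg _) (hg k x) 2) (hq k)
    exact le_of_sq_le_sq h1 (by positivity)
  refine ⟨LinearMap.mkContinuous U _ hbound, ?_, ?_⟩
  · intro x m
    exact uco_hankel hα.le hαn φ.isAn hM x m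
  · set f : ℕ → B1 α n →ₗ[ℂ] ℂ := fun k =>
      { toFun := fun x => x.co k
        map_add' := fun x y => rfl
        map_smul' := fun c x => rfl } with hfd
    set g : ℕ → B1 α n →ₗ[ℂ] ℂ := fun k =>
      { toFun := fun x => xi φ.co k x
        map_add' := fun x y => xi_add hα.le hαn φ.isAn hM k x y
        map_smul' := fun c x => xi_smul φ.co k c x } with hgd
    exact two_summing_of _ f g b c hb hc hf hg p q hp hq hs ht hUn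

end Pool.Agent.Helper630.TwoSumming
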