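import Pool.Agent.Helper630.TwoSumming.Basic

open Finset MeasureTheory Filter Topology

namespace Pool.Agent.Helper630.TwoSumming

/-- coefficients of the `n`-th derivative -/
def dco (n : ℕ) (a : ℕ → ℂ) (k : ℕ) : ℂ := ((k + n).descFactorial n : ℂ) * a (k + n)

lemma IsAn.of_bdd {a : ℕ → ℂ} (h : ∀ r : ℝ, 0 ≤ r → r < 1 → ∃ C, ∀ k, ‖a k‖ * r ^ k ≤ C) : IsAn a := by
  intro r hr0 hr1
  obtain ⟨s, hrs, hs1⟩ := exists_between hr1
  have hs : 0 < s := hr0.trans_lt hrs
  obtain ⟨C, hC⟩ := h s hs.le hs1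
  have hq : r / s < 1 := by rw [div_lt_one hs]; exact hrs
  have hq0 : 0 ≤ r / s := by positivity
  refine Summable.of_nonneg_of_le (fun k => by positivity) (fun k => ?_)
    ((summable_geometric_of_lt_one hq0 hq).mul_left C)
  have := hC k
  have hsk : s ^ k ≠ 0 := by positivity
  calc ‖a k‖ * r ^ k = (‖a k‖ * s ^ k) * (r / s) ^ k := by
        rw [div_pow]; field_simp
    _ ≤ C * (r / s) ^ k := by gcongr

lemma IsAn.bdd {a : ℕ → ℂ} (h : IsAn a) (r : ℝ) (hr0 : 0 ≤ r) (hr1 : r < 1) :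
    ∃ C, 0 ≤ C ∧ ∀ k, ‖a k‖ * r ^ k ≤ C :=
  ⟨∑' k, ‖a k‖ * r ^ k, tsum_nonneg fun _ => by positivity,
    fun k => (h r hr0 hr1).le_tsum k (fun j _ => by positivity)⟩

lemma IsAn.summable {a : ℕ → ℂ} (h : IsAn a) {z : ℂ} (hz : ‖z‖ < 1) : Summable (fun k => a k * z ^ k) := by
  refine Summable.of_norm ?_
  simpa [norm_mul, norm_pow] using h ‖z‖ (norm_nonneg _) hz

lemma IsAn.add {a b : ℕ → ℂ} (ha : IsAn a) (hb : IsAn b) : IsAn (a + b) := by
  intro r hr0 hr1
  refine Summable.of_nonneg_of_le (fun k => by positivity) (fun k => ?_) ((ha r hr0 hr1).add (hb r hr0 hr1))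
  rw [Pi.add_apply, ← add_mul]
  gcongr
  exact norm_add_le _ _

lemma IsAn.smul {a : ℕ → ℂ} (c : ℂ) (ha : IsAn a) : IsAn (c • a) := by
  intro r hr0 hr1
  refine ((ha r hr0 hr1).mul_left ‖c‖).congr fun k => ?_
  rw [Pi.smul_apply, smul_eq_mul, norm_mul]; ring

lemma IsAn.zero : IsAn 0 := by
  intro r _ _
  simpa using summable_zero

lemma ev_add {a b : ℕ → ℂ} (ha : IsAn a) (hb : IsAn b) {z : ℂ} (hz : ‖z‖ < 1) :
    ev (a + b) z = ev a z + ev b z := by
  unfold ev
  rw [← (ha.summable hz).tsum_add (hb.summable hz)]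
  refine tsum_congr fun k => ?_
  rw [Pi.add_apply]; ring

lemma ev_smul (c : ℂ) (a : ℕ → ℂ) (z : ℂ) : ev (c • a) z = c * ev a z := by
  unfold ev
  rw [← tsum_mul_left]
  refine tsum_congr fun k => ?_
  rw [Pi.smul_apply, smul_eq_mul]; ring

lemma ev_zero (z : ℂ) : ev 0 z = 0 := by
  unfold ev; simp

/-- polynomially weighted shifts of analytic sequences are analytic -/
lemma IsAn.poly_shift {a : ℕ → ℂ} (ha : IsAn a) (m : ℕ) (w : ℕ → ℂ) (d : ℕ) (B : ℝ)
    (hw : ∀ k, ‖w k‖ ≤ B * ((k : ℝ) + 1) ^ d) : IsAn (fun k => w k * a (k + m)) := by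
  apply IsAn.of_bdd
  intro r hr0 hr1
  rcases hr0.eq_or_lt with h0 | hpos
  · subst h0
    refine ⟨‖w 0 * a (0 + m)‖, fun k => ?_⟩
    rcases Nat.eq_zero_or_pos k with rfl | hk
    · simp
    · rw [zero_pow (by omega), mul_zero]; positivity
  obtain ⟨s, hrs, hs1⟩ := exists_between hr1
  have hs0 : 0 < s := hr0.trans_lt hrs
  obtain ⟨C, hC0, hC⟩ := ha.bdd s hs0.le hs1
  have hq0 : 0 ≤ r / s := by positivity
  have hq : r / s < 1 := by rw [div_lt_one hs0]; exact hrs
  -- (k+1)^d q^k bounded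
  have hb : ∃ D, ∀ k : ℕ, ((k : ℝ) + 1) ^ d * (r / s) ^ k ≤ D := by
    have h1 := summable_pow_mul_geometric_of_norm_lt_one d (r := r / s) (by
      rw [Real.norm_of_nonneg hq0]; exact hq)
    have h2 : Summable (fun k : ℕ => ((k + 1 : ℕ) : ℝ) ^ d * (r / s) ^ (k + 1)) :=
      (summable_nat_add_iff (f := fun k : ℕ => ((k : ℕ) : ℝ) ^ d * (r / s) ^ k) 1).2 h1
    have hq' : 0 < r / s := by positivity
    refine ⟨(∑' k : ℕ, ((k + 1 : ℕ) : ℝ) ^ d * (r / s) ^ (k + 1)) / (r / s), fun k => ?_⟩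
    rw [le_div_iff₀ hq']
    have := h2.le_tsum k (fun j _ => by positivity)
    rw [pow_succ, ← mul_assoc, Nat.cast_add, Nat.cast_one] at this
    exact this
  obtain ⟨D, hD⟩ := hb
  have hB : 0 ≤ B := by
    have := (norm_nonneg _).trans (hw 0)
    simpa using this
  refine ⟨B * D * (C / s ^ m), fun k => ?_⟩
  have h3 : ‖a (k + m)‖ ≤ C / s ^ (k + m) := by
    rw [le_div_iff₀ (by positivity)]; exact hC _
  rw [norm_mul]
  calc ‖w k‖ * ‖a (k + m)‖ * r ^ k ≤ (B * ((k : ℝ) + 1) ^ d) * (C / s ^ (k + m)) * r ^ k := by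
        gcongr; exact hw k
    _ = B * (((k : ℝ) + 1) ^ d * (r / s) ^ k) * (C / s ^ m) := by
        rw [pow_add, div_pow]; field_simp
    _ ≤ B * D * (C / s ^ m) := by gcongr; exact hD k

lemma IsAn.dco {a : ℕ → ℂ} (ha : IsAn a) (n : ℕ) : IsAn (dco n a) := by
  refine ha.poly_shift n (fun k => ((k + n).descFactorial n : ℂ)) n ((n + 1 : ℝ) ^ n) (fun k => ?_)
  rw [Complex.norm_natCast]
  have : (k + n).descFactorial n ≤ (k + n) ^ n := Nat.descFactorial_le_pow _ _
  calc (((k + n).descFactorial n : ℕ) : ℝ) ≤ (((k + n) ^ n : ℕ) : ℝ) := by exact_mod_cast this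
    _ = ((k : ℝ) + n) ^ n := by push_cast; ring
    _ ≤ ((n + 1 : ℝ) * (k + 1)) ^ n := by
        gcongr
        have : (0:ℝ) ≤ n * k := by positivity
        nlinarith
    _ = _ := by rw [mul_pow]

lemma hasDerivAt_ev {a : ℕ → ℂ} (ha : IsAn a) {z : ℂ} (hz : ‖z‖ < 1) :
    HasDerivAt (ev a) (ev (dco 1 a) z) z := by
  set r := (1 + ‖z‖) / 2 with hr
  have hr0 : 0 < r := by rw [hr]; positivity
  have hr1 : r < 1 := by rw [hr]; linarith
  have hzr : ‖z‖ < r := by rw [hr]; linarith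
  have hsum := (ha.dco 1) r hr0.le hr1
  have hsum' : Summable (fun k : ℕ => (k : ℝ) * ‖a k‖ * r ^ (k - 1)) := by
    rw [← summable_nat_add_iff 1]
    refine hsum.congr fun k => ?_
    rw [TwoSumming.dco, norm_mul, Complex.norm_natCast, Nat.descFactorial_one, Nat.add_sub_cancel]
  have key := hasDerivAt_tsum_of_isPreconnected (g := fun k z => a k * z ^ k)
    (g' := fun k z => a k * (k * z ^ (k - 1))) (t := Metric.ball (0:ℂ) r) hsum' Metric.isOpen_ball
    (convex_ball _ _).isPreconnected (fun k y _ => (hasDerivAt_pow k y).const_mul (a k)) (fun k y hy => by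
      rw [mem_ball_zero_iff] at hy
      rw [norm_mul, norm_mul, norm_pow, Complex.norm_natCast]
      calc ‖a k‖ * (k * ‖y‖ ^ (k - 1)) ≤ ‖a k‖ * (k * r ^ (k - 1)) := by gcongr
        _ = k * ‖a k‖ * r ^ (k - 1) := by ring)
    (Metric.mem_ball_self hr0) (ha.summable (by simp)) (mem_ball_zero_iff.2 hzr)
  have e : ev (dco 1 a) z = ∑' k, a k * (k * z ^ (k - 1)) := by
    have hs2 : Summable (fun k : ℕ => a k * ((k:ℂ) * z ^ (k - 1))) := by
      rw [← summable_nat_add_iff 1]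
      refine ((ha.dco 1).summable hz).congr fun k => ?_
      simp [TwoSumming.dco]; ring
    rw [hs2.tsum_eq_zero_add]
    unfold ev
    simp only [Nat.cast_zero, zero_mul, mul_zero, zero_add]
    refine tsum_congr fun k => ?_
    simp [TwoSumming.dco]; ring
  rw [e]
  exact key

lemma dco_dco (m : ℕ) (a : ℕ → ℂ) : dco 1 (dco m a) = dco (m + 1) a := by
  funext k
  unfold dco
  rw [← mul_assoc, show k + 1 + m = k + (m + 1) by ring]
  congr 1
  rw [show (k + (m + 1)).descFactorial (m + 1) = (k + 1) * (k + (m + 1)).descFactorial m by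
    rw [Nat.descFactorial_succ]; congr 1; omega]
  simp [Nat.descFactorial_one]

lemma iteratedDeriv_ev {a : ℕ → ℂ} (ha : IsAn a) (n : ℕ) :
    ∀ z : ℂ, ‖z‖ < 1 → iteratedDeriv n (ev a) z = ev (dco n a) z := by
  induction n with
  | zero =>
    intro z hz
    rw [iteratedDeriv_zero]
    congr 1
    funext k
    simp [TwoSumming.dco]
  | succ n ih =>
    intro z hz
    rw [iteratedDeriv_succ]
    have h1 : iteratedDeriv n (ev a) =ᶠ[𝓝 z] ev (dco n a) := by
      filter_upwards [Metric.isOpen_ball.mem_nhds (mem_ball_zero_iff.2 hz)] with w hw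
      exact ih w (mem_ball_zero_iff.1 hw)
    rw [h1.deriv_eq, (hasDerivAt_ev (ha.dco n) hz).deriv, dco_dco]

lemma continuousOn_ev {a : ℕ → ℂ} (ha : IsAn a) : ContinuousOn (ev a) (Metric.ball 0 1) := fun _ hz =>
  (hasDerivAt_ev ha (mem_ball_zero_iff.1 hz)).continuousAt.continuousWithinAt

lemma ev_at_zero (a : ℕ → ℂ) : ev a 0 = a 0 := by
  unfold ev
  rw [tsum_eq_single 0]
  · simp
  · intro k hk; simp [hk]

lemma integral_exp_int (n : ℤ) : ∫ t in (-Real.pi)..Real.pi, Complex.exp (n * t * Complex.I)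
    = if n = 0 then (2 * Real.pi : ℂ) else 0 := by
  split_ifs with h
  · subst h
    simp
    ring
  · have hc : (n : ℂ) * Complex.I ≠ 0 := mul_ne_zero (Int.cast_ne_zero.2 h) Complex.I_ne_zero
    have : ∀ t : ℝ, Complex.exp (n * t * Complex.I) = Complex.exp ((n * Complex.I) * t) := by
      intro t; congr 1; ring
    simp_rw [this]
    rw [integral_exp_mul_complex hc]
    have e : Complex.exp (n * Complex.I * (Real.pi : ℝ)) = Complex.exp (n * Complex.I * ((-Real.pi : ℝ) : ℝ)) := by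
      rw [Complex.exp_eq_exp_iff_exists_int]
      refine ⟨n, ?_⟩
      push_cast; ring
    rw [e, sub_self, zero_div]

/-- circle orthogonality -/
lemma circle_orth {c : ℕ → ℂ} (hc : IsAn c) (k : ℕ) {r : ℝ} (hr0 : 0 ≤ r) (hr1 : r < 1) :
    ∫ t in (-Real.pi)..Real.pi, (starRingEnd ℂ ((r : ℂ) * Complex.exp (t * Complex.I))) ^ k *
      ev c ((r : ℂ) * Complex.exp (t * Complex.I)) = 2 * Real.pi * (c k * (r : ℂ) ^ (2 * k)) := by
  have hterm : ∀ t : ℝ, (starRingEnd ℂ ((r : ℂ) * Complex.exp (t * Complex.I))) ^ k *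
      ev c ((r : ℂ) * Complex.exp (t * Complex.I)) =
      ∑' j : ℕ, (c j * (r : ℂ) ^ (j + k)) * Complex.exp (((j : ℤ) - (k : ℤ) : ℤ) * t * Complex.I) := by
    intro t
    unfold ev
    rw [← tsum_mul_left]
    refine tsum_congr fun j => ?_
    rw [map_mul, Complex.conj_ofReal, ← Complex.exp_conj, map_mul, Complex.conj_ofReal, Complex.conj_I,
      mul_pow, mul_pow, ← Complex.exp_nat_mul, ← Complex.exp_nat_mul]
    have : Complex.exp (((j : ℤ) - (k : ℤ) : ℤ) * t * Complex.I)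
      = Complex.exp (k * (t * -Complex.I)) * Complex.exp (j * (t * Complex.I)) := by
      rw [← Complex.exp_add]; congr 1; push_cast; ring
    rw [this, pow_add]; ring
  simp_rw [hterm]
  have hs : Summable (fun j => ‖c j * (r : ℂ) ^ (j + k)‖) := by
    refine Summable.of_nonneg_of_le (fun _ => norm_nonneg _) (fun j => ?_) (hc r hr0 hr1)
    rw [norm_mul, norm_pow, Complex.norm_real, Real.norm_of_nonneg hr0, pow_add, ← mul_assoc]
    exact mul_le_of_le_one_right (by positivity) (pow_le_one₀ hr0 hr1.le)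
  have hI := intervalIntegral.hasSum_integral_of_dominated_convergence (μ := volume) (a := -Real.pi) (b := Real.pi)
    (F := fun (j : ℕ) (t : ℝ) => (c j * (r : ℂ) ^ (j + k)) * Complex.exp (((j : ℤ) - (k : ℤ) : ℤ) * t * Complex.I))
    (f := fun t : ℝ => ∑' j : ℕ, (c j * (r : ℂ) ^ (j + k)) * Complex.exp (((j : ℤ) - (k : ℤ) : ℤ) * t * Complex.I))
    (fun j _ => ‖c j * (r : ℂ) ^ (j + k)‖) (fun j => (by fun_prop : Continuous _).aestronglyMeasurable)
    (fun j => ae_of_all _ fun t _ => by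
      rw [norm_mul]
      have : ‖Complex.exp (((j : ℤ) - (k : ℤ) : ℤ) * t * Complex.I)‖ = 1 := by
        have := Complex.norm_exp_ofReal_mul_I ((((j : ℤ) - (k : ℤ) : ℤ) : ℝ) * t)
        push_cast at this ⊢
        exact this
      rw [this, mul_one])
    (ae_of_all _ fun t _ => hs) (by simp) (ae_of_all _ fun t _ => ?_)
  · rw [← hI.tsum_eq]
    rw [tsum_eq_single k]
    · rw [intervalIntegral.integral_const_mul, integral_exp_int]
      rw [if_pos (by simp), two_mul k]
      ring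
    · intro j hj
      rw [intervalIntegral.integral_const_mul, integral_exp_int, if_neg, mul_zero]
      intro h
      apply hj
      omega
  · refine Summable.hasSum (Summable.of_norm (hs.congr fun j => ?_))
    rw [norm_mul (c j * (r : ℂ) ^ (j + k))]
    have : ‖Complex.exp (((j : ℤ) - (k : ℤ) : ℤ) * t * Complex.I)‖ = 1 := by
      have := Complex.norm_exp_ofReal_mul_I ((((j : ℤ) - (k : ℤ) : ℤ) : ℝ) * t)
      push_cast at this ⊢
      exact this
    rw [this, mul_one]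

/-- polar coordinates on the unit disc, nonnegative version -/
lemma polar_lintegral (f : ℂ → ENNReal) :
    ∫⁻ z in Metric.ball (0:ℂ) 1, f z = ∫⁻ p in Set.Ioo (0:ℝ) 1 ×ˢ Set.Ioo (-Real.pi) Real.pi,
      ENNReal.ofReal p.1 * f ((p.1 : ℂ) * Complex.exp (p.2 * Complex.I)) := by
  rw [← lintegral_indicator Metric.isOpen_ball.measurableSet, ← Complex.lintegral_comp_polarCoord_symm,
    ← lintegral_indicator (measurableSet_Ioo.prod measurableSet_Ioo),
    ← lintegral_indicator (by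
      change MeasurableSet (Set.Ioi (0 : ℝ) ×ˢ Set.Ioo (-Real.pi) Real.pi)
      exact measurableSet_Ioi.prod measurableSet_Ioo)]
  refine lintegral_congr fun p => ?_
  have hsymm : Complex.polarCoord.symm p = (p.1 : ℂ) * Complex.exp (p.2 * Complex.I) := by
    rw [Complex.polarCoord_symm_apply, Complex.exp_mul_I]
    simp
  have htar : p ∈ polarCoord.target ↔ 0 < p.1 ∧ -Real.pi < p.2 ∧ p.2 < Real.pi := by
    change p ∈ Set.Ioi (0 : ℝ) ×ˢ Set.Ioo (-Real.pi) Real.pi ↔ _
    simp [Set.mem_prod]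
  by_cases hp : p ∈ polarCoord.target
  · rw [Set.indicator_of_mem hp]
    rw [htar] at hp
    rw [hsymm]
    by_cases h1 : p.1 < 1
    · rw [Set.indicator_of_mem (by
        rw [mem_ball_zero_iff, norm_mul, Complex.norm_real, Complex.norm_exp_ofReal_mul_I, mul_one,
          Real.norm_of_nonneg hp.1.le]; exact h1), Set.indicator_of_mem (by
        exact ⟨⟨hp.1, h1⟩, hp.2⟩)]
      rfl
    · rw [Set.indicator_of_notMem (by
        rw [mem_ball_zero_iff, norm_mul, Complex.norm_real, Complex.norm_exp_ofReal_mul_I, mul_one,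
          Real.norm_of_nonneg hp.1.le]; exact h1), Set.indicator_of_notMem (by
        exact fun h => h1 h.1.2)]
      simp
  · rw [Set.indicator_of_notMem hp, Set.indicator_of_notMem]
    rw [htar] at hp
    exact fun h => hp ⟨h.1.1, h.2⟩

lemma polar_integral (f : ℂ → ℂ) :
    ∫ z in Metric.ball (0:ℂ) 1, f z = ∫ p in Set.Ioo (0:ℝ) 1 ×ˢ Set.Ioo (-Real.pi) Real.pi,
      (p.1 : ℂ) * f ((p.1 : ℂ) * Complex.exp (p.2 * Complex.I)) := by
  rw [← integral_indicator Metric.isOpen_ball.measurableSet, ← Complex.integral_comp_polarCoord_symm,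
    ← integral_indicator (measurableSet_Ioo.prod measurableSet_Ioo),
    ← integral_indicator (by
      change MeasurableSet (Set.Ioi (0 : ℝ) ×ˢ Set.Ioo (-Real.pi) Real.pi)
      exact measurableSet_Ioi.prod measurableSet_Ioo)]
  refine integral_congr_ae (ae_of_all _ fun p => ?_)
  have hsymm : Complex.polarCoord.symm p = (p.1 : ℂ) * Complex.exp (p.2 * Complex.I) := by
    rw [Complex.polarCoord_symm_apply, Complex.exp_mul_I]
    simp
  have htar : p ∈ polarCoord.target ↔ 0 < p.1 ∧ -Real.pi < p.2 ∧ p.2 < Real.pi := by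
    change p ∈ Set.Ioi (0 : ℝ) ×ˢ Set.Ioo (-Real.pi) Real.pi ↔ _
    simp [Set.mem_prod]
  change Set.indicator _ _ p = Set.indicator _ _ p
  by_cases hp : p ∈ polarCoord.target
  · rw [Set.indicator_of_mem hp]
    rw [htar] at hp
    rw [hsymm]
    by_cases h1 : p.1 < 1
    · rw [Set.indicator_of_mem (by
        rw [mem_ball_zero_iff, norm_mul, Complex.norm_real, Complex.norm_exp_ofReal_mul_I, mul_one,
          Real.norm_of_nonneg hp.1.le]; exact h1), Set.indicator_of_mem (by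
        exact ⟨⟨hp.1, h1⟩, hp.2⟩)]
      rfl
    · rw [Set.indicator_of_notMem (by
        rw [mem_ball_zero_iff, norm_mul, Complex.norm_real, Complex.norm_exp_ofReal_mul_I, mul_one,
          Real.norm_of_nonneg hp.1.le]; exact h1), Set.indicator_of_notMem (by
        exact fun h => h1 h.1.2)]
      simp
  · rw [Set.indicator_of_notMem hp, Set.indicator_of_notMem]
    rw [htar] at hp
    exact fun h => hp ⟨h.1.1, h.2⟩

/-- monomial orthogonality on the disc -/
lemma disc_orth {c : ℕ → ℂ} (hc : IsAn c) (k : ℕ) (w : ℝ → ℝ) (hw : ContinuousOn w (Set.Ico 0 1))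
    (hint : IntegrableOn (fun z : ℂ => ev c z * w ‖z‖) (Metric.ball 0 1)) :
    ∫ z in Metric.ball (0:ℂ) 1, (starRingEnd ℂ z) ^ k * ev c z * w ‖z‖ =
      2 * Real.pi * c k * ((∫ r in Set.Ioo (0:ℝ) 1, r ^ (2 * k + 1) * w r : ℝ) : ℂ) := by
  have hcont : ContinuousOn (fun p : ℝ × ℝ => (p.1 : ℂ) * ((starRingEnd ℂ ((p.1 : ℂ) * Complex.exp (p.2 * Complex.I))) ^ k *
      ev c ((p.1 : ℂ) * Complex.exp (p.2 * Complex.I)) * w ‖(p.1 : ℂ) * Complex.exp (p.2 * Complex.I)‖))
      (Set.Ioo (0:ℝ) 1 ×ˢ Set.Ioo (-Real.pi) Real.pi) := by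
    have hmap : ContinuousOn (fun p : ℝ × ℝ => (p.1 : ℂ) * Complex.exp (p.2 * Complex.I))
      (Set.Ioo (0:ℝ) 1 ×ˢ Set.Ioo (-Real.pi) Real.pi) := by fun_prop
    have hm1 : Set.MapsTo (fun p : ℝ × ℝ => (p.1 : ℂ) * Complex.exp (p.2 * Complex.I))
      (Set.Ioo (0:ℝ) 1 ×ˢ Set.Ioo (-Real.pi) Real.pi) (Metric.ball 0 1) := by
      intro p hp
      rw [mem_ball_zero_iff, norm_mul, Complex.norm_real, Complex.norm_exp_ofReal_mul_I, mul_one,
          Real.norm_of_nonneg hp.1.1.le]; exact hp.1.2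
    have hm2 : Set.MapsTo (fun p : ℝ × ℝ => ‖(p.1 : ℂ) * Complex.exp (p.2 * Complex.I)‖)
      (Set.Ioo (0:ℝ) 1 ×ˢ Set.Ioo (-Real.pi) Real.pi) (Set.Ico 0 1) := by
      intro p hp
      refine ⟨norm_nonneg _, ?_⟩
      change ‖(p.1 : ℂ) * Complex.exp (p.2 * Complex.I)‖ < 1
      rw [norm_mul, Complex.norm_real, Complex.norm_exp_ofReal_mul_I, mul_one,
          Real.norm_of_nonneg hp.1.1.le]; exact hp.1.2
    refine ContinuousOn.mul (by fun_prop) (ContinuousOn.mul (ContinuousOn.mul ?_ ?_) ?_)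
    · exact (Complex.continuous_conj.comp_continuousOn hmap).pow k
    · exact (continuousOn_ev hc).comp hmap hm1
    · exact Complex.continuous_ofReal.comp_continuousOn (hw.comp hmap.norm hm2)
  have hint2 : IntegrableOn (fun p : ℝ × ℝ => (p.1 : ℂ) * ((starRingEnd ℂ ((p.1 : ℂ) * Complex.exp (p.2 * Complex.I))) ^ k *
      ev c ((p.1 : ℂ) * Complex.exp (p.2 * Complex.I)) * w ‖(p.1 : ℂ) * Complex.exp (p.2 * Complex.I)‖))
      (Set.Ioo (0:ℝ) 1 ×ˢ Set.Ioo (-Real.pi) Real.pi) := by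
    refine ⟨hcont.aestronglyMeasurable (measurableSet_Ioo.prod measurableSet_Ioo), ?_⟩
    have h1 := hint.2
    unfold HasFiniteIntegral at h1 ⊢
    rw [polar_lintegral] at h1
    refine lt_of_le_of_lt (setLIntegral_mono_ae' (measurableSet_Ioo.prod measurableSet_Ioo) (ae_of_all _ fun p hp => ?_)) h1
    rw [enorm_mul, mul_assoc, enorm_mul]
    have e1 : ‖(p.1 : ℂ)‖ₑ = ENNReal.ofReal p.1 := by
      rw [← ofReal_norm, Complex.norm_real, Real.norm_of_nonneg hp.1.1.le]
    rw [e1]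
    gcongr
    have e2 : ‖(starRingEnd ℂ ((p.1 : ℂ) * Complex.exp (p.2 * Complex.I))) ^ k‖ₑ ≤ 1 := by
      rw [← ofReal_norm, norm_pow, RCLike.norm_conj, norm_mul, Complex.norm_real, Complex.norm_exp_ofReal_mul_I, mul_one,
          Real.norm_of_nonneg hp.1.1.le]
      exact ENNReal.ofReal_le_one.2 (pow_le_one₀ hp.1.1.le hp.1.2.le)
    exact mul_le_of_le_one_left (by positivity) e2
  rw [polar_integral, Measure.volume_eq_prod, setIntegral_prod _ (by rw [← Measure.volume_eq_prod]; exact hint2)]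
  rw [← integral_complex_ofReal, ← integral_const_mul]
  refine setIntegral_congr_fun measurableSet_Ioo fun r hr => ?_
  simp only
  have hnorm : ∀ t : ℝ, ‖(r : ℂ) * Complex.exp (t * Complex.I)‖ = r := by
    intro t
    rw [norm_mul, Complex.norm_real, Complex.norm_exp_ofReal_mul_I, mul_one, Real.norm_of_nonneg hr.1.le]
  simp_rw [hnorm]
  rw [integral_const_mul, integral_mul_const]
  have h3 := circle_orth hc k hr.1.le hr.2
  rw [intervalIntegral.integral_of_le (by linarith [Real.pi_pos]), ← integral_Ioc_eq_integral_Ioo.symm] at h3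
  rw [h3]
  push_cast
  ring

end Pool.Agent.Helper630.TwoSumming
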