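import Pool.Agent.Helper630.TwoSumming.Series

open Finset MeasureTheory Filter Topology

namespace Pool.Agent.Helper630.TwoSumming

lemma eq_zero_of_ev_eq_zero {a : ℕ → ℂ} (ha : IsAn a) (h : ∀ z : ℂ, ‖z‖ < 1 → ev a z = 0) : a = 0 := by
  funext k
  have h1 := circle_orth ha k (r := 1 / 2) (by norm_num) (by norm_num)
  have h2 : ∀ t : ℝ, ev a (((1 / 2 : ℝ) : ℂ) * Complex.exp (t * Complex.I)) = 0 := by
    intro t
    apply h
    rw [norm_mul, Complex.norm_real, Complex.norm_exp_ofReal_mul_I]
    norm_num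
  simp_rw [h2, mul_zero, intervalIntegral.integral_zero] at h1
  have h3 : (2 * Real.pi : ℂ) ≠ 0 := by
    norm_num [Real.pi_ne_zero]
  have h4 : (((1 / 2 : ℝ) : ℂ)) ^ (2 * k) ≠ 0 := pow_ne_zero _ (by norm_num)
  have h5 := mul_eq_zero.1 h1.symm
  rcases h5 with h5 | h5
  · exact absurd h5 h3
  · rcases mul_eq_zero.1 h5 with h6 | h6
    · exact h6
    · exact absurd h6 h4

/-- the weight is positive and continuous -/
lemma wt_cont (e : ℝ) : ContinuousOn (fun z : ℂ => (1 - ‖z‖) ^ e) (Metric.ball (0:ℂ) 1) := by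
  refine ContinuousOn.rpow_const (by fun_prop) ?_
  intro z hz
  left
  rw [mem_ball_zero_iff] at hz
  linarith

/-- the integrand of the norm of `B₁^α` -/
noncomputable def integrand (α : ℝ) (n : ℕ) (a : ℕ → ℂ) (z : ℂ) : ℝ :=
  ‖iteratedDeriv n (ev a) z‖ * (1 - ‖z‖) ^ ((n : ℝ) - α - 1)

lemma integrand_eq (α : ℝ) (n : ℕ) {a : ℕ → ℂ} (ha : IsAn a) {z : ℂ} (hz : z ∈ Metric.ball (0:ℂ) 1) :
    integrand α n a z = ‖ev (dco n a) z‖ * (1 - ‖z‖) ^ ((n : ℝ) - α - 1) := by
  unfold integrand
  rw [iteratedDeriv_ev ha n z (mem_ball_zero_iff.1 hz)]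

lemma integrand_cont (α : ℝ) (n : ℕ) {a : ℕ → ℂ} (ha : IsAn a) :
    ContinuousOn (integrand α n a) (Metric.ball (0:ℂ) 1) := by
  have : ContinuousOn (fun z => ‖ev (dco n a) z‖ * (1 - ‖z‖) ^ ((n : ℝ) - α - 1)) (Metric.ball (0:ℂ) 1) :=
    (continuousOn_ev (ha.dco n)).norm.mul (wt_cont _)
  exact this.congr fun z hz => integrand_eq α n ha hz

lemma integrand_nonneg (α : ℝ) (n : ℕ) (a : ℕ → ℂ) {z : ℂ} (hz : z ∈ Metric.ball (0:ℂ) 1) :
    0 ≤ integrand α n a z := by
  have : 0 < 1 - ‖z‖ := by rw [mem_ball_zero_iff] at hz; linarith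
  unfold integrand
  positivity

lemma dco_add (n : ℕ) (a b : ℕ → ℂ) : dco n (a + b) = dco n a + dco n b := by
  funext k; simp [dco, mul_add]

lemma dco_smul (n : ℕ) (c : ℂ) (a : ℕ → ℂ) : dco n (c • a) = c • dco n a := by
  funext k; simp [dco]; ring

lemma integrand_add_le (α : ℝ) (n : ℕ) {a b : ℕ → ℂ} (ha : IsAn a) (hb : IsAn b) {z : ℂ}
    (hz : z ∈ Metric.ball (0:ℂ) 1) : integrand α n (a + b) z ≤ integrand α n a z + integrand α n b z := by
  rw [integrand_eq α n (ha.add hb) hz, integrand_eq α n ha hz, integrand_eq α n hb hz, ← add_mul, dco_add,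
    ev_add (ha.dco n) (hb.dco n) (mem_ball_zero_iff.1 hz)]
  have : 0 < 1 - ‖z‖ := by rw [mem_ball_zero_iff] at hz; linarith
  gcongr
  exact norm_add_le _ _

lemma integrand_smul (α : ℝ) (n : ℕ) (c : ℂ) {a : ℕ → ℂ} (ha : IsAn a) {z : ℂ}
    (hz : z ∈ Metric.ball (0:ℂ) 1) : integrand α n (c • a) z = ‖c‖ * integrand α n a z := by
  rw [integrand_eq α n (ha.smul c) hz, integrand_eq α n ha hz, dco_smul, ev_smul, norm_mul, mul_assoc]

/-- the space `B₁^α` as a subspace of the space of Taylor coefficient sequences -/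
noncomputable def B1sub (α : ℝ) (n : ℕ) : Submodule ℂ (ℕ → ℂ) where
  carrier := {a | IsAn a ∧ IntegrableOn (integrand α n a) (Metric.ball 0 1)}
  add_mem' := by
    rintro a b ⟨ha, ha'⟩ ⟨hb, hb'⟩
    refine ⟨ha.add hb, ?_⟩
    refine Integrable.mono' (ha'.add hb') ((integrand_cont α n (ha.add hb)).aestronglyMeasurable
      Metric.isOpen_ball.measurableSet) ?_
    refine (ae_restrict_iff' Metric.isOpen_ball.measurableSet).2 (ae_of_all _ fun z hz => ?_)
    rw [Real.norm_of_nonneg (integrand_nonneg α n _ hz)]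
    exact integrand_add_le α n ha hb hz
  zero_mem' := by
    refine ⟨IsAn.zero, ?_⟩
    refine (integrableOn_zero (μ := volume) (s := Metric.ball (0:ℂ) 1)).congr_fun (fun z hz => ?_)
      Metric.isOpen_ball.measurableSet
    rw [integrand_eq α n IsAn.zero hz]
    have : dco n (0 : ℕ → ℂ) = 0 := by funext k; simp [dco]
    rw [this, ev_zero]; simp
  smul_mem' := by
    rintro c a ⟨ha, ha'⟩
    refine ⟨ha.smul c, ?_⟩
    have h : IntegrableOn (fun z => ‖c‖ * integrand α n a z) (Metric.ball (0:ℂ) 1) := ha'.const_mul ‖c‖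
    exact h.congr_fun (fun z hz => (integrand_smul α n c ha hz).symm) Metric.isOpen_ball.measurableSet

/-- The space `B₁^α` (of Taylor coefficient sequences). -/
def B1 (α : ℝ) (n : ℕ) : Type := B1sub α n

variable {α : ℝ} {n : ℕ}

noncomputable instance : AddCommGroup (B1 α n) := inferInstanceAs (AddCommGroup (B1sub α n))
noncomputable instance : Module ℂ (B1 α n) := inferInstanceAs (Module ℂ (B1sub α n))

/-- Taylor coefficients -/
def B1.co (x : B1 α n) : ℕ → ℂ := Subtype.val x

lemma B1.ext_co {x y : B1 α n} (h : x.co = y.co) : x = y := Subtype.ext h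
lemma B1.co_add (x y : B1 α n) : (x + y).co = x.co + y.co := rfl
lemma B1.co_smul (c : ℂ) (x : B1 α n) : (c • x).co = c • x.co := rfl
lemma B1.co_zero : (0 : B1 α n).co = 0 := rfl
lemma B1.isAn (x : B1 α n) : IsAn x.co := (Subtype.property x).1
lemma B1.integrable (x : B1 α n) : IntegrableOn (integrand α n x.co) (Metric.ball 0 1) := (Subtype.property x).2

/-- `‖f‖ = ∬ |f⁽ⁿ⁾(z)| (1-|z|)^{n-α-1} dx dy + ∑_{j<n} |f⁽ʲ⁾(0)|` -/
noncomputable instance : Norm (B1 α n) where
  norm x := (∫ z in Metric.ball (0:ℂ) 1, ‖iteratedDeriv n (ev x.co) z‖ * (1 - ‖z‖) ^ ((n : ℝ) - α - 1)) +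
    ∑ j ∈ range n, ‖iteratedDeriv j (ev x.co) 0‖

lemma B1.norm_def (x : B1 α n) : ‖x‖ = (∫ z in Metric.ball (0:ℂ) 1, integrand α n x.co z) +
    ∑ j ∈ range n, (j.factorial : ℝ) * ‖x.co j‖ := by
  change (∫ z in Metric.ball (0:ℂ) 1, integrand α n x.co z) + ∑ j ∈ range n, ‖iteratedDeriv j (ev x.co) 0‖ = _
  congr 1
  refine Finset.sum_congr rfl fun j _ => ?_
  rw [iteratedDeriv_ev x.isAn j 0 (by simp), ev_at_zero]
  simp [dco, Nat.descFactorial_self]

lemma B1.integral_nonneg' (x : B1 α n) : 0 ≤ ∫ z in Metric.ball (0:ℂ) 1, integrand α n x.co z :=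
  setIntegral_nonneg Metric.isOpen_ball.measurableSet fun _ hz => integrand_nonneg α n _ hz

lemma B1.core : NormedSpace.Core ℂ (B1 α n) where
  norm_nonneg x := by
    rw [B1.norm_def]
    exact add_nonneg x.integral_nonneg' (Finset.sum_nonneg fun _ _ => by positivity)
  norm_smul c x := by
    rw [B1.norm_def, B1.norm_def, mul_add, ← integral_const_mul, Finset.mul_sum]
    congr 1
    · exact setIntegral_congr_fun Metric.isOpen_ball.measurableSet fun z hz => integrand_smul α n c x.isAn hz
    · refine Finset.sum_congr rfl fun j _ => ?_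
      rw [B1.co_smul, Pi.smul_apply, smul_eq_mul, norm_mul]; ring
  norm_triangle x y := by
    rw [B1.norm_def, B1.norm_def, B1.norm_def]
    have h1 : ∫ z in Metric.ball (0:ℂ) 1, integrand α n (x + y).co z ≤
        (∫ z in Metric.ball (0:ℂ) 1, integrand α n x.co z) + ∫ z in Metric.ball (0:ℂ) 1, integrand α n y.co z := by
      rw [← integral_add x.integrable y.integrable]
      exact setIntegral_mono_on (x + y).integrable (x.integrable.add y.integrable)
        Metric.isOpen_ball.measurableSet fun z hz => integrand_add_le α n x.isAn y.isAn hz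
    have h2 : ∑ j ∈ range n, (j.factorial : ℝ) * ‖(x + y).co j‖ ≤
        ∑ j ∈ range n, (j.factorial : ℝ) * ‖x.co j‖ + ∑ j ∈ range n, (j.factorial : ℝ) * ‖y.co j‖ := by
      rw [← Finset.sum_add_distrib]
      refine Finset.sum_le_sum fun j _ => ?_
      rw [← mul_add, B1.co_add]
      gcongr
      exact norm_add_le _ _
    linarith
  norm_eq_zero_iff x := by
    constructor
    · intro h
      rw [B1.norm_def] at h
      have h2 : 0 ≤ ∑ j ∈ range n, (j.factorial : ℝ) * ‖x.co j‖ := Finset.sum_nonneg fun _ _ => by positivity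
      have h1 := x.integral_nonneg'
      have h3 : ∫ z in Metric.ball (0:ℂ) 1, integrand α n x.co z = 0 := by linarith
      have h4 : ∑ j ∈ range n, (j.factorial : ℝ) * ‖x.co j‖ = 0 := by linarith
      have h5 : ∀ z ∈ Metric.ball (0:ℂ) 1, integrand α n x.co z = 0 := by
        have := (setIntegral_eq_zero_iff_of_nonneg_ae
          ((ae_restrict_iff' Metric.isOpen_ball.measurableSet).2 (ae_of_all _ fun z hz => integrand_nonneg α n x.co hz))
          x.integrable).1 h3
        exact Measure.eqOn_open_of_ae_eq this Metric.isOpen_ball (integrand_cont α n x.isAn) continuousOn_const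
      have h6 : dco n x.co = 0 := by
        apply eq_zero_of_ev_eq_zero (x.isAn.dco n)
        intro z hz
        have hz' : z ∈ Metric.ball (0:ℂ) 1 := mem_ball_zero_iff.2 hz
        have := h5 z hz'
        rw [integrand_eq α n x.isAn hz'] at this
        have hp : 0 < (1 - ‖z‖) ^ ((n : ℝ) - α - 1) := Real.rpow_pos_of_pos (by linarith) _
        rcases mul_eq_zero.1 this with h | h
        · exact norm_eq_zero.1 h
        · exact absurd h hp.ne'
      apply B1.ext_co
      rw [B1.co_zero]
      funext k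
      by_cases hk : k < n
      · have := (Finset.sum_eq_zero_iff_of_nonneg (fun j _ => by positivity)).1 h4 k (Finset.mem_range.2 hk)
        rcases mul_eq_zero.1 this with h | h
        · exact absurd h (by positivity)
        · exact norm_eq_zero.1 h
      · obtain ⟨l, rfl⟩ := Nat.exists_eq_add_of_le' (not_lt.1 hk)
        have := congrFun h6 l
        unfold dco at this
        rcases mul_eq_zero.1 this with h | h
        · exfalso
          have h7 : (l + n).descFactorial n ≠ 0 := by
            rw [Ne, Nat.descFactorial_eq_zero_iff_lt]; omega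
          exact h7 (by exact_mod_cast h)
        · exact h
    · rintro rfl
      rw [B1.norm_def]
      have : ∫ z in Metric.ball (0:ℂ) 1, integrand α n (0 : B1 α n).co z = 0 := by
        rw [← integral_zero ℂ ℝ (μ := volume.restrict (Metric.ball (0:ℂ) 1))]
        refine setIntegral_congr_fun Metric.isOpen_ball.measurableSet fun z hz => ?_
        simp only [B1.co_zero]
        rw [integrand_eq α n IsAn.zero hz]
        have : dco n (0 : ℕ → ℂ) = 0 := by funext k; simp [dco]
        rw [this, ev_zero]; simp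
      rw [this]
      simp [B1.co_zero]

noncomputable instance : NormedAddCommGroup (B1 α n) := NormedAddCommGroup.ofCore (𝕜 := ℂ) B1.core
noncomputable instance : NormedSpace ℂ (B1 α n) := NormedSpace.ofCore B1.core

end Pool.Agent.Helper630.TwoSumming
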