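import Pool.Agent.Helper630.TwoSumming.SpaceB

open Finset MeasureTheory Filter Topology

namespace Pool.Agent.Helper630.TwoSumming

/-- the space `B_∞^{-α}` as a subspace of the space of Taylor coefficient sequences -/
noncomputable def Binfsub (α : ℝ) : Submodule ℂ (ℕ → ℂ) where
  carrier := {a | IsAn a ∧ ∃ C : ℝ, ∀ z : ℂ, ‖z‖ < 1 → ‖ev a z‖ ≤ C * (1 - ‖z‖) ^ (-α)}
  add_mem' := by
    rintro a b ⟨ha, C, hC⟩ ⟨hb, D, hD⟩
    refine ⟨ha.add hb, C + D, fun z hz => ?_⟩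
    rw [ev_add ha hb hz, add_mul]
    exact (norm_add_le _ _).trans (add_le_add (hC z hz) (hD z hz))
  zero_mem' := ⟨IsAn.zero, 0, fun z _ => by rw [ev_zero]; simp⟩
  smul_mem' := by
    rintro c a ⟨ha, C, hC⟩
    refine ⟨ha.smul c, ‖c‖ * C, fun z hz => ?_⟩
    rw [ev_smul, norm_mul, mul_assoc]
    gcongr
    exact hC z hz

/-- The space `B_∞^{-α}` (of Taylor coefficient sequences). -/
def Binf (α : ℝ) : Type := Binfsub α

variable {α : ℝ}

noncomputable instance : AddCommGroup (Binf α) := inferInstanceAs (AddCommGroup (Binfsub α))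
noncomputable instance : Module ℂ (Binf α) := inferInstanceAs (Module ℂ (Binfsub α))

/-- Taylor coefficients -/
def Binf.co (x : Binf α) : ℕ → ℂ := Subtype.val x

lemma Binf.ext_co {x y : Binf α} (h : x.co = y.co) : x = y := Subtype.ext h
lemma Binf.co_add (x y : Binf α) : (x + y).co = x.co + y.co := rfl
lemma Binf.co_smul (c : ℂ) (x : Binf α) : (c • x).co = c • x.co := rfl
lemma Binf.co_zero : (0 : Binf α).co = 0 := rfl
lemma Binf.isAn (x : Binf α) : IsAn x.co := (Subtype.property x).1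
lemma Binf.growth (x : Binf α) : ∃ C : ℝ, ∀ z : ℂ, ‖z‖ < 1 → ‖ev x.co z‖ ≤ C * (1 - ‖z‖) ^ (-α) :=
  (Subtype.property x).2

/-- the best constant `C` with `|f(z)| ≤ C (1-|z|)^{-α}` on the open unit disc -/
noncomputable instance : Norm (Binf α) where
  norm x := ⨆ z : Metric.ball (0:ℂ) 1, (1 - ‖(z:ℂ)‖) ^ α * ‖ev x.co z‖

lemma Binf.norm_def (x : Binf α) : ‖x‖ = ⨆ z : Metric.ball (0:ℂ) 1, (1 - ‖(z:ℂ)‖) ^ α * ‖ev x.co z‖ := rfl

lemma Binf.bdd (x : Binf α) : BddAbove (Set.range fun z : Metric.ball (0:ℂ) 1 => (1 - ‖(z:ℂ)‖) ^ α * ‖ev x.co z‖) := by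
  obtain ⟨C, hC⟩ := x.growth
  refine ⟨C, ?_⟩
  rintro _ ⟨z, rfl⟩
  have hz : ‖(z:ℂ)‖ < 1 := mem_ball_zero_iff.1 z.2
  have hp : 0 < 1 - ‖(z:ℂ)‖ := by linarith
  calc (1 - ‖(z:ℂ)‖) ^ α * ‖ev x.co z‖ ≤ (1 - ‖(z:ℂ)‖) ^ α * (C * (1 - ‖(z:ℂ)‖) ^ (-α)) := by
        gcongr; exact hC z hz
    _ = C := by rw [Real.rpow_neg hp.le]; field_simp

lemma Binf.le_norm (x : Binf α) (z : ℂ) (hz : ‖z‖ < 1) : (1 - ‖z‖) ^ α * ‖ev x.co z‖ ≤ ‖x‖ :=
  le_ciSup x.bdd ⟨z, mem_ball_zero_iff.2 hz⟩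

lemma Binf.norm_le (x : Binf α) (C : ℝ) (h : ∀ z : ℂ, ‖z‖ < 1 → (1 - ‖z‖) ^ α * ‖ev x.co z‖ ≤ C) : ‖x‖ ≤ C := by
  have : Nonempty (Metric.ball (0:ℂ) 1) := ⟨⟨0, by simp⟩⟩
  exact ciSup_le fun z => h z (mem_ball_zero_iff.1 z.2)

lemma Binf.norm_nonneg' (x : Binf α) : 0 ≤ ‖x‖ := by
  have := x.le_norm 0 (by simp)
  simp only [norm_zero, sub_zero, Real.one_rpow, one_mul] at this
  exact (norm_nonneg _).trans this

lemma Binf.ev_le (x : Binf α) (z : ℂ) (hz : ‖z‖ < 1) : ‖ev x.co z‖ ≤ ‖x‖ * (1 - ‖z‖) ^ (-α) := by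
  have h := x.le_norm z hz
  have hp : 0 < 1 - ‖z‖ := by linarith
  have hp' : 0 < (1 - ‖z‖) ^ α := by positivity
  rw [Real.rpow_neg hp.le, ← div_eq_mul_inv, le_div_iff₀ hp', mul_comm]
  exact h

lemma Binf.core : NormedSpace.Core ℂ (Binf α) where
  norm_nonneg x := x.norm_nonneg'
  norm_smul c x := by
    rw [Binf.norm_def, Binf.norm_def, Real.mul_iSup_of_nonneg (norm_nonneg c)]
    congr 1
    funext z
    rw [Binf.co_smul, ev_smul, norm_mul]; ring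
  norm_triangle x y := by
    refine Binf.norm_le _ _ fun z hz => ?_
    have hp : 0 < 1 - ‖z‖ := by linarith
    rw [Binf.co_add, ev_add x.isAn y.isAn hz]
    calc (1 - ‖z‖) ^ α * ‖ev x.co z + ev y.co z‖ ≤ (1 - ‖z‖) ^ α * (‖ev x.co z‖ + ‖ev y.co z‖) := by
          gcongr; exact norm_add_le _ _
      _ ≤ _ := by rw [mul_add]; exact add_le_add (x.le_norm z hz) (y.le_norm z hz)
  norm_eq_zero_iff x := by
    constructor
    · intro h
      apply Binf.ext_co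
      apply eq_zero_of_ev_eq_zero x.isAn
      intro z hz
      have := x.ev_le z hz
      rw [h, zero_mul] at this
      exact norm_le_zero_iff.1 this
    · rintro rfl
      refine le_antisymm (Binf.norm_le _ _ fun z _ => ?_) (Binf.norm_nonneg' _)
      rw [Binf.co_zero, ev_zero]; simp

noncomputable instance : NormedAddCommGroup (Binf α) := NormedAddCommGroup.ofCore (𝕜 := ℂ) Binf.core
noncomputable instance : NormedSpace ℂ (Binf α) := NormedSpace.ofCore Binf.core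

end Pool.Agent.Helper630.TwoSumming
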