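import Pool.Agent.Helper630.TwoSumming.Coef
import Pool.Agent.Helper630.TwoSumming.Operators

open Finset MeasureTheory Filter Topology

namespace Pool.Agent.Helper630.TwoSumming

lemma weak_bdd {X : Type*} [NormedAddCommGroup X] [NormedSpace ℂ X] {N : ℕ} (x : Fin N → X) :
    BddAbove (Set.range fun ξ : {ξ : X →L[ℂ] ℂ // ‖ξ‖ ≤ 1} => ∑ i, ‖ξ.1 (x i)‖ ^ 2) := by
  refine ⟨∑ i, ‖x i‖ ^ 2, ?_⟩
  rintro _ ⟨ξ, rfl⟩
  refine Finset.sum_le_sum fun i _ => ?_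
  gcongr
  calc ‖ξ.1 (x i)‖ ≤ ‖ξ.1‖ * ‖x i‖ := ξ.1.le_opNorm _
    _ ≤ 1 * ‖x i‖ := by gcongr; exact ξ.2
    _ = ‖x i‖ := one_mul _

lemma weak_nonneg {X : Type*} [NormedAddCommGroup X] [NormedSpace ℂ X] {N : ℕ} (x : Fin N → X) :
    0 ≤ ⨆ ξ : {ξ : X →L[ℂ] ℂ // ‖ξ‖ ≤ 1}, ∑ i, ‖ξ.1 (x i)‖ ^ 2 :=
  Real.iSup_nonneg fun _ => Finset.sum_nonneg fun _ _ => by positivity

lemma weak_le {X : Type*} [NormedAddCommGroup X] [NormedSpace ℂ X] {N : ℕ} (x : Fin N → X)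
    (f : X →ₗ[ℂ] ℂ) (b : ℝ) (hb : 0 ≤ b) (hf : ∀ x, ‖f x‖ ≤ b * ‖x‖) :
    ∑ i, ‖f (x i)‖ ^ 2 ≤ b ^ 2 * ⨆ ξ : {ξ : X →L[ℂ] ℂ // ‖ξ‖ ≤ 1}, ∑ i, ‖ξ.1 (x i)‖ ^ 2 := by
  rcases hb.eq_or_lt with h0 | hpos
  · have : ∀ y, f y = 0 := fun y => by
      have := hf y
      rw [← h0, zero_mul] at this
      exact norm_le_zero_iff.1 this
    simp [this, ← h0]
  · set g : X →L[ℂ] ℂ := LinearMap.mkContinuous ((b⁻¹ : ℂ) • f) 1 (by
      intro y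
      rw [LinearMap.smul_apply, norm_smul, norm_inv, Complex.norm_real, Real.norm_of_nonneg hb, one_mul, inv_mul_le_iff₀ hpos]
      exact hf y) with hg
    have hg1 : ‖g‖ ≤ 1 := LinearMap.mkContinuous_norm_le _ zero_le_one _
    have h1 := le_ciSup (weak_bdd x) ⟨g, hg1⟩
    have h2 : ∀ y, ‖f y‖ = b * ‖g y‖ := by
      intro y
      rw [hg, LinearMap.mkContinuous_apply, LinearMap.smul_apply, norm_smul, norm_inv, Complex.norm_real,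
        Real.norm_of_nonneg hb, ← mul_assoc, mul_inv_cancel₀ hpos.ne', one_mul]
    calc ∑ i, ‖f (x i)‖ ^ 2 = b ^ 2 * ∑ i, ‖g (x i)‖ ^ 2 := by
          rw [Finset.mul_sum]
          refine Finset.sum_congr rfl fun i _ => ?_
          rw [h2, mul_pow]
      _ ≤ _ := by gcongr

lemma weak_tsum {X : Type*} [NormedAddCommGroup X] [NormedSpace ℂ X] {N : ℕ} (x : Fin N → X)
    (f : ℕ → X →ₗ[ℂ] ℂ) (b : ℕ → ℝ) (hb : ∀ k, 0 ≤ b k) (hf : ∀ k x, ‖f k x‖ ≤ b k * ‖x‖)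
    (p : ℕ → ℝ) (hp : ∀ k, 0 ≤ p k) (hs : Summable fun k => p k * b k ^ 2) :
    ∑ i, ∑' k, p k * ‖f k (x i)‖ ^ 2 ≤ (∑' k, p k * b k ^ 2) *
      ⨆ ξ : {ξ : X →L[ℂ] ℂ // ‖ξ‖ ≤ 1}, ∑ i, ‖ξ.1 (x i)‖ ^ 2 := by
  have hsum : ∀ i, Summable (fun k => p k * ‖f k (x i)‖ ^ 2) := by
    intro i
    refine Summable.of_nonneg_of_le (fun k => mul_nonneg (hp k) (by positivity)) (fun k => ?_) (hs.mul_right (‖x i‖ ^ 2))
    rw [mul_assoc, ← mul_pow]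
    exact mul_le_mul_of_nonneg_left (pow_le_pow_left₀ (norm_nonneg _) (hf k (x i)) 2) (hp k)
  rw [← Summable.tsum_finsetSum (fun i _ => hsum i), ← tsum_mul_right]
  refine Summable.tsum_le_tsum (fun k => ?_) (summable_sum fun i _ => hsum i) (hs.mul_right _)
  rw [← Finset.mul_sum, mul_assoc]
  exact mul_le_mul_of_nonneg_left (weak_le x (f k) (b k) (hb k) (hf k)) (hp k)

lemma two_summing_of {X Y : Type*} [NormedAddCommGroup X] [NormedSpace ℂ X] [NormedAddCommGroup Y] [NormedSpace ℂ Y]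
    (u : X →L[ℂ] Y) (f g : ℕ → X →ₗ[ℂ] ℂ) (b c : ℕ → ℝ) (hb : ∀ k, 0 ≤ b k) (hc : ∀ k, 0 ≤ c k)
    (hf : ∀ k x, ‖f k x‖ ≤ b k * ‖x‖) (hg : ∀ k x, ‖g k x‖ ≤ c k * ‖x‖)
    (p q : ℕ → ℝ) (hp : ∀ k, 0 ≤ p k) (hq : ∀ k, 0 ≤ q k) (hs : Summable fun k => p k * b k ^ 2)
    (ht : Summable fun k => q k * c k ^ 2)
    (hu : ∀ x, ‖u x‖ ^ 2 ≤ (∑' k, p k * ‖f k x‖ ^ 2) + ∑' k, q k * ‖g k x‖ ^ 2) : IsTwoSumming u := by
  refine ⟨Real.sqrt ((∑' k, p k * b k ^ 2) + ∑' k, q k * c k ^ 2), fun N x => ?_⟩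
  rw [Real.sq_sqrt (add_nonneg (tsum_nonneg fun k => mul_nonneg (hp k) (by positivity))
    (tsum_nonneg fun k => mul_nonneg (hq k) (by positivity))), add_mul]
  refine (Finset.sum_le_sum fun i _ => hu (x i)).trans ?_
  rw [Finset.sum_add_distrib]
  exact add_le_add (weak_tsum x f b hb hf p hp hs) (weak_tsum x g c hc hg q hq ht)

lemma cs_tsum {f g : ℕ → ℝ} (hf : ∀ k, 0 ≤ f k) (hg : ∀ k, 0 ≤ g k) (hf2 : Summable fun k => f k ^ 2)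
    (hg2 : Summable fun k => g k ^ 2) : Summable (fun k => f k * g k) ∧
      (∑' k, f k * g k) ^ 2 ≤ (∑' k, f k ^ 2) * ∑' k, g k ^ 2 := by
  have hs : Summable (fun k => f k * g k) := by
    refine Summable.of_nonneg_of_le (fun k => mul_nonneg (hf k) (hg k)) (fun k => ?_) (hf2.add hg2)
    nlinarith [sq_nonneg (f k - g k), sq_nonneg (f k), sq_nonneg (g k)]
  refine ⟨hs, ?_⟩
  have h0 : 0 ≤ (∑' k, f k ^ 2) * ∑' k, g k ^ 2 :=
    mul_nonneg (tsum_nonneg fun _ => by positivity) (tsum_nonneg fun _ => by positivity)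
  have h1 : ∑' k, f k * g k ≤ Real.sqrt ((∑' k, f k ^ 2) * ∑' k, g k ^ 2) := by
    refine hs.tsum_le_of_sum_le fun s => ?_
    apply Real.le_sqrt_of_sq_le
    refine (Finset.sum_mul_sq_le_sq_mul_sq s f g).trans ?_
    gcongr
    · exact hf2.sum_le_tsum s fun _ _ => by positivity
    · exact hg2.sum_le_tsum s fun _ _ => by positivity
  calc (∑' k, f k * g k) ^ 2 ≤ (Real.sqrt ((∑' k, f k ^ 2) * ∑' k, g k ^ 2)) ^ 2 := by
        gcongr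
        exact tsum_nonneg fun k => mul_nonneg (hf k) (hg k)
    _ = _ := Real.sq_sqrt h0

lemma wsum {e : ℝ} (he : e < -1) : Summable (fun k : ℕ => ((k:ℝ) + 1) ^ e) := by
  have h := (Real.summable_nat_rpow (p := e)).2 he
  have h2 := (summable_nat_add_iff 1).2 h
  simpa using h2

lemma geo_rpow {t : ℝ} (ht : 0 ≤ t) : ∃ C : ℝ, 0 < C ∧ ∀ r : ℝ, 0 ≤ r → r < 1 → ∀ m : ℕ,
    ((m:ℝ) + 1) ^ t * r ^ m ≤ C * (1 - r) ^ (-t) := by
  refine ⟨Real.exp 1 * (⌈t⌉₊.factorial : ℝ), by positivity, ?_⟩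
  intro r hr0 hr1 m
  have hδ : 0 < 1 - r := by linarith
  set N := ⌈t⌉₊ with hN
  have hm0 : (0:ℝ) < (m:ℝ) + 1 := by positivity
  have h1 : r ^ m ≤ Real.exp 1 * Real.exp (-(((m:ℝ) + 1) * (1 - r))) := by
    have h2 : r ≤ Real.exp (-(1 - r)) := by
      have := Real.add_one_le_exp (-(1 - r)); linarith
    calc r ^ m ≤ (Real.exp (-(1 - r))) ^ m := by gcongr
      _ = Real.exp (-((m:ℝ) * (1 - r))) := by rw [← Real.exp_nat_mul]; ring_nf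
      _ ≤ Real.exp (1 + -(((m:ℝ) + 1) * (1 - r))) := by
          apply Real.exp_le_exp.2; nlinarith
      _ = _ := Real.exp_add _ _
  have h3 : (((m:ℝ) + 1) * (1 - r)) ^ t ≤ (N.factorial : ℝ) * Real.exp (((m:ℝ) + 1) * (1 - r)) := by
    set y := ((m:ℝ) + 1) * (1 - r) with hy
    have hy0 : 0 < y := by positivity
    have hexp : 1 ≤ Real.exp y := Real.one_le_exp hy0.le
    have hfac : (1:ℝ) ≤ N.factorial := by exact_mod_cast Nat.one_le_iff_ne_zero.2 (Nat.factorial_ne_zero N)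
    rcases le_total y 1 with hy1 | hy1
    · calc y ^ t ≤ 1 := Real.rpow_le_one hy0.le hy1 ht
        _ ≤ (N.factorial : ℝ) * Real.exp y := by nlinarith
    · calc y ^ t ≤ y ^ (N : ℝ) := Real.rpow_le_rpow_of_exponent_le hy1 (Nat.le_ceil t)
        _ = y ^ N := Real.rpow_natCast _ _
        _ ≤ (N.factorial : ℝ) * Real.exp y := by
            have := Real.pow_div_factorial_le_exp y hy0.le N
            rw [div_le_iff₀ (by positivity)] at this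
            linarith
  rw [Real.mul_rpow hm0.le hδ.le] at h3
  have h4 : ((m:ℝ) + 1) ^ t * r ^ m * (1 - r) ^ t ≤ Real.exp 1 * (N.factorial : ℝ) := by
    calc ((m:ℝ) + 1) ^ t * r ^ m * (1 - r) ^ t = (((m:ℝ) + 1) ^ t * (1 - r) ^ t) * r ^ m := by ring
      _ ≤ ((N.factorial : ℝ) * Real.exp (((m:ℝ) + 1) * (1 - r))) *
          (Real.exp 1 * Real.exp (-(((m:ℝ) + 1) * (1 - r)))) := by gcongr
      _ = Real.exp 1 * (N.factorial : ℝ) * (Real.exp (((m:ℝ) + 1) * (1 - r)) * Real.exp (-(((m:ℝ) + 1) * (1 - r)))) := by ring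
      _ = Real.exp 1 * (N.factorial : ℝ) := by rw [← Real.exp_add]; simp
  rw [Real.rpow_neg hδ.le, ← div_eq_mul_inv, le_div_iff₀ (by positivity)]
  exact h4

lemma geo_rpow_sum {t : ℝ} (ht : 0 ≤ t) : ∃ C : ℝ, 0 < C ∧ ∀ r : ℝ, 0 ≤ r → r < 1 →
    Summable (fun m : ℕ => ((m:ℝ) + 1) ^ t * (r ^ m) ^ 2) ∧
    ∑' m : ℕ, ((m:ℝ) + 1) ^ t * (r ^ m) ^ 2 ≤ C * (1 - r) ^ (-t - 1) := by
  obtain ⟨C, hC0, hC⟩ := geo_rpow ht
  refine ⟨C, hC0, fun r hr0 hr1 => ?_⟩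
  have hδ : 0 < 1 - r := by linarith
  have hle : ∀ m : ℕ, ((m:ℝ) + 1) ^ t * (r ^ m) ^ 2 ≤ (C * (1 - r) ^ (-t)) * r ^ m := by
    intro m
    rw [sq, ← mul_assoc]
    exact mul_le_mul_of_nonneg_right (hC r hr0 hr1 m) (by positivity)
  have hg := (summable_geometric_of_lt_one hr0 hr1).mul_left (C * (1 - r) ^ (-t))
  have hs : Summable (fun m : ℕ => ((m:ℝ) + 1) ^ t * (r ^ m) ^ 2) :=
    Summable.of_nonneg_of_le (fun m => by positivity) hle hg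
  refine ⟨hs, ?_⟩
  refine (hs.tsum_le_tsum hle hg).trans (le_of_eq ?_)
  rw [tsum_mul_left, tsum_geometric_of_lt_one hr0 hr1, Real.rpow_sub_one hδ.ne', div_eq_mul_inv]
  ring

lemma IsAn.of_poly {a : ℕ → ℂ} (D : ℝ) (d : ℕ) (h : ∀ k, ‖a k‖ ≤ D * ((k:ℝ) + 1) ^ d) : IsAn a := by
  have h1 : IsAn (fun _ => (1:ℂ)) := by
    intro r hr0 hr1
    simpa using summable_geometric_of_lt_one hr0 hr1
  simpa using h1.poly_shift 0 a d D h

end Pool.Agent.Helper630.TwoSumming
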