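import Pool.Agent.Helper630.TwoSumming.Kernel

open Finset MeasureTheory Filter Topology

namespace Pool.Agent.Helper630.TwoSumming

/-- truncated shifted sequence -/
noncomputable def tail (φ : ℕ → ℂ) (p q : ℕ) (l : ℕ) : ℂ := (if q ≤ l then (1:ℂ) else 0) * φ (l + p)

lemma IsAn.tail {φ : ℕ → ℂ} (hφ : IsAn φ) (p q : ℕ) : IsAn (tail φ p q) := by
  refine hφ.poly_shift p (fun l => if q ≤ l then (1:ℂ) else 0) 0 1 fun k => ?_
  split_ifs <;> simp

lemma tail_ev_eq {φ : ℕ → ℂ} (hφ : IsAn φ) (p q : ℕ) {z : ℂ} (hz : ‖z‖ < 1) :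
    ev (tail φ p q) z = ∑' l, φ (l + q + p) * z ^ (l + q) := by
  unfold ev
  have hs := (hφ.tail p q).summable hz
  rw [← hs.sum_add_tsum_nat_add q]
  have h0 : ∑ i ∈ range q, TwoSumming.tail φ p q i * z ^ i = 0 := by
    refine Finset.sum_eq_zero fun i hi => ?_
    have := Finset.mem_range.1 hi
    unfold TwoSumming.tail
    rw [if_neg (by omega)]; simp
  rw [h0, zero_add]
  refine tsum_congr fun l => ?_
  unfold TwoSumming.tail
  rw [if_pos (by omega), one_mul]

lemma tail_bound1 {φ : ℕ → ℂ} (hφ : IsAn φ) {α M : ℝ} (hα : 0 < α)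
    (h : ∀ z : ℂ, ‖z‖ < 1 → ‖ev φ z‖ ≤ M * (1 - ‖z‖) ^ (-α)) {p q : ℕ} (hpq : p ≤ q)
    {ε : ℝ} (hε0 : 0 < ε) (hε1 : ε ≤ 1) {z : ℂ} (hz : ‖z‖ < 1) :
    ‖ev (tail φ p q) z‖ ≤ M * (1 - Real.sqrt ‖z‖) ^ (-α - ε) / ε := by
  have hM : 0 ≤ M := by
    have := (norm_nonneg _).trans (h 0 (by simp))
    simpa using this
  have hpi := Real.pi_pos
  by_cases hz0 : z = 0
  · subst hz0
    rw [ev_at_zero]
    simp only [norm_zero, Real.sqrt_zero, sub_zero, Real.one_rpow, mul_one]
    have h1 : ‖TwoSumming.tail φ p q 0‖ ≤ M := by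
      unfold TwoSumming.tail
      split_ifs with hq
      · have hp0 : p = 0 := by omega
        subst hp0
        have := h 0 (by simp)
        rw [ev_at_zero] at this
        simpa using this
      · simpa using hM
    refine h1.trans ?_
    rw [le_div_iff₀ hε0]
    exact mul_le_of_le_one_right hM hε1
  set r := ‖z‖ with hr
  have hr0 : 0 < r := norm_pos_iff.2 hz0
  set R := Real.sqrt r with hR
  have hR0 : 0 < R := Real.sqrt_pos.2 hr0
  have hRR : R * R = r := Real.mul_self_sqrt hr0.le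
  have hR1 : R < 1 := by
    rw [hR, Real.sqrt_lt' one_pos]; simpa using hz
  -- z = r * exp (i θ)
  set θ := Complex.arg z with hθ
  have hzθ : z = (r : ℂ) * Complex.exp (θ * Complex.I) := (Complex.norm_mul_exp_arg_mul_I z).symm
  set F : ℝ → ℂ := fun t => ev φ ((R : ℂ) * Complex.exp (t * Complex.I)) with hF
  have hnR : ∀ t : ℝ, ‖(R : ℂ) * Complex.exp (t * Complex.I)‖ = R := fun t => by
    rw [norm_mul, Complex.norm_real, Complex.norm_exp_ofReal_mul_I, mul_one, Real.norm_of_nonneg hR0.le]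
  have hFcont : Continuous F := by
    have h1 : Continuous (fun t : ℝ => (R : ℂ) * Complex.exp (t * Complex.I)) := by fun_prop
    exact (continuousOn_ev hφ).comp_continuous h1 fun t => by
      rw [mem_ball_zero_iff, hnR]; exact hR1
  have hFb : ∀ t, ‖F t‖ ≤ M * (1 - R) ^ (-α) := fun t => by
    have := h ((R : ℂ) * Complex.exp (t * Complex.I)) (by rw [hnR]; exact hR1)
    rwa [hnR] at this
  set G : ℕ → ℝ → ℂ := fun l t => F t * ((R : ℂ) ^ (l + q - p) * Complex.exp (-((l + q + p : ℕ) * t) * Complex.I) *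
    Complex.exp ((l + q : ℕ) * θ * Complex.I)) with hG
  have hGn : ∀ l t, ‖G l t‖ = ‖F t‖ * R ^ (l + q - p) := by
    intro l t
    simp only [hG]
    have e1 : ‖Complex.exp (-((l + q + p : ℕ) * t) * Complex.I)‖ = 1 := by
      have := Complex.norm_exp_ofReal_mul_I (-((l + q + p : ℕ) * t))
      push_cast at this ⊢
      exact this
    have e2 : ‖Complex.exp ((l + q : ℕ) * θ * Complex.I)‖ = 1 := by
      have := Complex.norm_exp_ofReal_mul_I ((l + q : ℕ) * θ)
      push_cast at this ⊢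
      exact this
    rw [norm_mul, norm_mul, norm_mul, e1, e2, mul_one, mul_one, norm_pow, Complex.norm_real, Real.norm_of_nonneg hR0.le]
  have hterm : ∀ l : ℕ, φ (l + q + p) * z ^ (l + q) * (2 * Real.pi) = ∫ t in (-Real.pi)..Real.pi, G l t := by
    intro l
    have h1 := circle_orth hφ (l + q + p) hR0.le hR1
    have h2 : ∀ t : ℝ, G l t = (starRingEnd ℂ ((R : ℂ) * Complex.exp (t * Complex.I))) ^ (l + q + p) *
      ev φ ((R : ℂ) * Complex.exp (t * Complex.I)) * (((R : ℂ) ^ (2 * p))⁻¹ * Complex.exp ((l + q : ℕ) * θ * Complex.I)) := by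
      intro t
      simp only [hG, hF]
      rw [map_mul, Complex.conj_ofReal, ← Complex.exp_conj, map_mul, Complex.conj_ofReal, Complex.conj_I,
        mul_pow, ← Complex.exp_nat_mul]
      have e3 : (R : ℂ) ^ (l + q + p) = (R : ℂ) ^ (l + q - p) * (R : ℂ) ^ (2 * p) := by
        rw [← pow_add]; congr 1; omega
      have e4 : (R : ℂ) ^ (2 * p) ≠ 0 := pow_ne_zero _ (by exact_mod_cast hR0.ne')
      have e5 : Complex.exp (-((l + q + p : ℕ) * t) * Complex.I) = Complex.exp ((l + q + p : ℕ) * (t * -Complex.I)) := by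
        congr 1; ring
      rw [e3, e5]
      field_simp
    simp_rw [h2]
    rw [intervalIntegral.integral_mul_const, h1, hzθ, mul_pow, ← Complex.exp_nat_mul]
    have e6 : (R : ℂ) ^ (2 * (l + q + p)) = (r : ℂ) ^ (l + q) * (R : ℂ) ^ (2 * p) := by
      rw [← hRR]; push_cast; rw [← pow_two, ← pow_mul, ← pow_add]; congr 1; ring
    have e4 : (R : ℂ) ^ (2 * p) ≠ 0 := pow_ne_zero _ (by exact_mod_cast hR0.ne')
    have e7 : Complex.exp ((l + q : ℕ) * (θ * Complex.I)) = Complex.exp ((l + q : ℕ) * θ * Complex.I) := by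
      congr 1; ring
    rw [e6, e7]
    field_simp
  have hsumR : Summable (fun l : ℕ => R ^ (l + q - p)) := by
    have : ∀ l : ℕ, R ^ (l + q - p) = R ^ (q - p) * R ^ l := by
      intro l; rw [← pow_add]; congr 1; omega
    simp_rw [this]
    exact (summable_geometric_of_lt_one hR0.le hR1).mul_left _
  have hI := intervalIntegral.hasSum_integral_of_dominated_convergence (μ := volume) (a := -Real.pi) (b := Real.pi)
    (F := G) (f := fun t => ∑' l, G l t) (fun l _ => M * (1 - R) ^ (-α) * R ^ (l + q - p))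
    (fun l => (by simp only [hG]; fun_prop : Continuous (G l)).aestronglyMeasurable)
    (fun l => ae_of_all _ fun t _ => by
      rw [hGn]
      have := hFb t
      gcongr)
    (ae_of_all _ fun t _ => hsumR.mul_left _) (by simp) (ae_of_all _ fun t _ => by
      refine Summable.hasSum (Summable.of_norm ?_)
      simp_rw [hGn]
      exact hsumR.mul_left _)
  have hev : ev (TwoSumming.tail φ p q) z * (2 * Real.pi) = ∫ t in (-Real.pi)..Real.pi, ∑' l, G l t := by
    rw [← hI.tsum_eq, tail_ev_eq hφ p q hz, ← tsum_mul_right]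
    exact tsum_congr hterm
  have hptw : ∀ t, ‖∑' l, G l t‖ ≤ M * (1 - R) ^ (-α) * ‖1 - (R : ℂ) * Complex.exp (((θ - t : ℝ) : ℂ) * Complex.I)‖⁻¹ := by
    intro t
    set u : ℂ := (R : ℂ) * Complex.exp (((θ - t : ℝ) : ℂ) * Complex.I) with hu
    have hun : ‖u‖ = R := by
      rw [hu, norm_mul, Complex.norm_real, Complex.norm_exp_ofReal_mul_I, mul_one, Real.norm_of_nonneg hR0.le]
    have hsplit : ∀ l : ℕ, G l t = (F t * ((R : ℂ) ^ (q - p) * Complex.exp (-((q + p : ℕ) * t) * Complex.I) *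
      Complex.exp ((q : ℕ) * θ * Complex.I))) * u ^ l := by
      intro l
      simp only [hG, hu]
      rw [mul_pow, ← Complex.exp_nat_mul]
      have e3 : (R : ℂ) ^ (l + q - p) = (R : ℂ) ^ (q - p) * (R : ℂ) ^ l := by
        rw [← pow_add]; congr 1; omega
      have e5 : Complex.exp (-((l + q + p : ℕ) * t) * Complex.I) * Complex.exp ((l + q : ℕ) * θ * Complex.I)
        = Complex.exp (-((q + p : ℕ) * t) * Complex.I) * Complex.exp ((q : ℕ) * θ * Complex.I) *
          Complex.exp (l * (((θ - t : ℝ) : ℂ) * Complex.I)) := by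
        rw [← Complex.exp_add, ← Complex.exp_add, ← Complex.exp_add]
        congr 1
        push_cast
        ring
      rw [e3, mul_assoc ((R : ℂ) ^ (q - p) * (R : ℂ) ^ l), e5]
      ring
    simp_rw [hsplit]
    rw [tsum_mul_left, tsum_geometric_of_norm_lt_one (by rw [hun]; exact hR1), norm_mul, norm_inv]
    gcongr
    rw [norm_mul, norm_mul, norm_mul]
    have e1 : ‖Complex.exp (-((q + p : ℕ) * t) * Complex.I)‖ = 1 := by
      have := Complex.norm_exp_ofReal_mul_I (-((q + p : ℕ) * t))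
      push_cast at this ⊢
      exact this
    have e2 : ‖Complex.exp ((q : ℕ) * θ * Complex.I)‖ = 1 := by
      have := Complex.norm_exp_ofReal_mul_I ((q : ℕ) * θ)
      push_cast at this ⊢
      exact this
    rw [e1, e2, mul_one, mul_one, norm_pow, Complex.norm_real, Real.norm_of_nonneg hR0.le]
    calc ‖F t‖ * R ^ (q - p) ≤ (M * (1 - R) ^ (-α)) * 1 := by
          gcongr
          · exact hFb t
          · exact pow_le_one₀ hR0.le hR1.le
      _ = _ := mul_one _
  have hfinal : ‖ev (TwoSumming.tail φ p q) z‖ * (2 * Real.pi) ≤ M * (1 - R) ^ (-α) * (2 * Real.pi * ((1 - R) ^ (-ε) / ε)) := by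
    have h3 : ‖(2 * Real.pi : ℂ)‖ = 2 * Real.pi := by
      rw [norm_mul, Complex.norm_real, Real.norm_of_nonneg Real.pi_pos.le]; norm_num
    rw [← h3, ← norm_mul, h3, hev]
    refine (intervalIntegral.norm_integral_le_integral_norm (by linarith)).trans ?_
    have hkc : Continuous (fun t : ℝ => ‖1 - (R : ℂ) * Complex.exp (((θ - t : ℝ) : ℂ) * Complex.I)‖⁻¹) :=
      (cont_kernel R hR0.le hR1).comp (continuous_const.sub continuous_id)
    have hle : ∫ t in (-Real.pi)..Real.pi, ‖∑' l, G l t‖ ≤ ∫ t in (-Real.pi)..Real.pi,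
        M * (1 - R) ^ (-α) * ‖1 - (R : ℂ) * Complex.exp (((θ - t : ℝ) : ℂ) * Complex.I)‖⁻¹ := by
      refine intervalIntegral.integral_mono_on (by linarith) ?_ ((hkc.const_mul _).intervalIntegrable _ _) fun t _ => hptw t
      refine IntervalIntegrable.norm ?_
      refine (intervalIntegrable_iff_integrableOn_Ioc_of_le (by linarith)).2 ?_
      refine Integrable.mono' (g := fun t => M * (1 - R) ^ (-α) * ‖1 - (R : ℂ) * Complex.exp (((θ - t : ℝ) : ℂ) * Complex.I)‖⁻¹) ?_ ?_ (ae_of_all _ hptw)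
      · exact (hkc.const_mul _).integrableOn_Ioc
      · have hms : Measurable (fun t => ∑' l, G l t) := by
          have : ∀ l, Measurable (G l) := fun l => (by simp only [hG]; fun_prop : Continuous (G l)).measurable
          exact Measurable.tsum this
        exact hms.aestronglyMeasurable
    refine hle.trans ?_
    rw [intervalIntegral.integral_const_mul]
    gcongr
    exact kernel_full R ε hR0.le hR1 hε0 hε1 θ
  have h1R : 0 < 1 - R := by linarith
  have e8 : (1 - R) ^ (-α - ε) = (1 - R) ^ (-α) * (1 - R) ^ (-ε) := by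
    rw [← Real.rpow_add h1R]; ring_nf
  rw [e8]
  have h2pi : 0 < 2 * Real.pi := by positivity
  rw [← mul_le_mul_iff_left₀ h2pi]
  refine hfinal.trans (le_of_eq ?_)
  ring

end Pool.Agent.Helper630.TwoSumming
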