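import Pool.Agent.Helper630.TwoSumming.TailA

open Finset MeasureTheory Filter Topology

namespace Pool.Agent.Helper630.TwoSumming

lemma tail_mul_pow {φ : ℕ → ℂ} (hφ : IsAn φ) (p q : ℕ) {z : ℂ} (hz : ‖z‖ < 1) :
    ev (tail φ p q) z * z ^ p = ev φ z - ∑ j ∈ range (q + p), φ j * z ^ j := by
  rw [tail_ev_eq hφ p q hz, ← tsum_mul_right]
  have hs := hφ.summable hz
  have h1 := hs.sum_add_tsum_nat_add (q + p)
  unfold ev
  rw [← h1, add_sub_cancel_left]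
  refine tsum_congr fun l => ?_
  rw [mul_assoc, ← pow_add, add_assoc]

lemma tail_bound {α : ℝ} (hα : 1 ≤ α) (n : ℕ) {ε : ℝ} (hε0 : 0 < ε) (hε1 : ε ≤ 1) :
    ∃ K : ℝ, 0 < K ∧ ∀ (φ : ℕ → ℂ), IsAn φ → ∀ M : ℝ, (∀ z : ℂ, ‖z‖ < 1 → ‖ev φ z‖ ≤ M * (1 - ‖z‖) ^ (-α)) →
      ∀ p q : ℕ, p ≤ q → q ≤ p + n + 1 → ∀ z : ℂ, ‖z‖ < 1 →
        ‖ev (tail φ p q) z‖ ≤ K * M * (1 - ‖z‖) ^ (-α) * ((p : ℝ) + 1) ^ (2 * ε) := by
  have hα0 : 0 < α := by linarith
  refine ⟨2 ^ α * 8 / ε + (2 + 4 * 2 ^ α * (n + 2) ^ (α + 1)), by positivity, ?_⟩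
  intro φ hφ M h p q hpq hqn z hz
  have hM : 0 ≤ M := by
    have := (norm_nonneg _).trans (h 0 (by simp))
    simpa using this
  set δ := 1 - ‖z‖ with hδ
  have hδ0 : 0 < δ := by rw [hδ]; linarith
  have hδ1 : δ ≤ 1 := by rw [hδ]; linarith [norm_nonneg z]
  have hp1 : (1:ℝ) ≤ (p : ℝ) + 1 := by linarith [Nat.cast_nonneg (α := ℝ) p]
  have hp0 : (0:ℝ) < (p : ℝ) + 1 := by linarith
  have hpε : 1 ≤ ((p : ℝ) + 1) ^ (2 * ε) := Real.one_le_rpow hp1 (by positivity)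
  rcases le_total (1 / (4 * ((p : ℝ) + 1) ^ 2)) δ with hc | hc
  · have h1 := tail_bound1 hφ hα0 h hpq hε0 hε1 hz
    refine h1.trans ?_
    set R := Real.sqrt ‖z‖ with hR
    have hR0 : 0 ≤ R := Real.sqrt_nonneg _
    have hRR : R * R = ‖z‖ := Real.mul_self_sqrt (norm_nonneg z)
    have hR1 : R < 1 := by
      rw [hR, Real.sqrt_lt' one_pos]; simpa using hz
    have h2 : δ / 2 ≤ 1 - R := by
      rw [hδ, ← hRR]; nlinarith
    have h3 : (1 - R) ^ (-α - ε) ≤ (δ / 2) ^ (-α - ε) :=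
      Real.rpow_le_rpow_of_nonpos (by positivity) h2 (by linarith)
    have h4 : (δ / 2) ^ (-α - ε) = 2 ^ α * δ ^ (-α) * (δ / 2) ^ (-ε) := by
      rw [show -α - ε = -α + -ε by ring, Real.rpow_add (by positivity)]
      congr 1
      rw [Real.div_rpow hδ0.le (by norm_num), Real.rpow_neg (by norm_num : (0:ℝ) ≤ 2) α, div_inv_eq_mul]
      ring
    have h5 : (δ / 2) ^ (-ε) ≤ 8 * ((p : ℝ) + 1) ^ (2 * ε) := by
      have h6 : 1 / (8 * ((p : ℝ) + 1) ^ 2) ≤ δ / 2 := by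
        calc 1 / (8 * ((p : ℝ) + 1) ^ 2) = (1 / (4 * ((p : ℝ) + 1) ^ 2)) / 2 := by field_simp; norm_num
          _ ≤ δ / 2 := by gcongr
      calc (δ / 2) ^ (-ε) ≤ (1 / (8 * ((p : ℝ) + 1) ^ 2)) ^ (-ε) :=
            Real.rpow_le_rpow_of_nonpos (by positivity) h6 (by linarith)
        _ = 8 ^ ε * ((p : ℝ) + 1) ^ (2 * ε) := by
            rw [one_div, Real.inv_rpow (by positivity), Real.rpow_neg (by positivity), inv_inv,
              Real.mul_rpow (by norm_num) (by positivity), ← Real.rpow_natCast, ← Real.rpow_mul hp0.le]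
            norm_num
        _ ≤ 8 * ((p : ℝ) + 1) ^ (2 * ε) := by
            gcongr
            calc (8:ℝ) ^ ε ≤ 8 ^ (1:ℝ) := Real.rpow_le_rpow_of_exponent_le (by norm_num) hε1
              _ = 8 := by norm_num
    calc M * (1 - R) ^ (-α - ε) / ε ≤ M * (2 ^ α * δ ^ (-α) * (8 * ((p : ℝ) + 1) ^ (2 * ε))) / ε := by
          gcongr
          rw [h4] at h3
          refine h3.trans ?_
          gcongr
      _ = (2 ^ α * 8 / ε) * M * δ ^ (-α) * ((p : ℝ) + 1) ^ (2 * ε) := by ring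
      _ ≤ _ := by
          gcongr
          have : 0 ≤ (2 + 4 * 2 ^ α * ((n : ℝ) + 2) ^ (α + 1)) := by positivity
          linarith
  · -- small δ
    have hδ4 : δ * (4 * ((p : ℝ) + 1) ^ 2) ≤ 1 := by
      rw [le_div_iff₀ (by positivity)] at hc; exact hc
    have hzp : (1 / 2 : ℝ) ≤ ‖z‖ ^ p := by
      have hb := one_add_mul_le_pow (a := -δ) (by linarith) p
      have e : 1 + -δ = ‖z‖ := by rw [hδ]; ring
      rw [e] at hb
      refine le_trans ?_ hb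
      nlinarith [mul_nonneg hδ0.le (Nat.cast_nonneg (α := ℝ) p), sq_nonneg ((p:ℝ)), mul_nonneg hδ0.le (sq_nonneg ((p:ℝ)))]
    have h1 : ‖ev (tail φ p q) z‖ * ‖z‖ ^ p ≤ M * δ ^ (-α) + ∑ j ∈ range (q + p), ‖φ j‖ := by
      rw [← norm_pow, ← norm_mul, tail_mul_pow hφ p q hz]
      refine (norm_sub_le _ _).trans (add_le_add (h z hz) ?_)
      refine (norm_sum_le _ _).trans (Finset.sum_le_sum fun j _ => ?_)
      rw [norm_mul, norm_pow]
      exact mul_le_of_le_one_right (norm_nonneg _) (pow_le_one₀ (norm_nonneg _) hz.le)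
    have h2 : ∑ j ∈ range (q + p), ‖φ j‖ ≤ 2 * 2 ^ α * M * (((n : ℝ) + 2) ^ (α + 1) * δ ^ (-α)) := by
      have hqp : ((q + p : ℕ) : ℝ) ≤ ((n : ℝ) + 2) * ((p : ℝ) + 1) := by
        have : ((q : ℕ) : ℝ) ≤ p + n + 1 := by exact_mod_cast hqn
        push_cast
        nlinarith [mul_nonneg (Nat.cast_nonneg (α := ℝ) n) (Nat.cast_nonneg (α := ℝ) p)]
      calc ∑ j ∈ range (q + p), ‖φ j‖ ≤ ∑ j ∈ range (q + p), 2 * 2 ^ α * M * (((n : ℝ) + 2) * ((p : ℝ) + 1)) ^ α := by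
            refine Finset.sum_le_sum fun j hj => ?_
            refine (co_le_of_growth hφ hα0 h j).trans ?_
            gcongr
            have : ((j : ℕ) : ℝ) + 1 ≤ ((q + p : ℕ) : ℝ) := by exact_mod_cast Finset.mem_range.1 hj
            exact this.trans hqp
        _ = ((q + p : ℕ) : ℝ) * (2 * 2 ^ α * M * (((n : ℝ) + 2) * ((p : ℝ) + 1)) ^ α) := by
            rw [Finset.sum_const, Finset.card_range, nsmul_eq_mul]
        _ ≤ (((n : ℝ) + 2) * ((p : ℝ) + 1)) * (2 * 2 ^ α * M * (((n : ℝ) + 2) * ((p : ℝ) + 1)) ^ α) := by gcongr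
        _ = 2 * 2 ^ α * M * (((n : ℝ) + 2) ^ (α + 1) * ((p : ℝ) + 1) ^ (α + 1)) := by
            rw [← Real.mul_rpow (by positivity) hp0.le, Real.rpow_add_one (by positivity)]; ring
        _ ≤ 2 * 2 ^ α * M * (((n : ℝ) + 2) ^ (α + 1) * δ ^ (-α)) := by
            gcongr
            calc ((p : ℝ) + 1) ^ (α + 1) ≤ ((p : ℝ) + 1) ^ (2 * α) :=
                  Real.rpow_le_rpow_of_exponent_le hp1 (by linarith)
              _ = (((p : ℝ) + 1) ^ 2) ^ α := by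
                  rw [← Real.rpow_natCast, ← Real.rpow_mul hp0.le]; norm_num
              _ ≤ (δ⁻¹) ^ α := by
                  gcongr
                  rw [← one_div, le_div_iff₀ hδ0]
                  nlinarith [sq_nonneg ((p:ℝ) + 1), mul_nonneg hδ0.le (sq_nonneg ((p:ℝ) + 1))]
              _ = δ ^ (-α) := by rw [Real.inv_rpow hδ0.le, Real.rpow_neg hδ0.le]
    have h3 : ‖ev (tail φ p q) z‖ ≤ 2 * (M * δ ^ (-α) + 2 * 2 ^ α * M * (((n : ℝ) + 2) ^ (α + 1) * δ ^ (-α))) := by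
      have := norm_nonneg (ev (tail φ p q) z)
      nlinarith
    calc ‖ev (tail φ p q) z‖ ≤ 2 * (M * δ ^ (-α) + 2 * 2 ^ α * M * (((n : ℝ) + 2) ^ (α + 1) * δ ^ (-α))) := h3
      _ = (2 + 4 * 2 ^ α * ((n : ℝ) + 2) ^ (α + 1)) * M * δ ^ (-α) * 1 := by ring
      _ ≤ _ := by
          have hK : (2 + 4 * 2 ^ α * ((n : ℝ) + 2) ^ (α + 1)) ≤ 2 ^ α * 8 / ε + (2 + 4 * 2 ^ α * ((n : ℝ) + 2) ^ (α + 1)) :=
            le_add_of_nonneg_left (by positivity)
          have hδα : 0 ≤ δ ^ (-α) := by positivity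
          exact mul_le_mul (mul_le_mul_of_nonneg_right (mul_le_mul_of_nonneg_right hK hM) hδα) hpε zero_le_one
            (by positivity)

end Pool.Agent.Helper630.TwoSumming
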