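import Pool.Agent.Helper630.TwoSumming.Positive

open Finset MeasureTheory Filter Topology

namespace Pool.Agent.Helper630.TwoSumming

lemma ev_fin {a : ℕ → ℂ} {K : ℕ} (h : ∀ j, K ≤ j → a j = 0) (z : ℂ) : ev a z = ∑ j ∈ range K, a j * z ^ j := by
  unfold ev
  refine tsum_eq_sum fun j hj => ?_
  rw [h j (by rw [Finset.mem_range] at hj; omega), zero_mul]

lemma IsAn.of_fin {a : ℕ → ℂ} {K : ℕ} (h : ∀ j, K ≤ j → a j = 0) : IsAn a := by
  intro r _ _
  refine summable_of_ne_finset_zero (s := range K) fun j hj => ?_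
  rw [h j (by rw [Finset.mem_range] at hj; omega), norm_zero, zero_mul]

lemma ev_fin_cont {a : ℕ → ℂ} {K : ℕ} (h : ∀ j, K ≤ j → a j = 0) : Continuous (ev a) := by
  have : ev a = fun z => ∑ j ∈ range K, a j * z ^ j := funext (ev_fin h)
  rw [this]
  fun_prop

lemma cont_int {E : Type*} [NormedAddCommGroup E] {f : ℂ → E} (hf : Continuous f) : IntegrableOn f (Metric.ball (0:ℂ) 1) :=
  (hf.continuousOn.integrableOn_compact (isCompact_closedBall (0:ℂ) 1)).mono_set Metric.ball_subset_closedBall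

/-- the mass of the weight -/
noncomputable def mu (k b : ℕ) : ℝ := 2 * Real.pi * ∫ r in Set.Ioo (0:ℝ) 1, r ^ (2 * k + 1) * (1 - r ^ 2) ^ b

lemma mu_eq (k b : ℕ) : mu k b = Real.pi * ((k.factorial : ℝ) * b.factorial / (k + b + 1).factorial) := by
  unfold mu
  rw [radial_beta]
  have : ((k + b + 1).factorial : ℝ) ≠ 0 := by exact_mod_cast Nat.factorial_ne_zero _
  field_simp

lemma mu_pos (k b : ℕ) : 0 < mu k b := by
  rw [mu_eq]; positivity

/-- the weight -/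
noncomputable def wt (k b : ℕ) (r : ℝ) : ℝ := r ^ (2 * k) * (1 - r ^ 2) ^ b

lemma wt_continuous (k b : ℕ) : Continuous (wt k b) := by unfold wt; fun_prop

lemma wt_nonneg (k b : ℕ) {r : ℝ} (h0 : 0 ≤ r) (h1 : r ≤ 1) : 0 ≤ wt k b r := by
  unfold wt
  have : 0 ≤ 1 - r ^ 2 := by nlinarith
  positivity

lemma radial_int (k b j : ℕ) : IntegrableOn (fun r : ℝ => r ^ (2 * j + 1) * wt k b r) (Set.Ioo 0 1) := by
  have hc : Continuous (fun r : ℝ => r ^ (2 * j + 1) * wt k b r) := by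
    have := wt_continuous k b
    fun_prop
  exact (hc.integrableOn_Icc (a := 0) (b := 1)).mono_set Set.Ioo_subset_Icc_self

lemma radial_le (k b j : ℕ) : 2 * Real.pi * ∫ r in Set.Ioo (0:ℝ) 1, r ^ (2 * j + 1) * wt k b r ≤ mu k b := by
  unfold mu
  refine mul_le_mul_of_nonneg_left ?_ (by positivity)
  refine setIntegral_mono_on (radial_int k b j) ?_ measurableSet_Ioo fun r hr => ?_
  · exact ((by fun_prop : Continuous (fun r : ℝ => r ^ (2 * k + 1) * (1 - r ^ 2) ^ b)).integrableOn_Icc (a := 0) (b := 1)).mono_set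
        Set.Ioo_subset_Icc_self
  · have h1 : 0 ≤ 1 - r ^ 2 := by nlinarith [hr.1, hr.2]
    have h2 : r ^ (2 * j + 1) ≤ r := by
      have := pow_le_pow_of_le_one hr.1.le hr.2.le (show 1 ≤ 2 * j + 1 by omega)
      simpa using this
    have h3 := hr.1.le
    unfold wt
    calc r ^ (2 * j + 1) * (r ^ (2 * k) * (1 - r ^ 2) ^ b) ≤ r * (r ^ (2 * k) * (1 - r ^ 2) ^ b) := by gcongr
      _ = _ := by ring

lemma mass_eq (k b : ℕ) : ∫ z in Metric.ball (0:ℂ) 1, wt k b ‖z‖ = mu k b := by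
  have h0 : ∀ j, 1 ≤ j → (fun k => if k = 0 then (1:ℂ) else 0) j = 0 := fun j hj => by
    simp only; rw [if_neg (by omega)]
  have hev : ∀ z, ev (fun k => if k = 0 then (1:ℂ) else 0) z = 1 := by
    intro z
    rw [ev_fin h0]; simp
  have hwc : Continuous (fun z : ℂ => ((wt k b ‖z‖ : ℝ) : ℂ)) :=
    Complex.continuous_ofReal.comp ((wt_continuous k b).comp continuous_norm)
  have h := disc_orth (IsAn.of_fin h0) 0 (wt k b) (wt_continuous k b).continuousOn (by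
    simp_rw [hev, one_mul]
    exact cont_int hwc)
  simp_rw [hev, pow_zero, one_mul] at h
  rw [integral_complex_ofReal] at h
  have h2 : (∫ r in Set.Ioo (0:ℝ) 1, r ^ (2 * 0 + 1) * wt k b r) = ∫ r in Set.Ioo (0:ℝ) 1, r ^ (2 * k + 1) * (1 - r ^ 2) ^ b := by
    refine setIntegral_congr_fun measurableSet_Ioo fun r _ => ?_
    unfold wt
    ring
  rw [h2] at h
  simp only [if_true, mul_one] at h
  unfold mu
  exact_mod_cast h

lemma L2_bound {G : ℕ → ℂ} {K : ℕ} (hG : ∀ j, K ≤ j → G j = 0) (k b : ℕ) :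
    ∫ z in Metric.ball (0:ℂ) 1, ‖ev G z‖ ^ 2 * wt k b ‖z‖ ≤ (∑ j ∈ range K, ‖G j‖ ^ 2) * mu k b := by
  have hwc : Continuous (fun z : ℂ => ((wt k b ‖z‖ : ℝ) : ℂ)) :=
    Complex.continuous_ofReal.comp ((wt_continuous k b).comp continuous_norm)
  have hc := ev_fin_cont hG
  have e1 : ∀ z : ℂ, ((‖ev G z‖ ^ 2 * wt k b ‖z‖ : ℝ) : ℂ) =
      ∑ j ∈ range K, starRingEnd ℂ (G j) * ((starRingEnd ℂ z) ^ j * ev G z * wt k b ‖z‖) := by
    intro z
    push_cast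
    rw [← Complex.mul_conj']
    nth_rewrite 2 [ev_fin hG]
    rw [map_sum, Finset.mul_sum, Finset.sum_mul]
    refine Finset.sum_congr rfl fun j _ => ?_
    rw [map_mul, map_pow]; ring
  have e2 : ((∫ z in Metric.ball (0:ℂ) 1, ‖ev G z‖ ^ 2 * wt k b ‖z‖ : ℝ) : ℂ) =
      ((∑ j ∈ range K, ‖G j‖ ^ 2 * (2 * Real.pi * ∫ r in Set.Ioo (0:ℝ) 1, r ^ (2 * j + 1) * wt k b r) : ℝ) : ℂ) := by
    rw [← integral_complex_ofReal]
    simp_rw [e1]
    rw [integral_finsetSum]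
    · rw [Complex.ofReal_sum]
      refine Finset.sum_congr rfl fun j _ => ?_
      rw [integral_const_mul, disc_orth (IsAn.of_fin hG) j (wt k b) (wt_continuous k b).continuousOn (cont_int (hc.mul hwc))]
      have h5 := Complex.conj_mul' (G j)
      push_cast
      rw [← h5]
      ring
    · intro j _
      refine cont_int ?_
      have : Continuous (fun z : ℂ => (starRingEnd ℂ z) ^ j) := Complex.continuous_conj.pow j
      exact continuous_const.mul ((this.mul hc).mul hwc)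
  have e3 : ∫ z in Metric.ball (0:ℂ) 1, ‖ev G z‖ ^ 2 * wt k b ‖z‖ =
      ∑ j ∈ range K, ‖G j‖ ^ 2 * (2 * Real.pi * ∫ r in Set.Ioo (0:ℝ) 1, r ^ (2 * j + 1) * wt k b r) := by
    exact_mod_cast e2
  rw [e3, Finset.sum_mul]
  refine Finset.sum_le_sum fun j _ => ?_
  gcongr
  exact radial_le k b j

/-- `L¹` bound for polynomials with high frequencies -/
lemma L1_bound {f : ℕ → ℂ} {K : ℕ} (hf : ∀ j, K ≤ j → f j = 0) (k b : ℕ) (hf0 : ∀ j, j < 2 * k → f j = 0) {t : ℝ} (ht : 0 < t) :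
    ∫ z in Metric.ball (0:ℂ) 1, ‖ev f z‖ * (1 - ‖z‖) ^ b ≤
      (t * (∑ j ∈ range K, ‖f j‖ ^ 2) + t⁻¹) / 2 * mu k b := by
  set G : ℕ → ℂ := fun j => f (j + 2 * k) with hGd
  have hG : ∀ j, K ≤ j → G j = 0 := fun j hj => hf _ (by omega)
  have hc := ev_fin_cont hG
  have hcf := ev_fin_cont hf
  have hwc : Continuous (fun z : ℂ => wt k b ‖z‖) := (wt_continuous k b).comp continuous_norm
  have h1 : ∫ z in Metric.ball (0:ℂ) 1, ‖ev f z‖ * (1 - ‖z‖) ^ b ≤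
      ∫ z in Metric.ball (0:ℂ) 1, ((t / 2) * (‖ev G z‖ ^ 2 * wt k b ‖z‖) + (t⁻¹ / 2) * wt k b ‖z‖) := by
    refine setIntegral_mono_on (cont_int (by fun_prop)) (cont_int (by fun_prop)) Metric.isOpen_ball.measurableSet fun z hz => ?_
    have hz1 := mem_ball_zero_iff.1 hz
    have hz0 := norm_nonneg z
    have hp : 0 ≤ 1 - ‖z‖ := by linarith
    rw [shift_ev (IsAn.of_fin hf) (2 * k) hf0 hz1, norm_mul, norm_pow]
    have h2 : (1 - ‖z‖) ^ b ≤ (1 - ‖z‖ ^ 2) ^ b := by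
      gcongr
      nlinarith
    have h3 : ‖ev G z‖ ≤ (t / 2) * ‖ev G z‖ ^ 2 + t⁻¹ / 2 := by
      have h4 : 0 ≤ (t * ‖ev G z‖ - 1) ^ 2 := sq_nonneg _
      have h5 : t * t⁻¹ = 1 := mul_inv_cancel₀ ht.ne'
      have h6 : 0 ≤ t * ((t / 2) * ‖ev G z‖ ^ 2 + t⁻¹ / 2 - ‖ev G z‖) := by nlinarith
      have h7 := (mul_nonneg_iff_of_pos_left ht).1 h6
      linarith
    have hw := wt_nonneg k b hz0 hz1.le
    calc ‖z‖ ^ (2 * k) * ‖ev G z‖ * (1 - ‖z‖) ^ b ≤ ‖z‖ ^ (2 * k) * ‖ev G z‖ * (1 - ‖z‖ ^ 2) ^ b := by gcongr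
      _ = ‖ev G z‖ * wt k b ‖z‖ := by unfold wt; ring
      _ ≤ ((t / 2) * ‖ev G z‖ ^ 2 + t⁻¹ / 2) * wt k b ‖z‖ := by gcongr
      _ = _ := by ring
  rw [integral_add (cont_int (by fun_prop)) (cont_int (by fun_prop)), integral_const_mul, integral_const_mul, mass_eq] at h1
  have h8 := L2_bound hG k b
  have h9 : ∑ j ∈ range K, ‖G j‖ ^ 2 ≤ ∑ j ∈ range K, ‖f j‖ ^ 2 := by
    have e1 : ∑ j ∈ range K, ‖G j‖ ^ 2 = ∑ j ∈ Ico (2 * k) (K + 2 * k), ‖f j‖ ^ 2 := by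
      have := Finset.sum_Ico_add' (fun j => ‖f j‖ ^ 2) 0 K (2 * k)
      rw [zero_add] at this
      rw [← this, Finset.range_eq_Ico]
    have e2 : ∑ j ∈ range K, ‖f j‖ ^ 2 = ∑ j ∈ range (K + 2 * k), ‖f j‖ ^ 2 := by
      refine Finset.sum_subset (Finset.range_mono (by omega)) fun j _ hj => ?_
      rw [hf j (by rw [Finset.mem_range] at hj; omega)]; simp
    rw [e1, e2, Finset.range_eq_Ico]
    exact Finset.sum_le_sum_of_subset_of_nonneg (Finset.Ico_subset_Ico_left (Nat.zero_le _)) fun _ _ _ => by positivity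
  have hmu := mu_pos k b
  refine h1.trans ?_
  calc t / 2 * (∫ z in Metric.ball (0:ℂ) 1, ‖ev G z‖ ^ 2 * wt k b ‖z‖) + t⁻¹ / 2 * mu k b
      ≤ t / 2 * ((∑ j ∈ range K, ‖f j‖ ^ 2) * mu k b) + t⁻¹ / 2 * mu k b := by
        gcongr
        exact h8.trans (by gcongr)
    _ = _ := by ring

end Pool.Agent.Helper630.TwoSumming
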